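import Pool.Agent.H87.LU.Defs

/-!
# LU Ends: the input for the construction of `J` on balls

`T Ω`: the true sections over `Ω` (composed with the projection to `Y`).  `Mid`: the function `J` on the part `|Re z| < W` of a ball.  `LEnd`: cells in the left end,
far to the left (`Re t ≤ - T₁`); `W = T₁ + 10`, the seam is near `Re t = - T₁ - 5`.  The right end is the left end of the reflected situation (`rfT`, `rfI`).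
`Appr`: the members of `S (ball c R)` are limits of members of `T`.
A cell is an index `i : ι` (for instance `(i, μ)` in `EG/RL`), `Φ i t h` is the point with the coordinate `h` of the fibre over `t`, `P i t h` the primitive of the density.
-/

set_option autoImplicit false

open Topology Filter Metric

namespace Pool.Agent.H87.LU

/-- a strip which is unbounded to the left -/
def Stp (t₀ : ℂ) (ε : ℝ) : Set ℂ := {t | t.re < t₀.re + ε ∧ |t.im - t₀.im| < ε}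

/-- the left end -/
structure LEnd {Y : Type} [MetricSpace Y] (T : Set ℂ → Set (ℂ → Y)) (II : ℂ → Y → Y → ℂ) (T₁ : ℝ) where
  /-- the cells -/
  ι : Type
  /-- the parametrization of the cell -/
  Φ : ι → ℂ → ℂ → Y
  /-- the primitive of the density -/
  P : ι → ℂ → ℂ → ℂ
  /-- the cell -/
  Cn : ι → Set (ℂ × ℂ)
  /-- the central part of the cell -/
  Cs : ι → Set (ℂ × ℂ)
  /-- constants -/
  C : ℝ
  /-- the exponent of the growth -/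
  k : ℕ
  /-- the margin -/
  r₁ : ℝ
  /-- the width of the links -/
  ε : ℝ
  C_nonneg : 0 ≤ C
  r₁_ge : 4 ≤ r₁
  ε_pos : 0 < ε
  sub : ∀ i, Cs i ⊆ Cn i
  P_an : ∀ (i : ι) (U : Set ℂ) (h : ℂ → ℂ), IsOpen U → DifferentiableOn ℂ h U → (∀ t ∈ U, (t, h t) ∈ Cn i) → DifferentiableOn ℂ (fun t => P i t (h t)) U
  P_le : ∀ (i : ι) (t h : ℂ), (t, h) ∈ Cn i → ‖P i t h‖ ≤ C * ‖h‖
  cell : ∀ (c : ℂ) (R : ℝ), c.re = 0 → ∀ f ∈ T (ball c R), ∀ t₁ ∈ ball c (R - r₁), t₁.re ≤ -T₁ → ∃ (i : ι) (h : ℂ → ℂ),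
    DifferentiableOn ℂ h (ball t₁ 4) ∧ ∀ t ∈ ball t₁ 4, (t, h t) ∈ Cs i ∧ f t = Φ i t (h t) ∧ ‖h t‖ ≤ C * (1 + R) ^ k
  link : ∀ (i j : ι) (t₀ h₀ h₁ : ℂ), t₀.re ≤ -T₁ → (t₀, h₀) ∈ Cn i → (t₀, h₁) ∈ Cn j → Φ i t₀ h₀ = Φ j t₀ h₁ →
    ∃ D : ℂ → ℂ, DifferentiableOn ℂ D (Stp t₀ ε) ∧ (∀ t ∈ Stp t₀ ε, ‖D t‖ ≤ C * (1 + ‖t - t₀‖ + ‖h₀‖ + ‖h₁‖)) ∧
      ∀ hi hj : ℂ → ℂ, AnalyticAt ℂ hi t₀ → AnalyticAt ℂ hj t₀ → hi t₀ = h₀ → hj t₀ = h₁ →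
        (∀ᶠ t in 𝓝 t₀, (t, hi t) ∈ Cn i ∧ (t, hj t) ∈ Cn j ∧ Φ i t (hi t) = Φ j t (hj t)) → ∀ᶠ t in 𝓝 t₀, P i t (hi t) - P j t (hj t) = D t
  seam : ∃ ε' : ℝ, 0 < ε' ∧ ∀ (t₁ : ℂ) (i : ι) (h : ℂ → ℂ) (f g : ℂ → Y), -T₁ - 6 ≤ t₁.re → t₁.re ≤ -T₁ - 4 → f ∈ T (ball t₁ r₁) → g ∈ T (ball t₁ r₁) →
    DifferentiableOn ℂ h (ball t₁ 4) → (∀ t ∈ ball t₁ 4, (t, h t) ∈ Cs i ∧ f t = Φ i t (h t)) → (∀ t ∈ ball t₁ 4, dist (f t) (g t) ≤ ε') →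
    ∃ h' : ℂ → ℂ, DifferentiableOn ℂ h' (ball t₁ 3) ∧ ∀ t ∈ ball t₁ 3, (t, h' t) ∈ Cn i ∧ g t = Φ i t (h' t) ∧ ‖h' t‖ ≤ ‖h t‖ + C ∧
      II t (f t) (g t) = P i t (h' t) - P i t (h t)

/-- the reflected family -/
def rfT {Y : Type} (T : Set ℂ → Set (ℂ → Y)) : Set ℂ → Set (ℂ → Y) := fun Ω => {f | (fun z => f (-z)) ∈ T {z | -z ∈ Ω}}

/-- the reflected integral -/
def rfI {Y : Type} (II : ℂ → Y → Y → ℂ) : ℂ → Y → Y → ℂ := fun z => II (-z)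

/-- the function `J` in the middle -/
def Mid {Y : Type} [MetricSpace Y] (T : Set ℂ → Set (ℂ → Y)) (II : ℂ → Y → Y → ℂ) (B : Set ℂ) (δ W ε₀ r₁ C : ℝ) : Prop :=
  ∀ (c : ℂ) (R : ℝ), c.re = 0 → ∀ f ∈ T (ball c R), ∀ g ∈ T (ball c R), (∀ z ∈ ball c R, z ∈ Gd B δ → |z.re| ≤ W → dist (f z) (g z) ≤ ε₀) →
    ∃ J : ℂ → ℂ, DifferentiableOn ℂ J {z | z ∈ ball c (R - r₁) ∧ |z.re| < W} ∧ (∀ z ∈ ball c (R - r₁), |z.re| < W → ‖J z‖ ≤ C) ∧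
      ∀ z ∈ ball c (R - r₁), z ∈ Gd B (2 * δ) → |z.re| < W → J z = II z (f z) (g z)

/-- the members of `S` are limits of members of `T` -/
structure Appr {Y : Type} [MetricSpace Y] (T S : Set ℂ → Set (ℂ → Y)) (II : ℂ → Y → Y → ℂ) (B : Set ℂ) (δ W ε₀ r₁ : ℝ) : Prop where
  appr : ∀ (c : ℂ) (R R' ε δ' : ℝ), c.re = 0 → R' < R → 0 < ε → 0 < δ' → ∀ f ∈ S (ball c R), ∃ F ∈ T (ball c R'),
    ∀ z ∈ ball c R', z ∈ Gd B δ' → dist (F z) (f z) < ε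
  cont : ∀ (c : ℂ) (R : ℝ), c.re = 0 → ∀ f ∈ S (ball c R), ∀ g ∈ S (ball c R), ∀ z ∈ ball c (R - r₁), z ∈ Gd B (2 * δ) → |z.re| ≤ W →
    dist (f z) (g z) ≤ ε₀ → ∀ η : ℝ, 0 < η → ∃ ε : ℝ, 0 < ε ∧ ∀ (R' : ℝ) (F G : ℂ → Y), F ∈ T (ball c R') → G ∈ T (ball c R') → z ∈ ball c (R' - r₁) →
      dist (F z) (f z) < ε → dist (G z) (g z) < ε → dist (II z (F z) (G z)) (II z (f z) (g z)) < η

end Pool.Agent.H87.LU
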