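import Pool.Agent.H87.LU.JTrue
import Pool.Agent.H17.Montel

/-!
# LU JLim: the field `J` of `UDyn` from the cells of the two ends, the middle part and the approximation by true sections
-/

set_option autoImplicit false

open Topology Filter Metric

namespace Pool.Agent.H87.LU

open Pool.Agent.H17 (montel_ultrafilter)

variable {Y : Type} [MetricSpace Y] {T S : Set ℂ → Set (ℂ → Y)} {II : ℂ → Y → Y → ℂ} {T₁ : ℝ}

theorem II_int {p : ℝ} (hinv : ∀ z y y', II (z + p * Complex.I) y y' = II z y y') (l : ℤ) : ∀ z y y', II (z + p * l * Complex.I) y y' = II z y y' := by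
  induction l with
  | zero => simp
  | succ i ih =>
    intro z y y'
    have h1 : z + (p : ℂ) * (((i : ℤ) + 1 : ℤ) : ℂ) * Complex.I = (z + p * ((i : ℤ) : ℂ) * Complex.I) + p * Complex.I := by
      push_cast
      ring
    rw [h1, hinv, ih]
  | pred i ih =>
    intro z y y'
    have h1 : z + p * ((-(i : ℤ) : ℤ) : ℂ) * Complex.I = (z + (p : ℂ) * ((-(i : ℤ) - 1 : ℤ) : ℂ) * Complex.I) + p * Complex.I := by
      push_cast
      ring
    have h2 := ih z y y'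
    rw [h1, hinv] at h2
    exact h2

/-- the field `J` of `UDyn` -/
theorem exists_J {B : Set ℂ} {δ ε₀ r₁ C p : ℝ} (E : LEnd T II T₁) (E' : LEnd (rfT T) (rfI II) T₁) (hM : Mid T II B δ (T₁ + 10) ε₀ r₁ C)
    (hA : Appr T S II B δ (T₁ + 10) ε₀ r₁)
    (hε₀ : 0 < ε₀) (hC : 0 ≤ C) (hT₁ : 0 < T₁) (hδ : 0 < δ) (hδ1 : δ ≤ 1) (hB : ∀ b ∈ B, |b.re| ≤ T₁)
    (hBinv : ∀ b ∈ B, ∀ l : ℤ, b + p * l * Complex.I ∈ B)
    (hT : ∀ (c c' : ℂ) (R R' : ℝ), ball c' R' ⊆ ball c R → T (ball c R) ⊆ T (ball c' R'))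
    (hinv : ∀ z y y', II (z + p * Complex.I) y y' = II z y y') {a : ℂ} (ha : a ∈ Gd B (2 * δ)) (haW : |a.re| < T₁ + 10) (hII : ∀ y y', II a y y' = 0) :
    ∃ (ε₀ r₁ C : ℝ) (k : ℕ) (a : ℂ), 0 < ε₀ ∧ 0 < r₁ ∧ 0 ≤ C ∧ ∀ (c : ℂ) (R : ℝ), c.re = 0 → r₁ < R → ∀ f ∈ S (ball c R), ∀ g ∈ S (ball c R),
      (∀ z ∈ ball c R, z ∈ Gd B δ → |z.re| ≤ T₁ + 10 → dist (f z) (g z) ≤ ε₀) →
      ∃ J : ℂ → ℂ, DifferentiableOn ℂ J (ball c (R - r₁)) ∧ (∀ z ∈ ball c (R - r₁), ‖J z‖ ≤ C * (1 + R) ^ k) ∧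
        (∀ z ∈ ball c (R - r₁), z ∈ Gd B (2 * δ) → |z.re| < T₁ + 10 → J z = II z (f z) (g z)) ∧
        ∀ l : ℤ, a + p * l * Complex.I ∈ ball c (R - r₁) → J (a + p * l * Complex.I) = 0 := by
  obtain ⟨ε', r, A, m, hε', hεε, hr, hr1, hA0, hJ⟩ := exists_J_true E E' hM hε₀ hC hT₁ hδ hδ1 hB hT
  refine ⟨ε' / 2, r + 1, A, m, a, by linarith, by linarith, hA0, fun c R hc hR f hf g hg hclose => ?_⟩
  -- the approximations
  choose F hFT hF using fun n : ℕ => hA.appr c R (R - 1) (min (1 / ((n : ℝ) + 1)) (ε' / 4)) δ hc (by linarith) (lt_min (by positivity) (by linarith)) hδ f hf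
  choose G hGT hG using fun n : ℕ => hA.appr c R (R - 1) (min (1 / ((n : ℝ) + 1)) (ε' / 4)) δ hc (by linarith) (lt_min (by positivity) (by linarith)) hδ g hg
  have hFG : ∀ n : ℕ, ∀ z ∈ ball c (R - 1), z ∈ Gd B δ → |z.re| ≤ T₁ + 10 → dist (F n z) (G n z) ≤ ε' := by
    intro n z hz h1 h2
    have h3 := (hF n z hz h1).trans_le (min_le_right _ _)
    have h4 := (hG n z hz h1).trans_le (min_le_right _ _)
    have h5 := hclose z (ball_subset_ball (by linarith) hz) h1 h2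
    have h6 := dist_triangle4 (F n z) (f z) (g z) (G n z)
    rw [dist_comm (g z) (G n z)] at h6
    linarith
  choose Jn hJ1 hJ2 hJ3 using fun n : ℕ => hJ c (R - 1) hc (by linarith) (F n) (hFT n) (G n) (hGT n) (hFG n)
  have hrad : R - 1 - r = R - (r + 1) := by ring
  rw [hrad] at hJ1 hJ2 hJ3
  set 𝒰 : Ultrafilter ℕ := Filter.hyperfilter ℕ with h𝒰
  have hle : (𝒰 : Filter ℕ) ≤ atTop := by
    rw [h𝒰, ← Nat.cofinite_eq_atTop]
    exact Filter.hyperfilter_le_cofinite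
  have hR0 : 0 ≤ 1 + (R - 1) := by linarith
  have hpow : (1 + (R - 1)) ^ m ≤ (1 + R) ^ m := pow_le_pow_left₀ hR0 (by linarith) m
  have hbd : ∀ n : ℕ, ∀ z ∈ ball c (R - (r + 1)), ‖Jn n z‖ ≤ A * (1 + R) ^ m := fun n z hz =>
    (hJ2 n z hz).trans (mul_le_mul_of_nonneg_left hpow hA0)
  obtain ⟨J, hJd, hlim⟩ := montel_ultrafilter 𝒰 (F := Jn) (a := c) (r := R - (r + 1)) (B := A * (1 + R) ^ m) (Eventually.of_forall hJ1) (Eventually.of_forall hbd)
  have hpt : ∀ z ∈ ball c (R - (r + 1)), Tendsto (fun n => Jn n z) 𝒰 (𝓝 (J z)) := fun z hz => hlim.tendsto_at hz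
  have hval : ∀ z ∈ ball c (R - (r + 1)), z ∈ Gd B (2 * δ) → |z.re| < T₁ + 10 → J z = II z (f z) (g z) := by
    intro z hz hzG hzW
    have hzG1 : z ∈ Gd B δ := fun b hb => by linarith [hzG b hb]
    have hz1 : z ∈ ball c (R - 1) := ball_subset_ball (by linarith) hz
    have hd : dist (f z) (g z) ≤ ε₀ := (hclose z (ball_subset_ball (by linarith) hz) hzG1 hzW.le).trans (by linarith)
    refine tendsto_nhds_unique (hpt z hz) ?_
    rw [Metric.tendsto_nhds]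
    intro η hη
    obtain ⟨ε, hε, hcont⟩ := hA.cont c R hc f hf g hg z (ball_subset_ball (by linarith) hz) hzG hzW.le hd η hη
    have h1 : ∀ᶠ n : ℕ in atTop, 1 / ((n : ℝ) + 1) < ε := tendsto_one_div_add_atTop_nhds_zero_nat.eventually_lt_const hε
    filter_upwards [hle h1] with n hn
    rw [hJ3 n z hz hzG hzW]
    exact hcont (R - 1) (F n) (G n) (hFT n) (hGT n) (ball_subset_ball (by linarith) hz) (((hF n z hz1 hzG1).trans_le (min_le_left _ _)).trans hn)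
      (((hG n z hz1 hzG1).trans_le (min_le_left _ _)).trans hn)
  refine ⟨J, hJd, ?_, hval, ?_⟩
  · intro z hz
    exact le_of_tendsto (hpt z hz).norm (Eventually.of_forall fun n => hbd n z hz)
  · intro l hl
    rw [hval _ hl ?_ ?_, II_int hinv, hII]
    · intro b hb
      have h1 := ha (b + p * ((-l : ℤ) : ℂ) * Complex.I) (hBinv b hb (-l))
      have h2 : a - (b + p * ((-l : ℤ) : ℂ) * Complex.I) = a + p * l * Complex.I - b := by
        push_cast
        ring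
      rwa [h2] at h1
    · have h3 : (a + p * l * Complex.I).re = a.re := by
        simp
      rw [h3]
      exact haW

end Pool.Agent.H87.LU
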