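import Pool.Agent.H87.JZ.JZero

/-!
# LU ZeroUp: a holomorphic function of polynomial growth on a half plane with zeros at `a + i p l` is zero

Divide by `s z = sin (π (z - a) / (i p))`: the zeros are simple, `‖s z‖ ≥ 1` outside the balls of radius `p / 2` about the zeros (`sin_ge`), `‖s z‖ ≥ exp (π |x - re a| / p) / 4` on the line
half way between the zeros.  Then `jzero_up`.
-/

set_option autoImplicit false

open Topology Filter Metric

namespace Pool.Agent.H87.LU

theorem norm_sin_sq (θ : ℂ) : ‖Complex.sin θ‖ ^ 2 = Real.sin θ.re ^ 2 + Real.sinh θ.im ^ 2 := by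
  have h1 : Complex.sin θ = ((Real.sin θ.re * Real.cosh θ.im : ℝ) : ℂ) + ((Real.cos θ.re * Real.sinh θ.im : ℝ) : ℂ) * Complex.I := by
    rw [Complex.sin_eq]
    push_cast
    ring
  rw [h1, Complex.sq_norm, Complex.normSq_add_mul_I]
  have h2 := Real.sin_sq_add_cos_sq θ.re
  have h3 := Real.cosh_sq θ.im
  have h4 : Real.cos θ.re ^ 2 = 1 - Real.sin θ.re ^ 2 := by linarith
  calc (Real.sin θ.re * Real.cosh θ.im) ^ 2 + (Real.cos θ.re * Real.sinh θ.im) ^ 2
      = Real.sin θ.re ^ 2 * Real.cosh θ.im ^ 2 + Real.cos θ.re ^ 2 * Real.sinh θ.im ^ 2 := by ring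
    _ = Real.sin θ.re ^ 2 * (Real.sinh θ.im ^ 2 + 1) + (1 - Real.sin θ.re ^ 2) * Real.sinh θ.im ^ 2 := by rw [h3, h4]
    _ = _ := by ring

theorem abs_le_sinh (y : ℝ) : |y| ≤ |Real.sinh y| := by
  rcases le_total 0 y with h | h
  · rw [abs_of_nonneg h, abs_of_nonneg (Real.sinh_nonneg_iff.2 h)]
    exact Real.self_le_sinh_iff.2 h
  · rw [abs_of_nonpos h, abs_of_nonpos (Real.sinh_nonpos_iff.2 h)]
    have h1 := Real.self_le_sinh_iff.2 (show 0 ≤ -y by linarith)
    rwa [Real.sinh_neg] at h1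

theorem sin_ge {θ : ℂ} (h : |θ.re| ≤ Real.pi / 2) : 2 / Real.pi * ‖θ‖ ≤ ‖Complex.sin θ‖ := by
  have hpi := Real.pi_pos
  have h2pi : 2 / Real.pi ≤ 1 := by
    rw [div_le_one hpi]
    linarith [Real.pi_gt_three]
  have h20 : 0 ≤ 2 / Real.pi := by positivity
  have h1 : 2 / Real.pi * |θ.re| ≤ |Real.sin θ.re| := by
    rcases le_total 0 θ.re with h2 | h2
    · rw [abs_of_nonneg h2] at h ⊢
      exact (Real.mul_le_sin h2 h).trans (le_abs_self _)
    · rw [abs_of_nonpos h2] at h ⊢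
      have h3 := Real.mul_le_sin (show 0 ≤ -θ.re by linarith) h
      rw [Real.sin_neg] at h3
      exact h3.trans (neg_le_abs _)
  have h3 := abs_le_sinh θ.im
  have h4 : (2 / Real.pi * ‖θ‖) ^ 2 ≤ ‖Complex.sin θ‖ ^ 2 := by
    rw [norm_sin_sq, mul_pow, Complex.sq_norm, Complex.normSq_apply]
    have h5 : (2 / Real.pi) ^ 2 * (θ.re * θ.re) ≤ Real.sin θ.re ^ 2 := by
      rw [← sq_abs (Real.sin θ.re), ← pow_two, ← sq_abs θ.re, ← mul_pow]
      exact pow_le_pow_left₀ (by positivity) h1 2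
    have h6 : (2 / Real.pi) ^ 2 * (θ.im * θ.im) ≤ Real.sinh θ.im ^ 2 := by
      rw [← sq_abs (Real.sinh θ.im), ← pow_two, ← sq_abs θ.im]
      have h7 : (2 / Real.pi) ^ 2 ≤ 1 := pow_le_one₀ h20 h2pi
      calc (2 / Real.pi) ^ 2 * |θ.im| ^ 2 ≤ 1 * |θ.im| ^ 2 := mul_le_mul_of_nonneg_right h7 (by positivity)
        _ = |θ.im| ^ 2 := one_mul _
        _ ≤ |Real.sinh θ.im| ^ 2 := pow_le_pow_left₀ (abs_nonneg _) h3 2
    nlinarith
  exact (pow_le_pow_iff_left₀ (by positivity) (norm_nonneg _) two_ne_zero).1 h4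

theorem sin_ge_exp {θ : ℂ} (h : Real.sin θ.re ^ 2 = 1) : Real.exp |θ.im| / 4 ≤ ‖Complex.sin θ‖ := by
  have h1 := norm_sin_sq θ
  rw [h] at h1
  have h2 : (1 : ℝ) ≤ ‖Complex.sin θ‖ := by
    have h3 : (1 : ℝ) ^ 2 ≤ ‖Complex.sin θ‖ ^ 2 := by
      rw [h1]
      nlinarith [sq_nonneg (Real.sinh θ.im)]
    exact (pow_le_pow_iff_left₀ zero_le_one (norm_nonneg _) two_ne_zero).1 h3
  have h3 : |Real.sinh θ.im| ≤ ‖Complex.sin θ‖ := by
    have h4 : |Real.sinh θ.im| ^ 2 ≤ ‖Complex.sin θ‖ ^ 2 := by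
      rw [h1, sq_abs]
      linarith
    exact (pow_le_pow_iff_left₀ (abs_nonneg _) (norm_nonneg _) two_ne_zero).1 h4
  have h4 : Real.exp |θ.im| / 2 ≤ |Real.sinh θ.im| + 1 := by
    have h5 : |Real.sinh θ.im| = Real.sinh |θ.im| := by rw [Real.abs_sinh]
    rw [h5, Real.sinh_eq]
    have h6 : Real.exp (-|θ.im|) ≤ 1 := by
      rw [Real.exp_le_one_iff]
      linarith [abs_nonneg θ.im]
    linarith
  linarith

/-- the function with the zeros `a + i p l` -/
noncomputable def sn (a : ℂ) (p : ℝ) (z : ℂ) : ℂ := Complex.sin ((Real.pi / p : ℝ) * (-Complex.I * (z - a)))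

theorem sn_arg_re (a : ℂ) (p : ℝ) (z : ℂ) : ((Real.pi / p : ℝ) * (-Complex.I * (z - a)) : ℂ).re = Real.pi / p * (z.im - a.im) := by
  rw [Complex.re_ofReal_mul]
  simp

theorem sn_arg_im (a : ℂ) (p : ℝ) (z : ℂ) : ((Real.pi / p : ℝ) * (-Complex.I * (z - a)) : ℂ).im = -(Real.pi / p * (z.re - a.re)) := by
  rw [Complex.im_ofReal_mul]
  simp
  ring

theorem differentiable_sn (a : ℂ) (p : ℝ) : Differentiable ℂ (sn a p) := by
  unfold sn
  fun_prop

theorem sn_eq_zero {a : ℂ} {p : ℝ} (hp : 0 < p) {z : ℂ} (h : sn a p z = 0) : ∃ l : ℤ, z = a + p * l * Complex.I := by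
  unfold sn at h
  obtain ⟨l, hl⟩ := Complex.sin_eq_zero_iff.1 h
  refine ⟨l, ?_⟩
  have hpi : ((Real.pi : ℝ) : ℂ) ≠ 0 := by exact_mod_cast Real.pi_ne_zero
  have hpc : ((p : ℝ) : ℂ) ≠ 0 := by exact_mod_cast hp.ne'
  have h1 : -Complex.I * (z - a) = p * l := by
    push_cast at hl
    field_simp at hl
    rw [neg_mul]
    exact hl
  have h2 : z - a = p * l * Complex.I := by
    calc z - a = -(Complex.I * Complex.I) * (z - a) := by rw [Complex.I_mul_I]; ring
      _ = Complex.I * (-Complex.I * (z - a)) := by ring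
      _ = p * l * Complex.I := by rw [h1]; ring
  rw [← h2]
  ring

theorem sn_zero {a : ℂ} {p : ℝ} (hp : 0 < p) (l : ℤ) : sn a p (a + p * l * Complex.I) = 0 := by
  unfold sn
  rw [Complex.sin_eq_zero_iff]
  refine ⟨l, ?_⟩
  have hpc : ((p : ℝ) : ℂ) ≠ 0 := by exact_mod_cast hp.ne'
  have h1 : -Complex.I * (a + p * l * Complex.I - a) = p * l := by
    calc -Complex.I * (a + p * l * Complex.I - a) = -(Complex.I * Complex.I) * (p * l) := by ring
      _ = p * l := by rw [Complex.I_mul_I]; ring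
  rw [h1]
  push_cast
  field_simp

theorem deriv_sn_ne {a : ℂ} {p : ℝ} (hp : 0 < p) {z : ℂ} (h : sn a p z = 0) : deriv (sn a p) z ≠ 0 := by
  have hpi : ((Real.pi : ℝ) : ℂ) ≠ 0 := by exact_mod_cast Real.pi_ne_zero
  have hpc : ((p : ℝ) : ℂ) ≠ 0 := by exact_mod_cast hp.ne'
  have h1 : HasDerivAt (sn a p) (Complex.cos ((Real.pi / p : ℝ) * (-Complex.I * (z - a))) * ((Real.pi / p : ℝ) * (-Complex.I * 1))) z := by
    unfold sn
    exact ((((hasDerivAt_id z).sub_const a).const_mul (-Complex.I)).const_mul ((Real.pi / p : ℝ) : ℂ)).csin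
  rw [h1.deriv]
  have h2 : Complex.cos ((Real.pi / p : ℝ) * (-Complex.I * (z - a))) ≠ 0 := by
    intro h3
    have h4 := Complex.sin_sq_add_cos_sq ((Real.pi / p : ℝ) * (-Complex.I * (z - a)))
    unfold sn at h
    rw [h, h3] at h4
    norm_num at h4
  refine mul_ne_zero h2 (mul_ne_zero ?_ (mul_ne_zero (neg_ne_zero.2 Complex.I_ne_zero) one_ne_zero))
  push_cast
  exact div_ne_zero hpi hpc

/-- the nearest zero -/
theorem exists_near (a : ℂ) {p : ℝ} (hp : 0 < p) (z : ℂ) : ∃ l : ℤ, |z.im - (a.im + p * l)| ≤ p / 2 := by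
  refine ⟨round ((z.im - a.im) / p), ?_⟩
  have h1 := abs_sub_round ((z.im - a.im) / p)
  have h2 : z.im - (a.im + p * (round ((z.im - a.im) / p) : ℤ)) = p * ((z.im - a.im) / p - (round ((z.im - a.im) / p) : ℤ)) := by
    field_simp
    ring
  rw [h2, abs_mul, abs_of_pos hp]
  calc p * |(z.im - a.im) / p - (round ((z.im - a.im) / p) : ℤ)| ≤ p * (1 / 2) := mul_le_mul_of_nonneg_left h1 hp.le
    _ = p / 2 := by ring

theorem sn_ge {a : ℂ} {p : ℝ} (hp : 0 < p) {z : ℂ} {l : ℤ} (hl : |z.im - (a.im + p * l)| ≤ p / 2) (hd : p / 2 ≤ ‖z - (a + p * l * Complex.I)‖) :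
    1 ≤ ‖sn a p z‖ := by
  have hpi := Real.pi_pos
  have hpc : ((p : ℝ) : ℂ) ≠ 0 := by exact_mod_cast hp.ne'
  set θ : ℂ := (Real.pi / p : ℝ) * (-Complex.I * (z - (a + p * l * Complex.I))) with hθ
  have h1 : ((Real.pi / p : ℝ) * (-Complex.I * (z - a)) : ℂ) = θ + l * Real.pi := by
    rw [hθ]
    have h2 : -Complex.I * (z - (a + p * l * Complex.I)) = -Complex.I * (z - a) - p * l := by
      calc -Complex.I * (z - (a + p * l * Complex.I)) = -Complex.I * (z - a) + (Complex.I * Complex.I) * (p * l) := by ring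
        _ = _ := by rw [Complex.I_mul_I]; ring
    rw [h2]
    push_cast
    field_simp
    ring
  have h2 : ‖sn a p z‖ = ‖Complex.sin θ‖ := by
    unfold sn
    have h3 : Complex.sin (θ + l * Real.pi) = (-1) ^ l * Complex.sin θ := l.cast_negOnePow ℂ ▸ Complex.sin_antiperiodic.add_int_mul_eq l
    rw [h1, h3, norm_mul, norm_zpow, norm_neg, norm_one, one_zpow, one_mul]
  have h3 : |θ.re| ≤ Real.pi / 2 := by
    have h4 : θ.re = Real.pi / p * (z.im - (a.im + p * l)) := by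
      rw [hθ, Complex.re_ofReal_mul]
      simp
    rw [h4, abs_mul, abs_of_pos (by positivity)]
    calc Real.pi / p * |z.im - (a.im + p * l)| ≤ Real.pi / p * (p / 2) := mul_le_mul_of_nonneg_left hl (by positivity)
      _ = Real.pi / 2 := by field_simp
  have h4 : ‖θ‖ = Real.pi / p * ‖z - (a + p * l * Complex.I)‖ := by
    rw [hθ, norm_mul, norm_mul, norm_neg, Complex.norm_I, one_mul, Complex.norm_real, Real.norm_of_nonneg (by positivity)]
  rw [h2]
  refine le_trans ?_ (sin_ge h3)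
  rw [h4]
  calc (1 : ℝ) = 2 / Real.pi * (Real.pi / p * (p / 2)) := by field_simp
    _ ≤ 2 / Real.pi * (Real.pi / p * ‖z - (a + p * l * Complex.I)‖) := by gcongr

/-- the quotient -/
noncomputable def qt (J : ℂ → ℂ) (a : ℂ) (p : ℝ) (z : ℂ) : ℂ := if sn a p z = 0 then deriv J z / deriv (sn a p) z else J z / sn a p z

theorem differentiableOn_qt {J : ℂ → ℂ} {a : ℂ} {p : ℝ} (hp : 0 < p) {U : Set ℂ} (hU : IsOpen U) (hJ : DifferentiableOn ℂ J U)
    (h0 : ∀ l : ℤ, a + p * l * Complex.I ∈ U → J (a + p * l * Complex.I) = 0) : DifferentiableOn ℂ (qt J a p) U := by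
  intro z hz
  refine DifferentiableAt.differentiableWithinAt ?_
  have hs : DifferentiableAt ℂ (sn a p) z := differentiable_sn a p z
  have hJz : DifferentiableAt ℂ J z := hJ.differentiableAt (hU.mem_nhds hz)
  by_cases h1 : sn a p z = 0
  · have h2 : J z = 0 := by
      obtain ⟨l, rfl⟩ := sn_eq_zero hp h1
      exact h0 l hz
    have hd := deriv_sn_ne hp h1
    have hsl : DifferentiableOn ℂ (dslope (sn a p) z) Set.univ := (Complex.differentiableOn_dslope univ_mem).2 (differentiable_sn a p).differentiableOn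
    have hsl' : DifferentiableAt ℂ (dslope (sn a p) z) z := hsl.differentiableAt univ_mem
    have hJl : DifferentiableAt ℂ (dslope J z) z := ((Complex.differentiableOn_dslope (hU.mem_nhds hz)).2 hJ).differentiableAt (hU.mem_nhds hz)
    have hne : dslope (sn a p) z z ≠ 0 := by rwa [dslope_same]
    have h3 : qt J a p =ᶠ[𝓝 z] fun w => dslope J z w / dslope (sn a p) z w := by
      filter_upwards [hsl'.continuousAt.eventually_ne hne] with w hw
      by_cases hwz : w = z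
      · rw [hwz, dslope_same, dslope_same]
        unfold qt
        rw [if_pos h1]
      · have hwz' : w - z ≠ 0 := sub_ne_zero.2 hwz
        rw [dslope_of_ne _ hwz, slope_def_module, h1, sub_zero] at hw
        rw [dslope_of_ne _ hwz, dslope_of_ne _ hwz, slope_def_module, slope_def_module, h1, h2, sub_zero, sub_zero]
        have hsw : sn a p w ≠ 0 := by
          intro h4
          rw [h4, smul_zero] at hw
          exact hw rfl
        unfold qt
        rw [if_neg hsw, smul_eq_mul, smul_eq_mul]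
        field_simp
    exact h3.differentiableAt_iff.2 (hJl.div hsl' hne)
  · have h3 : qt J a p =ᶠ[𝓝 z] fun w => J w / sn a p w := by
      filter_upwards [hs.continuousAt.eventually_ne h1] with w hw
      unfold qt
      rw [if_neg hw]
    exact h3.differentiableAt_iff.2 (hJz.div hs h1)

theorem norm_qt_le {J : ℂ → ℂ} {a : ℂ} {p : ℝ} {z : ℂ} (h : 1 ≤ ‖sn a p z‖) : ‖qt J a p z‖ ≤ ‖J z‖ := by
  have h1 : sn a p z ≠ 0 := by
    intro h2
    rw [h2, norm_zero] at h
    linarith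
  unfold qt
  rw [if_neg h1, norm_div]
  exact div_le_self (norm_nonneg _) h

theorem qt_bound {J : ℂ → ℂ} {a : ℂ} {p ρ C : ℝ} {m : ℕ} (hp : 0 < p) (hd : DifferentiableOn ℂ (qt J a p) {z | ρ < z.im})
    (hC : 0 ≤ C) (hb : ∀ z : ℂ, ρ < z.im → ‖J z‖ ≤ C * (1 + ‖z‖) ^ m) {z : ℂ} (hz : ρ + 2 * p < z.im) :
    ‖qt J a p z‖ ≤ C * (1 + (‖z‖ + 2 * p)) ^ m := by
  obtain ⟨l, hl⟩ := exists_near a hp z
  rcases le_or_gt (p / 2) ‖z - (a + p * l * Complex.I)‖ with h1 | h1
  · refine (norm_qt_le (sn_ge hp hl h1)).trans ((hb z (by linarith)).trans ?_)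
    gcongr
    linarith
  · set c : ℂ := a + p * l * Complex.I with hc
    have hcim : c.im = a.im + p * l := by
      rw [hc]
      simp
    have hcz : |z.im - c.im| ≤ p / 2 := by rwa [hcim]
    have hsub : closedBall c (p / 2) ⊆ {z | ρ < z.im} := by
      intro w hw
      rw [mem_closedBall, dist_eq_norm] at hw
      have h2 := (Complex.abs_im_le_norm (w - c)).trans hw
      rw [Complex.sub_im] at h2
      have h3 := (abs_le.1 h2).1
      have h4 := (abs_le.1 hcz).2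
      show ρ < w.im
      linarith
    have hdc : DiffContOnCl ℂ (qt J a p) (ball c (p / 2)) := by
      refine DifferentiableOn.diffContOnCl ?_
      rw [closure_ball _ (by positivity)]
      exact hd.mono hsub
    refine Complex.norm_le_of_forall_mem_frontier_norm_le isBounded_ball hdc (fun w hw => ?_) (z := z) ?_
    · rw [frontier_ball _ (by positivity)] at hw
      have hwc : ‖w - c‖ = p / 2 := by rwa [mem_sphere, dist_eq_norm] at hw
      have h2 : |w.im - (a.im + p * l)| ≤ p / 2 := by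
        have h3 := Complex.abs_im_le_norm (w - c)
        rw [Complex.sub_im, hcim, hwc] at h3
        exact h3
      refine (norm_qt_le (sn_ge hp h2 hwc.ge)).trans ((hb w (hsub (sphere_subset_closedBall hw))).trans ?_)
      have h4 : ‖w‖ ≤ ‖z‖ + 2 * p := by
        have h5 : w = (w - c) - (z - c) + z := by ring
        calc ‖w‖ = ‖(w - c) - (z - c) + z‖ := by rw [← h5]
          _ ≤ ‖w - c‖ + ‖z - c‖ + ‖z‖ := (norm_add_le _ _).trans (by linarith [norm_sub_le (w - c) (z - c)])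
          _ ≤ ‖z‖ + 2 * p := by linarith
      gcongr
    · rw [closure_ball _ (by positivity), mem_closedBall, dist_eq_norm]
      exact h1.le

/-- polynomials are at most exponentials -/
theorem pow_le_exp' (m : ℕ) {c : ℝ} (hc : 0 < c) : ∃ A : ℝ, 0 < A ∧ ∀ x : ℝ, 0 ≤ x → (1 + x) ^ m ≤ A * Real.exp (c * x) := by
  refine ⟨(1 + (m + 1) / c) ^ m, by positivity, fun x hx => ?_⟩
  have h1 : 1 + x ≤ (1 + (m + 1) / c) * Real.exp (c / (m + 1) * x) := by
    have h2 := Real.add_one_le_exp (c / (m + 1) * x)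
    have h3 : (1 + (m + 1) / c) * (c / (m + 1) * x + 1) ≤ (1 + (m + 1) / c) * Real.exp (c / (m + 1) * x) := mul_le_mul_of_nonneg_left h2 (by positivity)
    have h4 : (1 + (m + 1) / c) * (c / (m + 1) * x + 1) = 1 + x + c / (m + 1) * x + (m + 1) / c := by
      field_simp
      ring
    have h5 : 0 ≤ c / (m + 1) * x := by positivity
    have h6 : (0 : ℝ) ≤ (m + 1) / c := by positivity
    linarith
  calc (1 + x) ^ m ≤ ((1 + (m + 1) / c) * Real.exp (c / (m + 1) * x)) ^ m := pow_le_pow_left₀ (by positivity) h1 m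
    _ = (1 + (m + 1) / c) ^ m * Real.exp (m * (c / (m + 1) * x)) := by rw [mul_pow, ← Real.exp_nat_mul]
    _ ≤ (1 + (m + 1) / c) ^ m * Real.exp (c * x) := by
        refine mul_le_mul_of_nonneg_left (Real.exp_le_exp.2 ?_) (by positivity)
        have h7 : (m : ℝ) * (c / (m + 1) * x) = c * x * (m / (m + 1)) := by
          field_simp
        rw [h7]
        have h8 : (m : ℝ) / (m + 1) ≤ 1 := by
          rw [div_le_one (by positivity)]
          linarith
        exact mul_le_of_le_one_right (by positivity) h8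

/-- **The main lemma.** -/
theorem zero_up {J : ℂ → ℂ} {a : ℂ} {p ρ C : ℝ} {m : ℕ} (hp : 0 < p) (hJ : DifferentiableOn ℂ J {z | ρ < z.im}) (hC : 0 ≤ C)
    (hb : ∀ z : ℂ, ρ < z.im → ‖J z‖ ≤ C * (1 + ‖z‖) ^ m)
    (h0 : ∀ l : ℤ, ρ < (a + p * l * Complex.I).im → J (a + p * l * Complex.I) = 0) : ∀ z : ℂ, ρ < z.im → J z = 0 := by
  have hpi := Real.pi_pos
  have hUo : IsOpen {z : ℂ | ρ < z.im} := isOpen_lt continuous_const Complex.continuous_im
  have hd := differentiableOn_qt hp hUo hJ h0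
  -- the horizontal line
  obtain ⟨N, hN⟩ := exists_int_gt ((ρ + 2 * p - a.im) / p)
  rw [div_lt_iff₀ hp] at hN
  set ρ' : ℝ := a.im + p * N + p / 2 with hρ'
  have hρρ' : ρ + 2 * p < ρ' := by
    rw [hρ']
    linarith
  obtain ⟨A₁, hA₁, hA₁'⟩ := pow_le_exp' m one_pos
  have hexpb : ∀ z : ℂ, ρ + 2 * p < z.im → ‖qt J a p z‖ ≤ C * (A₁ * Real.exp (‖z‖ + 2 * p)) := by
    intro z hz
    refine (qt_bound hp hd hC hb hz).trans (mul_le_mul_of_nonneg_left ?_ hC)
    have h1 := hA₁' (‖z‖ + 2 * p) (by positivity)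
    rwa [one_mul] at h1
  have hexpb2 : ∀ z : ℂ, ρ + 2 * p < z.im → ‖qt J a p z‖ ≤ Real.exp (C * A₁ + ‖z‖ + 2 * p) := by
    intro z hz
    refine (hexpb z hz).trans ?_
    have h1 : C * A₁ ≤ Real.exp (C * A₁) := by linarith [Real.add_one_le_exp (C * A₁)]
    have h2 : Real.exp (C * A₁ + ‖z‖ + 2 * p) = Real.exp (C * A₁) * Real.exp (‖z‖ + 2 * p) := by
      rw [← Real.exp_add]
      congr 1
      ring
    rw [h2, ← mul_assoc]
    exact mul_le_mul_of_nonneg_right h1 (Real.exp_pos _).le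
  obtain ⟨A₂, hA₂, hA₂'⟩ := pow_le_exp' m (show 0 < Real.pi / p / 2 by positivity)
  have hq : ∀ z : ℂ, ρ' ≤ z.im → qt J a p z = 0 := by
    refine Pool.Agent.H87.JZ.jzero_up hρρ' (hd.mono fun z hz => ?_) ⟨1, by norm_num, C * A₁ + 1 + 2 * p, 1, fun z hz h1 => ?_⟩
      ⟨0, C * A₁ + 1 + 2 * p, ?_⟩ (a := Real.pi / p / 2) (by positivity)
      (C := 4 * C * (1 + |ρ'|) ^ m * A₂ * Real.exp (Real.pi / p * |a.re|)) fun x => ?_
    · have hz : ρ + 2 * p < z.im := hz
      show ρ < z.im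
      linarith
    · refine (hexpb2 z hz).trans (Real.exp_le_exp.2 ?_)
      rw [Real.rpow_one]
      have h2 : 0 ≤ C * A₁ := by positivity
      nlinarith
    · filter_upwards [eventually_gt_atTop (max (ρ + 2 * p) 1)] with y hy
      rw [max_lt_iff] at hy
      have h1 : ‖(⟨0, y⟩ : ℂ)‖ ≤ |y| := by
        have := Complex.norm_le_abs_re_add_abs_im (⟨0, y⟩ : ℂ)
        simpa using this
      refine (hexpb2 ⟨0, y⟩ hy.1).trans (Real.exp_le_exp.2 ?_)
      have hy0 : 0 < y := by linarith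
      rw [abs_of_pos hy0] at h1
      have h2 : 0 ≤ C * A₁ := by positivity
      nlinarith
    · have h1 : Real.exp |((Real.pi / p : ℝ) * (-Complex.I * ((⟨x, ρ'⟩ : ℂ) - a)) : ℂ).im| / 4 ≤ ‖sn a p ⟨x, ρ'⟩‖ := by
        refine sin_ge_exp ?_
        rw [sn_arg_re]
        have h2 : Real.pi / p * ((⟨x, ρ'⟩ : ℂ).im - a.im) = Real.pi / 2 + N * Real.pi := by
          show Real.pi / p * (ρ' - a.im) = _
          rw [hρ']
          field_simp
          ring
        rw [h2, Real.sin_add_int_mul_pi, Real.sin_pi_div_two, mul_one, ← zpow_natCast, ← zpow_mul, mul_comm, zpow_mul]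
        simp
      rw [sn_arg_im, abs_neg, abs_mul, abs_of_pos (show 0 < Real.pi / p by positivity)] at h1
      change Real.exp (Real.pi / p * |x - a.re|) / 4 ≤ _ at h1
      have hs0 : 0 < ‖sn a p ⟨x, ρ'⟩‖ := lt_of_lt_of_le (by positivity) h1
      have hs1 : sn a p ⟨x, ρ'⟩ ≠ 0 := norm_pos_iff.1 hs0
      have h2 := hb ⟨x, ρ'⟩ (show ρ < ρ' by linarith)
      unfold qt
      rw [if_neg hs1, norm_div]
      have h3 : ‖(⟨x, ρ'⟩ : ℂ)‖ ≤ |x| + |ρ'| := Complex.norm_le_abs_re_add_abs_im _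
      have h4 : (1 + ‖(⟨x, ρ'⟩ : ℂ)‖) ^ m ≤ (1 + |ρ'|) ^ m * (1 + |x|) ^ m := by
        rw [← mul_pow]
        refine pow_le_pow_left₀ (by positivity) ?_ m
        nlinarith [abs_nonneg x, abs_nonneg ρ']
      have h5 := hA₂' |x| (abs_nonneg x)
      have h6 : Real.exp (Real.pi / p * |x|) ≤ Real.exp (Real.pi / p * |x - a.re|) * Real.exp (Real.pi / p * |a.re|) := by
        rw [← Real.exp_add]
        refine Real.exp_le_exp.2 ?_
        rw [← mul_add]
        refine mul_le_mul_of_nonneg_left ?_ (by positivity)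
        have h7 : x = (x - a.re) + a.re := by ring
        calc |x| = |(x - a.re) + a.re| := by rw [← h7]
          _ ≤ _ := abs_add_le _ _
      have h7 : Real.exp (-(Real.pi / p / 2) * |x|) * Real.exp (Real.pi / p * |x|) = Real.exp (Real.pi / p / 2 * |x|) := by
        rw [← Real.exp_add]
        congr 1
        ring
      rw [div_le_iff₀ hs0]
      calc ‖J ⟨x, ρ'⟩‖ ≤ C * (1 + ‖(⟨x, ρ'⟩ : ℂ)‖) ^ m := h2
        _ ≤ C * ((1 + |ρ'|) ^ m * (1 + |x|) ^ m) := mul_le_mul_of_nonneg_left h4 hC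
        _ ≤ C * ((1 + |ρ'|) ^ m * (A₂ * Real.exp (Real.pi / p / 2 * |x|))) := by gcongr
        _ = C * ((1 + |ρ'|) ^ m * (A₂ * (Real.exp (-(Real.pi / p / 2) * |x|) * Real.exp (Real.pi / p * |x|)))) := by rw [h7]
        _ ≤ C * ((1 + |ρ'|) ^ m * (A₂ * (Real.exp (-(Real.pi / p / 2) * |x|) * (Real.exp (Real.pi / p * |x - a.re|) * Real.exp (Real.pi / p * |a.re|))))) := by
            gcongr
        _ = 4 * C * (1 + |ρ'|) ^ m * A₂ * Real.exp (Real.pi / p * |a.re|) * Real.exp (-(Real.pi / p / 2) * |x|) * (Real.exp (Real.pi / p * |x - a.re|) / 4) := by ring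
        _ ≤ 4 * C * (1 + |ρ'|) ^ m * A₂ * Real.exp (Real.pi / p * |a.re|) * Real.exp (-(Real.pi / p / 2) * |x|) * ‖sn a p ⟨x, ρ'⟩‖ := by gcongr
  -- back to `J`
  have hJ0 : ∀ z : ℂ, ρ' ≤ z.im → J z = 0 := by
    intro z hz
    by_cases h1 : sn a p z = 0
    · obtain ⟨l, rfl⟩ := sn_eq_zero hp h1
      exact h0 l (by linarith)
    · have h2 := hq z hz
      unfold qt at h2
      rw [if_neg h1] at h2
      exact (div_eq_zero_iff.1 h2).resolve_right h1
  have hconv : Convex ℝ {z : ℂ | ρ < z.im} := convex_halfSpace_im_gt ρ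
  have hmem : (⟨0, ρ' + 1⟩ : ℂ) ∈ {z : ℂ | ρ < z.im} := by
    show ρ < ρ' + 1
    linarith
  have hev : J =ᶠ[𝓝 (⟨0, ρ' + 1⟩ : ℂ)] fun _ => 0 := by
    have h1 : {z : ℂ | ρ' < z.im} ∈ 𝓝 (⟨0, ρ' + 1⟩ : ℂ) := (isOpen_lt continuous_const Complex.continuous_im).mem_nhds (by
      show ρ' < ρ' + 1
      linarith)
    filter_upwards [h1] with z hz
    exact hJ0 z (le_of_lt hz)
  exact fun z hz => (hJ.analyticOnNhd hUo).eqOn_of_preconnected_of_eventuallyEq analyticOnNhd_const hconv.isPreconnected hmem hev hz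

end Pool.Agent.H87.LU
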