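import Pool.Agent.H87.LU.Ends
import Pool.Agent.H87.JZ.Glue

/-!
# LU ChainL: the primitive along a section extends to the left inside a ball

For a section `f` over `ball c R` and a height `y`: the cells on the balls of radius `4` about `c_k = - T₁ - 5 - k + i y`, the links at `c_k`; `glue_left` (translated by `c`, so that the
bounds only depend on `R`).
-/

set_option autoImplicit false

open Topology Filter Metric

namespace Pool.Agent.H87.LU

open Pool.Agent.H87.JZ (piece leftOf glue_left)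

variable {Y : Type} [MetricSpace Y] {T : Set ℂ → Set (ℂ → Y)} {II : ℂ → Y → Y → ℂ} {T₁ : ℝ}

/-- `f` is the curve `h` in the cell `i` on the ball of radius `4` about `c₀`, with the bound `A` for `h` -/
def Rep (E : LEnd T II T₁) (f : ℂ → Y) (c₀ : ℂ) (A : ℝ) (i : E.ι) (h : ℂ → ℂ) : Prop :=
  DifferentiableOn ℂ h (ball c₀ 4) ∧ ∀ t ∈ ball c₀ 4, (t, h t) ∈ E.Cs i ∧ f t = E.Φ i t (h t) ∧ ‖h t‖ ≤ A

/-- the point number `k` -/
def ck (T₁ y : ℝ) (k : ℕ) : ℂ := ⟨-T₁ - 5 - k, y⟩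

theorem ck_succ (T₁ y : ℝ) (k : ℕ) : dist (ck T₁ y k) (ck T₁ y (k + 1)) = 1 := by
  rw [dist_eq_norm]
  have h1 : ck T₁ y k - ck T₁ y (k + 1) = 1 := by
    apply Complex.ext
    · show (-T₁ - 5 - (k : ℝ)) - (-T₁ - 5 - ((k + 1 : ℕ) : ℝ)) = 1
      push_cast
      ring
    · exact sub_self y
  rw [h1, norm_one]

/-- a point of a ball about a point of the imaginary axis, moved towards the axis -/
theorem norm_le_of_re {c t w : ℂ} (hc : c.re = 0) (hre : |w.re| ≤ |t.re|) : ‖w - c‖ ≤ ‖t - c‖ + |w.im - t.im| := by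
  have h1 : ‖(⟨w.re, t.im⟩ : ℂ) - c‖ ≤ ‖t - c‖ := by
    have h2 : ‖(⟨w.re, t.im⟩ : ℂ) - c‖ ^ 2 ≤ ‖t - c‖ ^ 2 := by
      rw [Complex.sq_norm, Complex.sq_norm, Complex.normSq_apply, Complex.normSq_apply, Complex.sub_re, Complex.sub_re, Complex.sub_im, Complex.sub_im,
        hc, sub_zero, sub_zero]
      have h3 := abs_mul_abs_self w.re
      have h4 := abs_mul_abs_self t.re
      have h5 := mul_self_le_mul_self (abs_nonneg w.re) hre
      show w.re * w.re + _ ≤ _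
      linarith
    exact (pow_le_pow_iff_left₀ (norm_nonneg _) (norm_nonneg _) two_ne_zero).1 h2
  have h6 : w - c = ((⟨w.re, t.im⟩ : ℂ) - c) + ((w.im - t.im : ℝ) : ℂ) * Complex.I := by
    apply Complex.ext
    · simp
    · simp
  rw [h6]
  refine (norm_add_le _ _).trans ?_
  rw [norm_mul, Complex.norm_I, mul_one, Complex.norm_real, Real.norm_eq_abs]
  linarith

theorem LEnd.chain (E : LEnd T II T₁) (hT₁ : 0 < T₁) : ∃ (δ A : ℝ) (m : ℕ), 0 < δ ∧ δ ≤ 1 ∧ δ ≤ E.ε ∧ 0 ≤ A ∧ ∀ (c : ℂ) (R : ℝ), c.re = 0 → E.r₁ + 3 < R →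
    ∀ f ∈ T (ball c R), ∀ y : ℝ, ck T₁ y 0 ∈ ball c (R - (E.r₁ + 2)) →
    ∃ (i : E.ι) (h Φ : ℂ → ℂ), Rep E f (ck T₁ y 0) (E.C * (1 + R) ^ E.k) i h ∧
      DifferentiableOn ℂ Φ {t | t ∈ ball c (R - (E.r₁ + 3)) ∧ t.re < -T₁ - 4 ∧ |t.im - y| < δ} ∧
      (∀ t ∈ ball c (R - (E.r₁ + 3)), -T₁ - 6 < t.re → t.re < -T₁ - 4 → |t.im - y| < δ → Φ t = E.P i t (h t)) ∧
      ∀ t ∈ ball c (R - (E.r₁ + 3)), t.re < -T₁ - 4 → |t.im - y| < δ → ‖Φ t‖ ≤ A * (1 + R) ^ m := by
  have hC := E.C_nonneg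
  have hr := E.r₁_ge
  set B₀ : ℝ := E.C * (3 + 2 * E.C) + E.C * E.C with hB₀
  have hB₀0 : 0 ≤ B₀ := by positivity
  refine ⟨min E.ε 1, B₀ * (1 + (|-T₁ - 5| + 1) / 1), E.k + 1 + 1, lt_min E.ε_pos one_pos, min_le_right _ _, min_le_left _ _, by positivity,
    fun c R hc hR f hf y hy => ?_⟩
  set δ : ℝ := min E.ε 1 with hδ
  have hδ0 : 0 < δ := lt_min E.ε_pos one_pos
  have hδ1 : δ ≤ 1 := min_le_right _ _
  have hδε : δ ≤ E.ε := min_le_left _ _
  have hR1 : 1 ≤ 1 + R := by linarith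
  set Ak : ℝ := E.C * (1 + R) ^ E.k with hAk
  have hAk0 : 0 ≤ Ak := by positivity
  -- the representations
  have hrep : ∀ k : ℕ, ck T₁ y k ∈ ball c (R - E.r₁) → ∃ (i : E.ι) (h : ℂ → ℂ), Rep E f (ck T₁ y k) Ak i h := by
    intro k hk
    obtain ⟨i, h, h1, h2⟩ := E.cell c R hc f hf (ck T₁ y k) hk (by
      show -T₁ - 5 - (k : ℝ) ≤ -T₁
      have : (0 : ℝ) ≤ k := Nat.cast_nonneg k
      linarith)
    exact ⟨i, h, h1, h2⟩
  obtain ⟨i₀, h₀, hi₀⟩ := hrep 0 (ball_subset_ball (by linarith) hy)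
  -- the local primitives
  have hp : ∀ k : ℕ, ∃ (i : E.ι) (h : ℂ → ℂ), (ck T₁ y k ∈ ball c (R - E.r₁) → Rep E f (ck T₁ y k) Ak i h) ∧ (k = 0 → i = i₀ ∧ h = h₀ ∧ Rep E f (ck T₁ y 0) Ak i h) := by
    intro k
    rcases Nat.eq_zero_or_pos k with h1 | h1
    · subst h1
      exact ⟨i₀, h₀, fun _ => hi₀, fun _ => ⟨rfl, rfl, hi₀⟩⟩
    · by_cases h2 : ck T₁ y k ∈ ball c (R - E.r₁)
      · obtain ⟨i, h, h3⟩ := hrep k h2
        exact ⟨i, h, fun _ => h3, fun h4 => absurd h4 (by omega)⟩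
      · exact ⟨i₀, h₀, fun h3 => absurd h3 h2, fun h4 => absurd h4 (by omega)⟩
  choose i h hih hih0 using hp
  -- the links
  have hlink : ∀ k : ℕ, ∃ D : ℂ → ℂ, ck T₁ y k ∈ ball c (R - E.r₁) → ck T₁ y (k + 1) ∈ ball c (R - E.r₁) →
      DifferentiableOn ℂ D (Stp (ck T₁ y k) E.ε) ∧ (∀ t ∈ Stp (ck T₁ y k) E.ε, ‖D t‖ ≤ E.C * (1 + ‖t - ck T₁ y k‖ + Ak + Ak)) ∧
      ∀ᶠ t in 𝓝 (ck T₁ y k), E.P (i k) t (h k t) - E.P (i (k + 1)) t (h (k + 1) t) = D t := by
    intro k
    by_cases h1 : ck T₁ y k ∈ ball c (R - E.r₁) ∧ ck T₁ y (k + 1) ∈ ball c (R - E.r₁)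
    · have r1 := hih k h1.1
      have r2 := hih (k + 1) h1.2
      have m1 : ck T₁ y k ∈ ball (ck T₁ y k) 4 := mem_ball_self (by norm_num)
      have m2 : ck T₁ y k ∈ ball (ck T₁ y (k + 1)) 4 := by
        rw [mem_ball, ck_succ]
        norm_num
      obtain ⟨D, hD1, hD2, hD3⟩ := E.link (i k) (i (k + 1)) (ck T₁ y k) (h k (ck T₁ y k)) (h (k + 1) (ck T₁ y k)) (by
          show -T₁ - 5 - (k : ℝ) ≤ -T₁
          have : (0 : ℝ) ≤ k := Nat.cast_nonneg k
          linarith) (E.sub _ (r1.2 _ m1).1) (E.sub _ (r2.2 _ m2).1) (by rw [← (r1.2 _ m1).2.1, ← (r2.2 _ m2).2.1])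
      refine ⟨D, fun _ _ => ⟨hD1, fun t ht => (hD2 t ht).trans ?_, ?_⟩⟩
      · refine mul_le_mul_of_nonneg_left ?_ hC
        linarith [(r1.2 _ m1).2.2, (r2.2 _ m2).2.2]
      · refine hD3 (h k) (h (k + 1)) (r1.1.analyticAt (isOpen_ball.mem_nhds m1)) (r2.1.analyticAt (isOpen_ball.mem_nhds m2)) rfl rfl ?_
        filter_upwards [isOpen_ball.mem_nhds m1, isOpen_ball.mem_nhds m2] with t ha hb
        exact ⟨E.sub _ (r1.2 t ha).1, E.sub _ (r2.2 t hb).1, by rw [← (r1.2 t ha).2.1, ← (r2.2 t hb).2.1]⟩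
    · refine ⟨fun _ => 0, fun h2 h3 => absurd ⟨h2, h3⟩ h1⟩
  choose D hD using hlink
  set V : Set ℂ := ball c (R - (E.r₁ + 3)) with hV
  -- translated data
  set S' : Set ℂ := {s | |(s + c).im - y| < δ ∧ s + c ∈ V} with hS'
  have hS'o : IsOpen S' := by
    have hct : Continuous fun s : ℂ => s + c := by fun_prop
    have h1 : IsOpen {s : ℂ | |(s + c).im - y| < δ} := isOpen_lt ((Complex.continuous_im.comp hct).sub continuous_const).abs continuous_const
    exact h1.inter (isOpen_ball.preimage hct)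
  have hsre : ∀ s : ℂ, (s + c).re = s.re := fun s => by rw [Complex.add_re, hc, add_zero]
  have hckre : ∀ k : ℕ, (ck T₁ y k).re = -T₁ - 5 - k := fun k => rfl
  have hckim : ∀ k : ℕ, (ck T₁ y k).im = y := fun k => rfl
  -- the centers are in the ball
  have hgood : ∀ (k : ℕ) (s : ℂ), s ∈ S' → s.re < -T₁ - 5 - ((k : ℝ) - 1) * 1 → ck T₁ y k ∈ ball c (R - E.r₁) ∧ ck T₁ y (k + 1) ∈ ball c (R - E.r₁) := by
    intro k s hs hsk
    have h1 : ‖s + c - c‖ < R - (E.r₁ + 3) := by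
      have := hs.2
      rwa [hV, mem_ball, dist_eq_norm] at this
    have h2 : ∀ j : ℕ, (j : ℝ) ≤ k + 1 → ‖ck T₁ y j - c‖ < R - E.r₁ := by
      intro j hj
      have h3 : |(ck T₁ y j + 2).re| ≤ |(s + c).re| := by
        have hk0 : (0 : ℝ) ≤ k := Nat.cast_nonneg k
        have hj0 : (0 : ℝ) ≤ j := Nat.cast_nonneg j
        rw [hsre, Complex.add_re, hckre]
        have h4 : (-T₁ - 5 - (j : ℝ) + (2 : ℂ).re) = -(T₁ + 3 + j) := by
          norm_num
          ring
        rw [h4, abs_neg, abs_of_pos (by linarith)]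
        have h5 : -s.re ≤ |s.re| := neg_le_abs _
        linarith
      have h4 := norm_le_of_re (c := c) (t := s + c) (w := ck T₁ y j + 2) hc h3
      have h5 : (ck T₁ y j + 2).im = y := by
        rw [Complex.add_im, hckim]
        norm_num
      rw [h5, abs_sub_comm] at h4
      have h6 : |(s + c).im - y| < δ := hs.1
      have h7 : ck T₁ y j - c = (ck T₁ y j + 2 - c) - 2 := by ring
      rw [h7]
      refine (norm_sub_le _ _).trans_lt ?_
      have h8 : ‖(2 : ℂ)‖ = 2 := by norm_num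
      rw [h8]
      linarith
    constructor
    · rw [mem_ball, dist_eq_norm]
      exact h2 k (by linarith)
    · rw [mem_ball, dist_eq_norm]
      exact h2 (k + 1) (by push_cast; linarith)
  have hpiece : ∀ (k : ℕ) (s : ℂ), s ∈ piece S' (-T₁ - 5) 1 k → ck T₁ y k ∈ ball c (R - E.r₁) ∧ ck T₁ y (k + 1) ∈ ball c (R - E.r₁) := by
    rintro k s ⟨h1, -, h3⟩
    exact hgood k s h1 (by linarith)
  have hleft : ∀ (k : ℕ) (s : ℂ), s ∈ leftOf S' (-T₁ - 5) 1 k → ck T₁ y k ∈ ball c (R - E.r₁) ∧ ck T₁ y (k + 1) ∈ ball c (R - E.r₁) := by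
    rintro k s ⟨h1, h3⟩
    exact hgood k s h1 (by linarith)
  have hdist : ∀ (k : ℕ) (s : ℂ), s ∈ piece S' (-T₁ - 5) 1 k → s + c ∈ ball (ck T₁ y k) 4 := by
    rintro k s ⟨h1, h2, h3⟩
    rw [mem_ball, dist_eq_norm]
    refine lt_of_le_of_lt (Complex.norm_le_abs_re_add_abs_im _) ?_
    rw [Complex.sub_re, Complex.sub_im, hckre, hckim, hsre]
    have h4 : |s.re - (-T₁ - 5 - k)| < 1 := by
      rw [abs_lt]
      constructor <;> linarith
    have h5 : |(s + c).im - y| < δ := h1.1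
    linarith
  have hstp : ∀ (k : ℕ) (s : ℂ), s ∈ leftOf S' (-T₁ - 5) 1 k → s + c ∈ Stp (ck T₁ y k) E.ε := by
    rintro k s ⟨h1, h2⟩
    refine ⟨?_, ?_⟩
    · rw [hsre, hckre]
      linarith [E.ε_pos]
    · rw [hckim]
      have h5 : |(s + c).im - y| < δ := h1.1
      linarith
  have hgl := glue_left hS'o (X₀ := -T₁ - 5) (r := 1) (B := B₀ * (1 + R) ^ (E.k + 1)) (m := 0) one_pos
    (p := fun k s => E.P (i k) (s + c) (h k (s + c))) (L := fun k s => D k (s + c)) ?_ ?_ ?_ ?_ ?_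
  · obtain ⟨Φ, hΦ1, hΦ2, -, hΦ4⟩ := hgl
    have hS'mem : ∀ t : ℂ, t ∈ V → |t.im - y| < δ → t - c ∈ S' := by
      intro t ht1 ht2
      refine ⟨?_, ?_⟩
      · rw [sub_add_cancel]
        exact ht2
      · rw [sub_add_cancel]
        exact ht1
    have htre : ∀ t : ℂ, (t - c).re = t.re := fun t => by rw [Complex.sub_re, hc, sub_zero]
    refine ⟨i₀, h₀, fun t => Φ (t - c), hi₀, ?_, ?_, ?_⟩
    · refine hΦ1.comp ((differentiable_id.sub_const c).differentiableOn) ?_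
      rintro t ⟨h1, h2, h3⟩
      refine ⟨hS'mem t h1 h3, ?_⟩
      show (t - c).re < -T₁ - 5 + 1
      rw [htre]
      linarith
    · intro t h1 h2 h3 h4
      have h5 := hΦ2 (t - c) ⟨hS'mem t h1 h4, by rw [htre]; push_cast; linarith, by rw [htre]; push_cast; linarith⟩
      have h6 := hih0 0 rfl
      simp only [sub_add_cancel] at h5
      rw [h6.1, h6.2.1] at h5
      exact h5
    · intro t h1 h2 h3
      have h5 := hΦ4 (t - c) (hS'mem t h1 h3) (by rw [htre]; linarith)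
      have h6 : ‖t - c‖ ≤ R := by
        rw [hV, mem_ball, dist_eq_norm] at h1
        linarith
      refine h5.trans ?_
      have h7 : |B₀ * (1 + R) ^ (E.k + 1)| = B₀ * (1 + R) ^ (E.k + 1) := abs_of_nonneg (by positivity)
      rw [h7]
      calc B₀ * (1 + R) ^ (E.k + 1) * (1 + (|-T₁ - 5| + 1) / 1) * (1 + ‖t - c‖) ^ (0 + 1)
          ≤ B₀ * (1 + R) ^ (E.k + 1) * (1 + (|-T₁ - 5| + 1) / 1) * (1 + R) ^ (0 + 1) := by gcongr
        _ = B₀ * (1 + (|-T₁ - 5| + 1) / 1) * (1 + R) ^ (E.k + 1 + 1) := by ring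
  · intro k
    have hsub : ∀ s ∈ piece S' (-T₁ - 5) 1 k, s + c ∈ ball (ck T₁ y k) 4 := hdist k
    intro s hs
    have r1 := hih k (hpiece k s hs).1
    have h1 := E.P_an (i k) (ball (ck T₁ y k) 4) (h k) isOpen_ball r1.1 fun t ht => E.sub _ (r1.2 t ht).1
    have h2 : DifferentiableAt ℂ (fun t => E.P (i k) t (h k t)) (s + c) := h1.differentiableAt (isOpen_ball.mem_nhds (hsub s hs))
    exact (h2.comp s (differentiableAt_id.add_const c)).differentiableWithinAt
  · intro k s hs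
    obtain ⟨g1, g2⟩ := hleft k s hs
    have hopen : IsOpen (Stp (ck T₁ y k) E.ε) := by
      unfold Stp
      exact (isOpen_lt Complex.continuous_re continuous_const).inter (isOpen_lt (Complex.continuous_im.sub continuous_const).abs continuous_const)
    have h2 : DifferentiableAt ℂ (D k) (s + c) := (hD k g1 g2).1.differentiableAt (hopen.mem_nhds (hstp k s hs))
    exact (h2.comp s (differentiableAt_id.add_const c)).differentiableWithinAt
  · intro k s hs1 hs2
    obtain ⟨g1, g2⟩ := hpiece k s hs1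
    have r1 := hih k g1
    have r2 := hih (k + 1) g2
    obtain ⟨hD1, -, hD3⟩ := hD k g1 g2
    -- the rectangle
    set Q : Set ℂ := {t : ℂ | t.re < -T₁ - 5 - k + δ} ∩ ({t : ℂ | -T₁ - 5 - k - 1 < t.re} ∩ ({t : ℂ | t.im < y + δ} ∩ {t : ℂ | y - δ < t.im})) with hQ
    have hQo : IsOpen Q := (isOpen_lt Complex.continuous_re continuous_const).inter ((isOpen_lt continuous_const Complex.continuous_re).inter
      ((isOpen_lt Complex.continuous_im continuous_const).inter (isOpen_lt continuous_const Complex.continuous_im)))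
    have hQc : Convex ℝ Q := (convex_halfSpace_re_lt _).inter ((convex_halfSpace_re_gt _).inter ((convex_halfSpace_im_lt _).inter (convex_halfSpace_im_gt _)))
    have hQ1 : Q ⊆ ball (ck T₁ y k) 4 := by
      rintro t ⟨q1, q2, q3, q4⟩
      have q1 : t.re < -T₁ - 5 - k + δ := q1
      have q2 : -T₁ - 5 - k - 1 < t.re := q2
      have q3 : t.im < y + δ := q3
      have q4 : y - δ < t.im := q4
      rw [mem_ball, dist_eq_norm]
      refine lt_of_le_of_lt (Complex.norm_le_abs_re_add_abs_im _) ?_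
      rw [Complex.sub_re, Complex.sub_im, hckre, hckim]
      have h4 : |t.re - (-T₁ - 5 - k)| ≤ 1 := by
        rw [abs_le]
        constructor <;> linarith
      have h5 : |t.im - y| ≤ 1 := by
        rw [abs_le]
        constructor <;> linarith
      linarith
    have hQ2 : Q ⊆ ball (ck T₁ y (k + 1)) 4 := by
      rintro t ⟨q1, q2, q3, q4⟩
      have q1 : t.re < -T₁ - 5 - k + δ := q1
      have q2 : -T₁ - 5 - k - 1 < t.re := q2
      have q3 : t.im < y + δ := q3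
      have q4 : y - δ < t.im := q4
      rw [mem_ball, dist_eq_norm]
      refine lt_of_le_of_lt (Complex.norm_le_abs_re_add_abs_im _) ?_
      rw [Complex.sub_re, Complex.sub_im, hckre, hckim]
      push_cast
      have h4 : |t.re - (-T₁ - 5 - (k + 1))| ≤ 2 := by
        rw [abs_le]
        constructor <;> linarith
      have h5 : |t.im - y| ≤ 1 := by
        rw [abs_le]
        constructor <;> linarith
      linarith
    have hQ3 : Q ⊆ Stp (ck T₁ y k) E.ε := by
      rintro t ⟨q1, q2, q3, q4⟩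
      have q1 : t.re < -T₁ - 5 - k + δ := q1
      have q3 : t.im < y + δ := q3
      have q4 : y - δ < t.im := q4
      refine ⟨?_, ?_⟩
      · rw [hckre]
        linarith
      · rw [hckim, abs_lt]
        constructor <;> linarith
    have hd1 : DifferentiableOn ℂ (fun t => E.P (i k) t (h k t) - E.P (i (k + 1)) t (h (k + 1) t)) Q := by
      refine DifferentiableOn.sub ?_ ?_
      · exact (E.P_an (i k) (ball (ck T₁ y k) 4) (h k) isOpen_ball r1.1 fun t ht => E.sub _ (r1.2 t ht).1).mono hQ1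
      · exact (E.P_an (i (k + 1)) (ball (ck T₁ y (k + 1)) 4) (h (k + 1)) isOpen_ball r2.1 fun t ht => E.sub _ (r2.2 t ht).1).mono hQ2
    have hcQ : ck T₁ y k ∈ Q := ⟨by show -T₁ - 5 - (k : ℝ) < _; linarith, by show _ < -T₁ - 5 - (k : ℝ); linarith, by show y < _; linarith, by show _ < y; linarith⟩
    have hsQ : s + c ∈ Q := by
      obtain ⟨s1, s2, s3⟩ := hs1
      obtain ⟨-, s4, s5⟩ := hs2
      have s6 := abs_lt.1 s1.1
      push_cast at s5
      refine ⟨?_, ?_, ?_, ?_⟩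
      · show (s + c).re < _
        rw [hsre]
        linarith
      · show _ < (s + c).re
        rw [hsre]
        linarith
      · show (s + c).im < _
        linarith [s6.2]
      · show _ < (s + c).im
        linarith [s6.1]
    exact (hd1.analyticOnNhd hQo).eqOn_of_preconnected_of_eventuallyEq ((hD1.mono hQ3).analyticOnNhd hQo) hQc.isPreconnected hcQ hD3 hsQ
  · intro k s hs
    have r1 := hih k (hpiece k s hs).1
    obtain ⟨a1, a2, a3⟩ := r1.2 (s + c) (hdist k s hs)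
    have h1 := E.P_le (i k) (s + c) (h k (s + c)) (E.sub _ a1)
    refine h1.trans ?_
    rw [pow_zero, mul_one]
    calc E.C * ‖h k (s + c)‖ ≤ E.C * Ak := mul_le_mul_of_nonneg_left a3 hC
      _ = E.C * E.C * (1 + R) ^ E.k := by rw [hAk]; ring
      _ ≤ B₀ * (1 + R) ^ (E.k + 1) := by
          refine mul_le_mul ?_ (pow_le_pow_right₀ hR1 (Nat.le_succ _)) (by positivity) hB₀0
          rw [hB₀]
          have : 0 ≤ E.C * (3 + 2 * E.C) := by positivity
          linarith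
  · intro k s hs
    obtain ⟨g1, g2⟩ := hleft k s hs
    have h1 := (hD k g1 g2).2.1 (s + c) (hstp k s hs)
    refine h1.trans ?_
    rw [pow_zero, mul_one]
    have h2 : ‖s + c - ck T₁ y k‖ ≤ 2 * R := by
      have h3 : s + c - ck T₁ y k = (s + c - c) - (ck T₁ y k - c) := by ring
      rw [h3]
      refine (norm_sub_le _ _).trans ?_
      have h4 : ‖s + c - c‖ < R - (E.r₁ + 3) := by
        have := hs.1.2
        rwa [hV, mem_ball, dist_eq_norm] at this
      have h5 : ‖ck T₁ y k - c‖ < R - E.r₁ := by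
        rwa [mem_ball, dist_eq_norm] at g1
      linarith
    have h3 : 1 + R ≤ (1 + R) ^ (E.k + 1) := by
      calc 1 + R = (1 + R) ^ 1 := (pow_one _).symm
        _ ≤ (1 + R) ^ (E.k + 1) := pow_le_pow_right₀ hR1 (by omega)
    have h4 : (1 + R) ^ E.k ≤ (1 + R) ^ (E.k + 1) := pow_le_pow_right₀ hR1 (Nat.le_succ _)
    calc E.C * (1 + ‖s + c - ck T₁ y k‖ + Ak + Ak) ≤ E.C * (1 + 2 * R + Ak + Ak) := by gcongr
      _ ≤ E.C * (3 * (1 + R) ^ (E.k + 1) + 2 * E.C * (1 + R) ^ (E.k + 1)) := by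
          refine mul_le_mul_of_nonneg_left ?_ hC
          rw [hAk]
          have h5 : E.C * (1 + R) ^ E.k ≤ E.C * (1 + R) ^ (E.k + 1) := mul_le_mul_of_nonneg_left h4 hC
          nlinarith
      _ = E.C * (3 + 2 * E.C) * (1 + R) ^ (E.k + 1) := by ring
      _ ≤ B₀ * (1 + R) ^ (E.k + 1) := by
          refine mul_le_mul_of_nonneg_right ?_ (by positivity)
          rw [hB₀]
          have : 0 ≤ E.C * E.C := by positivity
          linarith

end Pool.Agent.H87.LU
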