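import Mathlib

/-!
# LU Defs: the abstract dynamical situation over `ℂ^*` (project LOG-U)

`u = exp z`, `z ∈ ℂ`.  `S Ω` is a family of maps `Ω \ B → Y` (maps `ℂ → Y` whose values outside `Ω` and on `B` do not matter): limits of holomorphic sections over
(neighbourhoods of compact subsets of) `Ω`.  `B` is a discrete set (bad values), contained in the strip `|Re z| < W`, invariant under `z ↦ z + i p`.  Everything is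
invariant under the translation by `i p` (`p = 2 π m`).  `II z y y'` is the integral of `alpha / dz` from `y` to `y'` along a short path in the fibre over `z`;
`Zr z y`: the form vanishes at the point `y` of the fibre over `z`.  Nothing is said about the ends `|Re z| > W` except in `J`: the function `J` exists on balls.
-/

set_option autoImplicit false

open Topology Filter Metric

namespace Pool.Agent.H87.LU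

/-- the points of distance at least `δ` from `B` -/
def Gd (B : Set ℂ) (δ : ℝ) : Set ℂ := {z | ∀ b ∈ B, δ ≤ ‖z - b‖}

/-- the half plane `{ρ < σ Im z}`, `σ = ±1` -/
def HP (σ ρ : ℝ) : Set ℂ := {z | ρ < σ * z.im}

/-- the box `{|Re z| ≤ W, |Im z - y| ≤ R}` -/
def Bx (W y R : ℝ) : Set ℂ := {z | |z.re| ≤ W ∧ |z.im - y| ≤ R}

/-- the domain translated by `- i p l` -/
def Sh (p : ℝ) (l : ℤ) (Ω : Set ℂ) : Set ℂ := {z | z + p * l * Complex.I ∈ Ω}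

/-- The abstract situation.  All domains are open and convex. -/
structure UDyn {Y : Type} [MetricSpace Y] (K : Set Y) (p : ℝ) (B : Set ℂ) (δ W : ℝ) (S : Set ℂ → Set (ℂ → Y))
    (Zr : ℂ → Y → Prop) (II : ℂ → Y → Y → ℂ) : Prop where
  compact : IsCompact K
  p_pos : 0 < p
  δ_pos : 0 < δ
  W_pos : 0 < W
  B_inv : ∀ b ∈ B, ∀ l : ℤ, b + p * l * Complex.I ∈ B
  B_sep : ∀ b ∈ B, ∀ b' ∈ B, b ≠ b' → 8 * δ ≤ ‖b - b'‖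
  B_re : ∀ b ∈ B, |b.re| + 4 * δ ≤ W
  anti : ∀ Ω Ω' : Set ℂ, IsOpen Ω → Convex ℝ Ω → IsOpen Ω' → Convex ℝ Ω' → Ω' ⊆ Ω → S Ω ⊆ S Ω'
  mem : ∀ Ω : Set ℂ, IsOpen Ω → Convex ℝ Ω → ∀ f ∈ S Ω, ∀ z ∈ Ω, z ∉ B → f z ∈ K
  lip : ∀ δ' R : ℝ, 0 < δ' → ∃ L : ℝ, 0 < L ∧ ∀ Ω : Set ℂ, IsOpen Ω → Convex ℝ Ω → ∀ f ∈ S Ω, ∀ z ∈ Gd B δ', |z.re| ≤ R → closedBall z δ' ⊆ Ω →
    ∀ w ∈ closedBall z (δ' / 2), dist (f z) (f w) ≤ L * ‖z - w‖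
  trans : ∀ Ω : Set ℂ, IsOpen Ω → Convex ℝ Ω → ∀ f ∈ S Ω, ∀ l : ℤ, (fun z => f (z + p * l * Complex.I)) ∈ S (Sh p l Ω)
  lim : ∀ (𝒰 : Ultrafilter ℕ) (Ω : ℕ → Set ℂ) (F : ℕ → ℂ → Y) (f : ℂ → Y), (∀ n, IsOpen (Ω n) ∧ Convex ℝ (Ω n)) →
    (∀ R : ℝ, ∀ᶠ n in (𝒰 : Filter ℕ), ball 0 R ⊆ Ω n) → (∀ᶠ n in (𝒰 : Filter ℕ), F n ∈ S (Ω n)) →
    (∀ z, z ∉ B → Tendsto (fun n => F n z) 𝒰 (𝓝 (f z))) → f ∈ S Set.univ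
  uniq : ∀ Ω : Set ℂ, IsOpen Ω → Convex ℝ Ω → ∀ f ∈ S Ω, ∀ g ∈ S Ω, ∀ z₀ ∈ Ω, z₀ ∉ B → (∃ᶠ z in 𝓝[≠] z₀, f z = g z) → ∀ z ∈ Ω, z ∉ B → f z = g z
  Z_inv : ∀ z y, Zr (z + p * Complex.I) y ↔ Zr z y
  Z_lim : ∀ (𝒰 : Ultrafilter ℕ) (Ω : ℕ → Set ℂ) (F : ℕ → ℂ → Y), ∀ f ∈ S Set.univ, (∀ n, IsOpen (Ω n) ∧ Convex ℝ (Ω n)) →
    (∀ R : ℝ, ∀ᶠ n in (𝒰 : Filter ℕ), ball 0 R ⊆ Ω n) → (∀ᶠ n in (𝒰 : Filter ℕ), F n ∈ S (Ω n)) →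
    (∀ z, z ∉ B → Tendsto (fun n => F n z) 𝒰 (𝓝 (f z))) → ∀ z ∈ Gd B (2 * δ), |z.re| ≤ W → (∀ᶠ n in (𝒰 : Filter ℕ), Zr z (F n z)) → Zr z (f z)
  II_inv : ∀ z y y', II (z + p * Complex.I) y y' = II z y y'
  near : ∀ (𝒰 : Ultrafilter ℕ) (Ω : ℕ → Set ℂ) (F G : ℕ → ℂ → Y) (w : ℕ → ℂ), ∀ f ∈ S Set.univ, (∀ n, IsOpen (Ω n) ∧ Convex ℝ (Ω n)) →
    (∀ R : ℝ, ∀ᶠ n in (𝒰 : Filter ℕ), ball 0 R ⊆ Ω n) → (∀ᶠ n in (𝒰 : Filter ℕ), F n ∈ S (Ω n) ∧ G n ∈ S (Ω n)) →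
    (∀ z, z ∉ B → Tendsto (fun n => F n z) 𝒰 (𝓝 (f z))) → (∀ z, z ∉ B → Tendsto (fun n => G n z) 𝒰 (𝓝 (f z))) →
    ∀ z ∈ Gd B (2 * δ), |z.re| ≤ W → Tendsto w 𝒰 (𝓝 z) →
    (∀ᶠ n in (𝒰 : Filter ℕ), w n ∈ Gd B (2 * δ) ∧ |(w n).re| ≤ W ∧ F n (w n) ≠ G n (w n) ∧ II (w n) (F n (w n)) (G n (w n)) = 0) → Zr z (f z)
  iso : ∀ e ∈ S Set.univ, (∀ z ∈ Gd B (2 * δ), |z.re| ≤ W → Zr z (e z)) → ∃ (z₀ : ℂ) (r ε : ℝ), 0 < r ∧ 0 < ε ∧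
    ball z₀ r ⊆ Gd B (2 * δ) ∩ {z | |z.re| ≤ W} ∧
    ∀ Ω : Set ℂ, IsOpen Ω → Convex ℝ Ω → ball z₀ r ⊆ Ω → ∀ g ∈ S Ω, ∀ z ∈ ball z₀ r, dist (g z) (e z) < ε → (II z (e z) (g z) = 0 ∨ Zr z (g z)) → g z = e z
  J : ∃ (ε₀ r₁ C : ℝ) (k : ℕ) (a : ℂ), 0 < ε₀ ∧ 0 < r₁ ∧ 0 ≤ C ∧ ∀ (c : ℂ) (R : ℝ), c.re = 0 → r₁ < R → ∀ f ∈ S (ball c R), ∀ g ∈ S (ball c R),
    (∀ z ∈ ball c R, z ∈ Gd B δ → |z.re| ≤ W → dist (f z) (g z) ≤ ε₀) →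
    ∃ J : ℂ → ℂ, DifferentiableOn ℂ J (ball c (R - r₁)) ∧ (∀ z ∈ ball c (R - r₁), ‖J z‖ ≤ C * (1 + R) ^ k) ∧
      (∀ z ∈ ball c (R - r₁), z ∈ Gd B (2 * δ) → |z.re| < W → J z = II z (f z) (g z)) ∧
      ∀ l : ℤ, a + p * l * Complex.I ∈ ball c (R - r₁) → J (a + p * l * Complex.I) = 0

variable {Y : Type} [MetricSpace Y] {K : Set Y} {p : ℝ} {B : Set ℂ} {δ W : ℝ} {S : Set ℂ → Set (ℂ → Y)}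
    {Zr : ℂ → Y → Prop} {II : ℂ → Y → Y → ℂ}

/-- the members of `S` over `ℂ` inside `Zr` -/
def ZS {Y : Type} (B : Set ℂ) (δ W : ℝ) (S : Set ℂ → Set (ℂ → Y)) (Zr : ℂ → Y → Prop) : Set (ℂ → Y) :=
  {e | e ∈ S Set.univ ∧ ∀ z ∈ Gd B (2 * δ), |z.re| ≤ W → Zr z (e z)}

/-- the two maps agree on `Ω \ B` -/
def AgO {Y : Type} (B Ω : Set ℂ) (f g : ℂ → Y) : Prop := ∀ z ∈ Ω, z ∉ B → f z = g z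

end Pool.Agent.H87.LU
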