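import Pool.Agent.H87.LU.Half

/-!
# LU Fin: `S ℂ` is finite (port of EL DyF)
-/

set_option autoImplicit false

open Topology Filter Metric

namespace Pool.Agent.H87.LU

variable {Y : Type} [MetricSpace Y] {K : Set Y} {p : ℝ} {B : Set ℂ} {δ W : ℝ} {S : Set ℂ → Set (ℂ → Y)}
    {Zr : ℂ → Y → Prop} {II : ℂ → Y → Y → ℂ}

/-- agreement on a half plane implies agreement -/
theorem UDyn.ag_of_HP (h : UDyn K p B δ W S Zr II) {Ω : Set ℂ} (hΩ : IsOpen Ω) (hΩc : Convex ℝ Ω) {f g : ℂ → Y} (hf : f ∈ S Ω) (hg : g ∈ S Ω) {σ ρ : ℝ}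
    (hσ : σ = 1 ∨ σ = -1) (hsub : HP σ ρ ⊆ Ω) (hag : AgO B (HP σ ρ) f g) : AgO B Ω f g := by
  have hδ := h.δ_pos
  set z₀ : ℂ := ((W : ℝ) : ℂ) + ctr σ ρ 1 with hz₀
  have hre : z₀.re = W := by rw [hz₀, Complex.add_re, ctr_re, Complex.ofReal_re, add_zero]
  have him : σ * z₀.im = ρ + 1 := by
    rw [hz₀, Complex.add_im, ctr_im, Complex.ofReal_im, zero_add, ← mul_assoc, sq_one hσ, one_mul]
  have hz₀H : z₀ ∈ HP σ ρ := by
    show ρ < σ * z₀.im
    linarith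
  refine h.uniq Ω hΩ hΩc f hf g hg z₀ (hsub hz₀H) (gd_notMem (by linarith) (h.right_mem (by rw [hre]; linarith))) ?_
  have h1 : ∀ᶠ z in 𝓝 z₀, f z = g z := by
    filter_upwards [(isOpen_HP σ ρ).mem_nhds hz₀H, ball_mem_nhds z₀ hδ] with z hz1 hz2
    refine hag z hz1 (gd_notMem (show 0 < 2 * δ by linarith) (h.right_mem ?_))
    rw [mem_ball, dist_eq_norm] at hz2
    have h2 := (Complex.abs_re_le_norm (z - z₀)).trans_lt hz2
    rw [Complex.sub_re, hre] at h2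
    linarith [(abs_lt.1 h2).1]
  exact (h1.filter_mono nhdsWithin_le_nhds).frequently

theorem UDyn.two (h : UDyn K p B δ W S Zr II)
    (hno : ¬ ∃ 𝓕 : Set (ℂ → Y), 𝓕.Finite ∧ 𝓕 ⊆ S Set.univ ∧ ∀ f ∈ S Set.univ, ∃ g ∈ 𝓕, AgO B Set.univ f g) (R ε : ℝ) (hε : 0 < ε) :
    ∃ f ∈ S Set.univ, ∃ g ∈ S Set.univ, ¬ AgO B Set.univ f g ∧ ∀ z ∈ Gd B δ, ‖z‖ ≤ R → dist (f z) (g z) < ε := by
  let r : Setoid (S Set.univ) :=
    { r := fun f g => AgO B Set.univ f.1 g.1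
      iseqv := ⟨fun f z _ _ => rfl, fun hfg z hz hz' => (hfg z hz hz').symm, fun h1 h2 z hz hz' => (h1 z hz hz').trans (h2 z hz hz')⟩ }
  have hinf : Infinite (Quotient r) := by
    by_contra hfin
    rw [not_infinite_iff_finite] at hfin
    apply hno
    refine ⟨Set.range fun q : Quotient r => (q.out : ℂ → Y), Set.finite_range _, ?_, ?_⟩
    · rintro _ ⟨q, rfl⟩
      exact q.out.2
    · intro f hf
      refine ⟨_, ⟨Quotient.mk r ⟨f, hf⟩, rfl⟩, ?_⟩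
      have h1 : AgO B Set.univ ((Quotient.mk r ⟨f, hf⟩).out : ℂ → Y) f := Quotient.exact (Quotient.out_eq (Quotient.mk r ⟨f, hf⟩))
      exact fun z hz hz' => (h1 z hz hz').symm
  let e := Infinite.natEmbedding (Quotient r)
  have hΩu : ∀ n : ℕ, IsOpen ((fun _ => Set.univ : ℕ → Set ℂ) n) ∧ Convex ℝ ((fun _ => Set.univ : ℕ → Set ℂ) n) := fun n => ⟨isOpen_univ, convex_univ⟩
  have hexu : ∀ R : ℝ, ∀ᶠ n in ((hyperfilter ℕ : Ultrafilter ℕ) : Filter ℕ), ball 0 R ⊆ (fun _ => Set.univ : ℕ → Set ℂ) n :=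
    fun R => Eventually.of_forall fun n => Set.subset_univ _
  have hF : ∀ᶠ n in ((hyperfilter ℕ : Ultrafilter ℕ) : Filter ℕ), (fun k => ((e k).out : ℂ → Y)) n ∈ S ((fun _ => Set.univ : ℕ → Set ℂ) n) :=
    Eventually.of_forall fun n => (e n).out.2
  obtain ⟨f, hf, hlim⟩ := h.exists_lim (hyperfilter ℕ) (Ω := fun _ => Set.univ) (fun k => ((e k).out : ℂ → Y)) hΩu hexu hF
  have h1 := h.unif (hyperfilter ℕ) (Ω := fun _ => Set.univ) (fun k => ((e k).out : ℂ → Y)) hΩu hexu hF hf hlim h.δ_pos R (ε / 2) (half_pos hε)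
  have h2 : {k : ℕ | ∀ z ∈ Gd B δ, ‖z‖ ≤ R → dist (((e k).out : ℂ → Y) z) (f z) < ε / 2}.Infinite := by
    intro hfin
    exact notMem_hyperfilter_of_finite hfin h1
  obtain ⟨i, hi, j, hj, hij⟩ := h2.nontrivial
  refine ⟨(e i).out, (e i).out.2, (e j).out, (e j).out.2, ?_, ?_⟩
  · intro heq
    apply hij
    apply e.injective
    rw [← Quotient.out_eq (e i), ← Quotient.out_eq (e j)]
    exact Quotient.sound heq
  · intro z hz hzR
    have h3 := hi z hz hzR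
    have h4 := hj z hz hzR
    calc dist (((e i).out : ℂ → Y) z) (((e j).out : ℂ → Y) z) ≤ dist (((e i).out : ℂ → Y) z) (f z) +
          dist (((e j).out : ℂ → Y) z) (f z) := dist_triangle_right _ _ _
      _ < ε / 2 + ε / 2 := add_lt_add h3 h4
      _ = ε := add_halves ε

theorem UDyn.first_window (h : UDyn K p B δ W S Zr II) {ε : ℝ} (hε : 0 < ε)
    (hclose : ∀ f ∈ S Set.univ, ∀ g ∈ S Set.univ, (∀ z ∈ Gd B δ, |z.re| ≤ W → dist (f z) (g z) ≤ ε) → AgO B Set.univ f g)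
    (hno : ¬ ∃ 𝓕 : Set (ℂ → Y), 𝓕.Finite ∧ 𝓕 ⊆ S Set.univ ∧ ∀ f ∈ S Set.univ, ∃ g ∈ 𝓕, AgO B Set.univ f g) (n : ℕ) :
    ∃ f ∈ S Set.univ, ∃ g ∈ S Set.univ, ∃ m : ℕ, n ≤ m ∧ (∃ z ∈ Gd B δ, |z.re| ≤ W ∧ (m : ℝ) < |z.im| ∧ |z.im| ≤ m + 1 ∧ ε < dist (f z) (g z)) ∧
      ∀ z ∈ Gd B δ, |z.re| ≤ W → |z.im| ≤ m → dist (f z) (g z) ≤ ε := by
  obtain ⟨f, hf, g, hg, hne, hd⟩ := h.two hno (n + W) ε hε
  classical
  have hex : ∃ m : ℕ, n ≤ m ∧ ¬ ∀ z ∈ Gd B δ, |z.re| ≤ W → |z.im| ≤ m + 1 → dist (f z) (g z) ≤ ε := by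
    by_contra hcon
    push Not at hcon
    apply hne
    apply hclose f hf g hg
    intro z hz hzW
    obtain ⟨k, hk⟩ := exists_nat_ge |z.im|
    refine hcon (max n k) (le_max_left _ _) z hz hzW ?_
    have h1 : (k : ℝ) ≤ ((max n k : ℕ) : ℝ) := by exact_mod_cast le_max_right n k
    linarith
  have hspec := Nat.find_spec hex
  set m := Nat.find hex with hm
  have hlow : ∀ z ∈ Gd B δ, |z.re| ≤ W → |z.im| ≤ m → dist (f z) (g z) ≤ ε := by
    rcases hspec.1.eq_or_lt with heq | hlt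
    · intro z hz hzW hzm
      rw [← heq] at hzm
      exact (hd z hz ((Complex.norm_le_abs_re_add_abs_im z).trans (by linarith))).le
    · have h1 : ¬ (n ≤ m - 1 ∧ ¬ ∀ z ∈ Gd B δ, |z.re| ≤ W → |z.im| ≤ ((m - 1 : ℕ) : ℝ) + 1 → dist (f z) (g z) ≤ ε) :=
        Nat.find_min hex (by omega)
      have h2 : n ≤ m - 1 := by omega
      have h3 : ∀ z ∈ Gd B δ, |z.re| ≤ W → |z.im| ≤ ((m - 1 : ℕ) : ℝ) + 1 → dist (f z) (g z) ≤ ε := by
        by_contra h4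
        exact h1 ⟨h2, h4⟩
      have h4 : ((m - 1 : ℕ) : ℝ) + 1 = m := by
        have h5 : m - 1 + 1 = m := by omega
        exact_mod_cast h5
      rw [h4] at h3
      exact h3
  obtain ⟨h1, h2⟩ := hspec
  push Not at h2
  obtain ⟨z, hz, hzW, hzm, hzd⟩ := h2
  refine ⟨f, hf, g, hg, m, h1, ⟨z, hz, hzW, ?_, hzm, hzd⟩, hlow⟩
  by_contra h3
  push Not at h3
  exact absurd (hlow z hz hzW h3) (not_le.2 hzd)

/-- **The members of `S ℂ` are finitely many, up to their values on `B`.** -/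
theorem UDyn.finite (h : UDyn K p B δ W S Zr II) : ∃ 𝓕 : Set (ℂ → Y), 𝓕.Finite ∧ 𝓕 ⊆ S Set.univ ∧ ∀ f ∈ S Set.univ, ∃ g ∈ 𝓕, AgO B Set.univ f g := by
  by_contra hno
  have hδ := h.δ_pos
  have hp := h.p_pos
  obtain ⟨ε, hε, hhalf⟩ := h.half_plane
  have hclose : ∀ f ∈ S Set.univ, ∀ g ∈ S Set.univ, (∀ z ∈ Gd B δ, |z.re| ≤ W → dist (f z) (g z) ≤ ε) → AgO B Set.univ f g := by
    intro f hf g hg hfg
    refine h.ag_of_HP isOpen_univ convex_univ hf hg (σ := 1) (ρ := 0) (Or.inl rfl) (Set.subset_univ _) ?_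
    exact hhalf 1 0 (Or.inl rfl) f (h.res_univ (isOpen_HP _ _) (convex_HP _ _) hf) g (h.res_univ (isOpen_HP _ _) (convex_HP _ _) hg)
      fun z _ hzG hzW => hfg z hzG hzW
  choose f hf g hg m hnm hz hlow using fun n => h.first_window hε hclose hno n
  choose z hzG hzW hzm hzm' hzd using hz
  choose l hl using fun n => h.exists_int (z n).im
  set 𝒰 : Ultrafilter ℕ := Filter.hyperfilter ℕ with h𝒰
  have hle : (𝒰 : Filter ℕ) ≤ atTop := by
    rw [h𝒰, ← Nat.cofinite_eq_atTop]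
    exact Filter.hyperfilter_le_cofinite
  have hmlarge : ∀ c : ℝ, ∀ᶠ n : ℕ in (𝒰 : Filter ℕ), c ≤ (m n : ℝ) := by
    intro c
    have h1 : ∀ᶠ n : ℕ in atTop, c ≤ (n : ℝ) := tendsto_natCast_atTop_atTop.eventually_ge_atTop c
    filter_upwards [hle h1] with n hn
    have h2 : (n : ℝ) ≤ m n := by exact_mod_cast hnm n
    linarith
  have hΩu : ∀ n : ℕ, IsOpen ((fun _ => Set.univ : ℕ → Set ℂ) n) ∧ Convex ℝ ((fun _ => Set.univ : ℕ → Set ℂ) n) := fun n => ⟨isOpen_univ, convex_univ⟩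
  have hexu : ∀ R : ℝ, ∀ᶠ n in (𝒰 : Filter ℕ), ball 0 R ⊆ (fun _ => Set.univ : ℕ → Set ℂ) n :=
    fun R => Eventually.of_forall fun n => Set.subset_univ _
  have hFS : ∀ᶠ n in (𝒰 : Filter ℕ), tr p (l n) (f n) ∈ S ((fun _ => Set.univ : ℕ → Set ℂ) n) := Eventually.of_forall fun n => h.tr_univ (hf n) (l n)
  have hGS : ∀ᶠ n in (𝒰 : Filter ℕ), tr p (l n) (g n) ∈ S ((fun _ => Set.univ : ℕ → Set ℂ) n) := Eventually.of_forall fun n => h.tr_univ (hg n) (l n)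
  obtain ⟨f', hf'S, hf'⟩ := h.exists_lim 𝒰 (Ω := fun _ => Set.univ) (fun n => tr p (l n) (f n)) hΩu hexu hFS
  obtain ⟨g', hg'S, hg'⟩ := h.exists_lim 𝒰 (Ω := fun _ => Set.univ) (fun n => tr p (l n) (g n)) hΩu hexu hGS
  -- the limit of the translated points
  set w : ℕ → ℂ := fun n => z n - p * l n * Complex.I with hw
  have hwz : ∀ n, w n + p * l n * Complex.I = z n := fun n => by rw [hw]; ring
  have hwG : ∀ n, w n ∈ Gd B δ := fun n => (h.gd_add δ (l n)).1 (by rw [hwz]; exact hzG n)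
  have hwre : ∀ n, (w n).re = (z n).re := fun n => by
    have h1 := add_re p (l n) (w n)
    rw [hwz] at h1
    exact h1.symm
  have hwim : ∀ n, (w n).im = (z n).im - p * l n := fun n => by
    have h1 := add_im p (l n) (w n)
    rw [hwz] at h1
    linarith
  have hwb : ∀ n, ‖w n‖ ≤ W + p := fun n => by
    refine (Complex.norm_le_abs_re_add_abs_im _).trans ?_
    rw [hwre, hwim]
    linarith [hzW n, hl n]
  obtain ⟨w₀, -, hw₀⟩ : ∃ w₀ ∈ closedBall (0 : ℂ) (W + p), Tendsto w 𝒰 (𝓝 w₀) := by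
    have h1 : ((𝒰.map w : Ultrafilter ℂ) : Filter ℂ) ≤ 𝓟 (closedBall 0 (W + p)) := by
      rw [Filter.le_principal_iff]
      show ∀ᶠ n in (𝒰 : Filter ℕ), w n ∈ closedBall (0 : ℂ) (W + p)
      exact Eventually.of_forall fun n => by rw [mem_closedBall_zero_iff]; exact hwb n
    exact (isCompact_closedBall (0 : ℂ) (W + p)).ultrafilter_le_nhds _ h1
  have hw₀G : w₀ ∈ Gd B δ := (isClosed_gd δ).mem_of_tendsto hw₀ (Eventually.of_forall hwG)
  have hw₀B : w₀ ∉ B := gd_notMem hδ hw₀G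
  have ht1 := h.tendsto_along 𝒰 (Ω := fun _ => Set.univ) (fun n => tr p (l n) (f n)) hΩu hexu hFS hf' hw₀B hw₀
  have ht2 := h.tendsto_along 𝒰 (Ω := fun _ => Set.univ) (fun n => tr p (l n) (g n)) hΩu hexu hGS hg' hw₀B hw₀
  have hdist : ε ≤ dist (f' w₀) (g' w₀) := by
    refine ge_of_tendsto (ht1.dist ht2) (Eventually.of_forall fun n => ?_)
    show ε ≤ dist (f n (w n + p * l n * Complex.I)) (g n (w n + p * l n * Complex.I))
    rw [hwz]
    exact (hzd n).le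
  -- the sign
  have hsign : ∃ σ : ℝ, (σ = 1 ∨ σ = -1) ∧ ∀ᶠ n in (𝒰 : Filter ℕ), (z n).im = σ * |(z n).im| := by
    have h1 : ∀ᶠ n in (𝒰 : Filter ℕ), 0 ≤ (z n).im ∨ (z n).im ≤ 0 := Eventually.of_forall fun n => le_total _ _
    rw [Ultrafilter.eventually_or] at h1
    rcases h1 with h1 | h1
    · refine ⟨1, Or.inl rfl, ?_⟩
      filter_upwards [h1] with n hn
      rw [abs_of_nonneg hn, one_mul]
    · refine ⟨-1, Or.inr rfl, ?_⟩
      filter_upwards [h1] with n hn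
      rw [abs_of_nonpos hn]
      ring
  obtain ⟨σ, hσ, hσz⟩ := hsign
  have hσ' : -σ = 1 ∨ -σ = -1 := by rcases hσ with rfl | rfl <;> norm_num
  have hσσ := sq_one hσ
  have hclose' : ∀ ζ ∈ HP (-σ) (1 + p), ζ ∈ Gd B δ → |ζ.re| ≤ W → dist (f' ζ) (g' ζ) ≤ ε := by
    intro ζ hζ hζG hζW
    have hζB : ζ ∉ B := gd_notMem hδ hζG
    refine le_of_tendsto ((hf' ζ hζB).dist (hg' ζ hζB)) ?_
    filter_upwards [hσz, hmlarge (|ζ.im| + p)] with n hn hn2
    refine hlow n (ζ + p * l n * Complex.I) ((h.gd_add δ (l n)).2 hζG) (by rwa [add_re]) ?_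
    rw [add_im]
    have h1 : 1 + p < -σ * ζ.im := hζ
    have h2 := abs_le.1 (hl n)
    have h3 : |ζ.im| = -σ * ζ.im ∨ |ζ.im| = σ * ζ.im := by
      rcases hσ with rfl | rfl
      · rcases abs_cases ζ.im with h4 | h4
        · right; linarith [h4.1]
        · left; linarith [h4.1]
      · rcases abs_cases ζ.im with h4 | h4
        · left; linarith [h4.1]
        · right; linarith [h4.1]
    have h4 : 0 ≤ |ζ.im| := abs_nonneg _
    have h5 : |ζ.im| = -σ * ζ.im := by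
      rcases h3 with h6 | h6
      · exact h6
      · exfalso
        have : σ * ζ.im < 0 := by linarith
        linarith
    have h6 := hzm n
    have h7 := hzm' n
    rcases hσ with rfl | rfl
    · rw [abs_le]
      constructor <;> linarith [h2.1, h2.2]
    · rw [abs_le]
      constructor <;> linarith [h2.1, h2.2]
  have hag : AgO B Set.univ f' g' := by
    refine h.ag_of_HP isOpen_univ convex_univ hf'S hg'S (σ := -σ) (ρ := 1 + p) hσ' (Set.subset_univ _) ?_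
    exact hhalf (-σ) (1 + p) hσ' f' (h.res_univ (isOpen_HP _ _) (convex_HP _ _) hf'S) g' (h.res_univ (isOpen_HP _ _) (convex_HP _ _) hg'S) hclose'
  rw [hag w₀ (Set.mem_univ _) hw₀B, dist_self] at hdist
  linarith

end Pool.Agent.H87.LU
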