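import Mathlib

/-!
# LU GlueB: gluing of functions on the horizontal strips of the left part of a convex open set
-/

set_option autoImplicit false

open Topology Filter Metric

namespace Pool.Agent.H87.LU

/-- functions on horizontal strips which agree to the right give one function -/
theorem glue_bstrips {V : Set ℂ} (hVo : IsOpen V) (hVc : Convex ℝ V) {δ X₁ X₂ M : ℝ} (hδ : 0 < δ) (hX : X₁ < X₂)
    (hVr : ∀ t ∈ V, t.re < X₂ → (⟨max t.re ((X₁ + X₂) / 2), t.im⟩ : ℂ) ∈ V) {J₀ : ℂ → ℂ}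
    (hJ : ∀ y : ℝ, (∃ t ∈ V, t.re < X₂ ∧ t.im = y) → ∃ J : ℂ → ℂ, DifferentiableOn ℂ J {t | t ∈ V ∧ t.re < X₂ ∧ |t.im - y| < δ} ∧
      (∀ t ∈ V, X₁ < t.re → t.re < X₂ → |t.im - y| < δ → J t = J₀ t) ∧ ∀ t ∈ V, t.re < X₂ → |t.im - y| < δ → ‖J t‖ ≤ M) :
    ∃ J : ℂ → ℂ, DifferentiableOn ℂ J {t | t ∈ V ∧ t.re < X₂} ∧ (∀ t ∈ V, X₁ < t.re → t.re < X₂ → J t = J₀ t) ∧
      ∀ t ∈ V, t.re < X₂ → ‖J t‖ ≤ M := by
  have hJ' : ∀ y : ℝ, ∃ J : ℂ → ℂ, (∃ t ∈ V, t.re < X₂ ∧ t.im = y) → DifferentiableOn ℂ J {t | t ∈ V ∧ t.re < X₂ ∧ |t.im - y| < δ} ∧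
      (∀ t ∈ V, X₁ < t.re → t.re < X₂ → |t.im - y| < δ → J t = J₀ t) ∧ ∀ t ∈ V, t.re < X₂ → |t.im - y| < δ → ‖J t‖ ≤ M := by
    intro y
    by_cases h : ∃ t ∈ V, t.re < X₂ ∧ t.im = y
    · obtain ⟨J, h1⟩ := hJ y h
      exact ⟨J, fun _ => h1⟩
    · exact ⟨0, fun h1 => absurd h1 h⟩
  choose Jy hJy using hJ'
  have hself : ∀ t : ℂ, |t.im - t.im| < δ := fun t => by rw [sub_self, abs_zero]; exact hδ
  have hex : ∀ t ∈ V, t.re < X₂ → ∃ s ∈ V, s.re < X₂ ∧ s.im = t.im := fun t ht h1 => ⟨t, ht, h1, rfl⟩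
  -- two of the functions agree on the intersection of the strips
  have hagree : ∀ y y' : ℝ, (∃ t ∈ V, t.re < X₂ ∧ t.im = y) → (∃ t ∈ V, t.re < X₂ ∧ t.im = y') →
      ∀ t ∈ V, t.re < X₂ → |t.im - y| < δ → |t.im - y'| < δ → Jy y t = Jy y' t := by
    intro y y' hy hy' t ht h1 h2 h3
    set Q : Set ℂ := V ∩ ({t : ℂ | t.re < X₂} ∩ ({t : ℂ | t.im < min (y + δ) (y' + δ)} ∩ {t : ℂ | max (y - δ) (y' - δ) < t.im})) with hQ
    have hQc : Convex ℝ Q := hVc.inter ((convex_halfSpace_re_lt X₂).inter ((convex_halfSpace_im_lt _).inter (convex_halfSpace_im_gt _)))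
    have hQo : IsOpen Q := hVo.inter ((isOpen_lt Complex.continuous_re continuous_const).inter
      ((isOpen_lt Complex.continuous_im continuous_const).inter (isOpen_lt continuous_const Complex.continuous_im)))
    have hsub : ∀ w ∈ Q, w ∈ V ∧ w.re < X₂ ∧ |w.im - y| < δ ∧ |w.im - y'| < δ := by
      rintro w ⟨h4, h5, h6, h7⟩
      have h5 : w.re < X₂ := h5
      have h6 : w.im < min (y + δ) (y' + δ) := h6
      have h7 : max (y - δ) (y' - δ) < w.im := h7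
      have h8 := (lt_min_iff.1 h6)
      have h10 := (max_lt_iff.1 h7)
      exact ⟨h4, h5, abs_lt.2 ⟨by linarith, by linarith⟩, abs_lt.2 ⟨by linarith, by linarith⟩⟩
    have htQ : t ∈ Q := by
      obtain ⟨h5, h5'⟩ := abs_lt.1 h2
      obtain ⟨h6, h6'⟩ := abs_lt.1 h3
      refine ⟨ht, h1, ?_, ?_⟩
      · show t.im < min (y + δ) (y' + δ)
        exact lt_min (by linarith) (by linarith)
      · show max (y - δ) (y' - δ) < t.im
        exact max_lt (by linarith) (by linarith)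
    have hd : DifferentiableOn ℂ (Jy y) Q := (hJy y hy).1.mono fun w hw => ⟨(hsub w hw).1, (hsub w hw).2.1, (hsub w hw).2.2.1⟩
    have hd' : DifferentiableOn ℂ (Jy y') Q := (hJy y' hy').1.mono fun w hw => ⟨(hsub w hw).1, (hsub w hw).2.1, (hsub w hw).2.2.2⟩
    -- a point to the right
    set w₀ : ℂ := ⟨max t.re ((X₁ + X₂) / 2), t.im⟩ with hw₀
    have hw₀Q : w₀ ∈ Q := by
      refine ⟨hVr t ht h1, ?_, htQ.2.2.1, htQ.2.2.2⟩
      exact max_lt h1 (by linarith)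
    have hw₁ : X₁ < w₀.re := lt_of_lt_of_le (by linarith) (le_max_right _ _)
    have hev : Jy y =ᶠ[𝓝 w₀] Jy y' := by
      have h5 : Q ∩ {w : ℂ | X₁ < w.re} ∈ 𝓝 w₀ :=
        (hQo.inter (isOpen_lt continuous_const Complex.continuous_re)).mem_nhds ⟨hw₀Q, hw₁⟩
      filter_upwards [h5] with w hw
      have h6 := hsub w hw.1
      rw [(hJy y hy).2.1 w h6.1 hw.2 h6.2.1 h6.2.2.1, (hJy y' hy').2.1 w h6.1 hw.2 h6.2.1 h6.2.2.2]
    exact ((hd.analyticOnNhd hQo).eqOn_of_preconnected_of_eventuallyEq (hd'.analyticOnNhd hQo) hQc.isPreconnected hw₀Q hev) htQ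
  set J : ℂ → ℂ := fun t => Jy t.im t with hJdef
  have hleft : ∀ y : ℝ, (∃ t ∈ V, t.re < X₂ ∧ t.im = y) → ∀ t ∈ V, t.re < X₂ → |t.im - y| < δ → J t = Jy y t := fun y hy t ht h1 h2 =>
    hagree t.im y (hex t ht h1) hy t ht h1 (hself t) h2
  refine ⟨J, ?_, ?_, ?_⟩
  · rintro t ⟨ht, h1⟩
    have hopen : IsOpen {w : ℂ | w ∈ V ∧ w.re < X₂ ∧ |w.im - t.im| < δ} :=
      hVo.inter ((isOpen_lt Complex.continuous_re continuous_const).inter (isOpen_lt (Complex.continuous_im.sub continuous_const).abs continuous_const))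
    have hmem : t ∈ {w : ℂ | w ∈ V ∧ w.re < X₂ ∧ |w.im - t.im| < δ} := ⟨ht, h1, hself t⟩
    have h2 : J =ᶠ[𝓝 t] Jy t.im :=
      Filter.eventuallyEq_of_mem (hopen.mem_nhds hmem) fun w hw => hleft t.im (hex t ht h1) w hw.1 hw.2.1 hw.2.2
    exact (h2.differentiableAt_iff.2 ((hJy t.im (hex t ht h1)).1.differentiableAt (hopen.mem_nhds hmem))).differentiableWithinAt
  · intro t ht h1 h2
    exact (hJy t.im (hex t ht h2)).2.1 t ht h1 h2 (hself t)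
  · intro t ht h1
    exact (hJy t.im (hex t ht h1)).2.2 t ht h1 (hself t)

end Pool.Agent.H87.LU
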