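import Pool.Agent.H87.LU.HFin
import Pool.Agent.H87.LU.Arm

/-!
# LU HArm: copy of `Arm` for `HDyn`
-/

set_option autoImplicit false

open Topology Filter Metric

namespace Pool.Agent.H87.LU

variable {Y : Type} [MetricSpace Y] {K : Set Y} {p : ℝ} {B : Set ℂ} {δ W : ℝ} {S : Set ℂ → Set (ℂ → Y)}

theorem HDyn.sepS (h : HDyn K p B δ W S) : ∃ ε₁ R₁ : ℝ, 0 < ε₁ ∧ 0 < R₁ ∧ ∀ f ∈ S Set.univ, ∀ g ∈ S Set.univ, ∀ y : ℝ,
    Cl B δ W f g y R₁ ε₁ → AgO B Set.univ f g := by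
  obtain ⟨𝓕, hfin, hsub, h𝓕⟩ := h.finite
  have hδ := h.δ_pos
  have hW := h.W_pos
  -- for a pair of members of `𝓕`
  have hpair : ∀ A A' : ℂ → Y, ∃ ε : ℝ, 0 < ε ∧ (A ∈ 𝓕 → A' ∈ 𝓕 → Cl B δ W A A' 0 (W + p + 2) ε → AgO B Set.univ A A') := by
    intro A A'
    by_cases hA : A ∈ 𝓕 ∧ A' ∈ 𝓕 ∧ ¬ AgO B Set.univ A A'
    · obtain ⟨hA1, hA2, hA3⟩ := hA
      have hWc : |((W : ℝ) : ℂ).re| ≤ W := by
        rw [Complex.ofReal_re, abs_of_pos hW]
      obtain ⟨w, hw, hwW, hwn, hne⟩ := h.exists_ne isOpen_univ convex_univ (hsub hA1) (hsub hA2) hA3 (z := ((W : ℝ) : ℂ)) (Set.mem_univ _)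
        (h.right_mem (by rw [Complex.ofReal_re]; linarith)) hWc one_pos
      have hd : 0 < dist (A w) (A' w) := dist_pos.2 hne
      refine ⟨dist (A w) (A' w) / 2, half_pos hd, fun _ _ hcl => ?_⟩
      exfalso
      have h1 := hcl w (by
        rw [Complex.ofReal_zero, zero_mul, mem_ball_zero_iff]
        have h2 : w = (w - (W : ℂ)) + (W : ℂ) := by ring
        calc ‖w‖ = ‖(w - (W : ℂ)) + (W : ℂ)‖ := by rw [← h2]
          _ ≤ ‖w - (W : ℂ)‖ + ‖((W : ℝ) : ℂ)‖ := norm_add_le _ _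
          _ < 1 + W := by
            rw [Complex.norm_real, Real.norm_of_nonneg hW.le]
            linarith
          _ ≤ W + p + 2 := by linarith [h.p_pos]) (gd_mono (by linarith) hw) hwW.le
      linarith
    · refine ⟨1, one_pos, fun h1 h2 _ => ?_⟩
      by_contra h3
      exact hA ⟨h1, h2, h3⟩
  choose ε hε hpair using hpair
  obtain ⟨ε₁, hε₁, hε₁'⟩ : ∃ ε₁ : ℝ, 0 < ε₁ ∧ ∀ A ∈ 𝓕, ∀ A' ∈ 𝓕, ε₁ ≤ ε A A' := by
    have h1 : ∀ᶠ e : ℝ in 𝓝[>] (0 : ℝ), ∀ q ∈ 𝓕 ×ˢ 𝓕, e < ε q.1 q.2 :=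
      (Filter.eventually_all_finite (hfin.prod hfin)).2 fun q _ => nhdsWithin_le_nhds (gt_mem_nhds (hε q.1 q.2))
    obtain ⟨e, he, he0⟩ := (h1.and self_mem_nhdsWithin).exists
    exact ⟨e, he0, fun A hA A' hA' => (he (A, A') ⟨hA, hA'⟩).le⟩
  refine ⟨ε₁, W + p + 2 + p, hε₁, by linarith [h.p_pos], fun f hf g hg y hcl => ?_⟩
  obtain ⟨l, hl⟩ := h.exists_int y
  obtain ⟨A, hA, hfA⟩ := h𝓕 _ (h.tr_univ hf l)
  obtain ⟨A', hA', hgA'⟩ := h𝓕 _ (h.tr_univ hg l)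
  have h1 : AgO B Set.univ A A' := by
    refine hpair A A' hA hA' fun z hz hzG hzW => ?_
    rw [Complex.ofReal_zero, zero_mul, mem_ball_zero_iff] at hz
    have hzB : z ∉ B := gd_notMem hδ hzG
    rw [← hfA z (Set.mem_univ _) hzB, ← hgA' z (Set.mem_univ _) hzB]
    refine (hcl (z + p * l * Complex.I) (ball_tr (R' := W + p + 2 + p) (by linarith) le_rfl) ((h.gd_add δ l).2 hzG) (by rwa [add_re])).trans (hε₁' A hA A' hA')
  have h2 : AgO B Set.univ (tr p l f) (tr p l g) := (hfA.trans h1).trans hgA'.symm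
  have h3 := (h.ag_tr (Ω := Set.univ) l).1 h2
  exact h3

theorem HDyn.near_S (h : HDyn K p B δ W S) {σ ρ : ℝ} (hσ : σ = 1 ∨ σ = -1) {f : ℂ → Y} (hf : f ∈ S (HP σ ρ)) (R : ℝ) {ε : ℝ} (hε : 0 < ε) :
    ∃ t : ℝ, ∀ y : ℝ, t ≤ σ * y → ∃ G ∈ S Set.univ, Cl B δ W f G y R ε := by
  by_contra hcon
  push Not at hcon
  choose y hy hbad using fun n : ℕ => hcon n
  choose l hl using fun n => h.exists_int (y n)
  have hδ := h.δ_pos
  set 𝒰 : Ultrafilter ℕ := Filter.hyperfilter ℕ with h𝒰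
  have hle : (𝒰 : Filter ℕ) ≤ atTop := by
    rw [h𝒰, ← Nat.cofinite_eq_atTop]
    exact Filter.hyperfilter_le_cofinite
  have hΩo : ∀ n, IsOpen (Sh p (l n) (HP σ ρ)) ∧ Convex ℝ (Sh p (l n) (HP σ ρ)) := fun n => ⟨isOpen_sh (isOpen_HP σ ρ), convex_sh (convex_HP σ ρ)⟩
  have hex : ∀ R : ℝ, ∀ᶠ n in (𝒰 : Filter ℕ), ball 0 R ⊆ Sh p (l n) (HP σ ρ) := by
    intro R
    have h1 : ∀ᶠ n : ℕ in atTop, ρ + (R + p) ≤ (n : ℝ) := tendsto_natCast_atTop_atTop.eventually_ge_atTop _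
    filter_upwards [hle h1] with n hn
    have h2 : ball ((y n : ℂ) * Complex.I) (R + p) ⊆ HP σ ρ := ball_sub_HP hσ (hn.trans (hy n))
    have h3 := ball_sub_sh (l := l n) h2 (hl n)
    rwa [add_sub_cancel_right] at h3
  have hFS : ∀ᶠ n in (𝒰 : Filter ℕ), tr p (l n) f ∈ S (Sh p (l n) (HP σ ρ)) :=
    Eventually.of_forall fun n => h.tr_mem (isOpen_HP σ ρ) (convex_HP σ ρ) hf (l n)
  obtain ⟨f', hf'S, hf'⟩ := h.exists_lim 𝒰 (Ω := fun n => Sh p (l n) (HP σ ρ)) (fun n => tr p (l n) f) hΩo hex hFS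
  have hu := h.unif 𝒰 (Ω := fun n => Sh p (l n) (HP σ ρ)) (fun n => tr p (l n) f) hΩo hex hFS hf'S hf' hδ (R + p) ε hε
  obtain ⟨n, hn⟩ := hu.exists
  refine hbad n (tr p (-l n) f') (h.tr_univ hf'S (-l n)) ?_
  intro z hz hzG hzW
  have h1 : z + p * ((-l n : ℤ) : ℂ) * Complex.I ∈ Gd B δ := (h.gd_add δ (-l n)).mpr hzG
  have h2 : ‖z + p * ((-l n : ℤ) : ℂ) * Complex.I‖ ≤ R + p := by
    rw [mem_ball, dist_eq_norm] at hz
    have h3 : z + p * ((-l n : ℤ) : ℂ) * Complex.I = (z - (y n : ℂ) * Complex.I) + ((y n - p * l n : ℝ) : ℂ) * Complex.I := by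
      push_cast
      ring
    rw [h3]
    refine (norm_add_le _ _).trans ?_
    rw [norm_mul, Complex.norm_I, mul_one, Complex.norm_real, Real.norm_eq_abs]
    linarith [hl n]
  have h4 : z + p * ((-l n : ℤ) : ℂ) * Complex.I + p * l n * Complex.I = z := by
    push_cast
    ring
  have h5 := (hn _ h1 h2).le
  simp only [tr] at h5 ⊢
  rwa [h4] at h5

/-- **Every member of `S` over a half plane is the restriction of a member of `S ℂ`.** -/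
theorem HDyn.arm (h : HDyn K p B δ W S) {σ ρ : ℝ} (hσ : σ = 1 ∨ σ = -1) {f : ℂ → Y} (hf : f ∈ S (HP σ ρ)) :
    ∃ G ∈ S Set.univ, AgO B (HP σ ρ) f G := by
  obtain ⟨ε₁, R₁, hε₁, hR₁, hsep⟩ := h.sepS
  obtain ⟨ε₂, hε₂, hhalf⟩ := h.half
  have hW := h.W_pos
  set ε : ℝ := min (ε₁ / 2) ε₂ with hε
  have hε0 : 0 < ε := lt_min (by positivity) hε₂
  have hεε₁ : ε ≤ ε₁ / 2 := min_le_left _ _
  have hεε₂ : ε ≤ ε₂ := min_le_right _ _
  obtain ⟨t, ht⟩ := h.near_S hσ hf (R₁ + W + 2) hε0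
  have : Nonempty (ℂ → Y) := ⟨f⟩
  choose! e heS he using ht
  have hσσ := sq_one hσ
  have h3 : ∀ a b : ℝ, t ≤ σ * a → t ≤ σ * b → AgO B Set.univ (e a) (e b) := by
    intro a b ha hb
    refine chain_real (r := fun a b => AgO B Set.univ (e a) (e b)) (t := t) (σ := σ) (fun a b c => AgO.trans) ?_ ha hb
    intro a b ha hb hab
    refine hsep _ (heS a ha) _ (heS b hb) a ?_
    intro z hz hzG hzW
    rw [mem_ball, dist_eq_norm] at hz
    have h4 := he a ha z (by rw [mem_ball, dist_eq_norm]; linarith) hzG hzW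
    have h5 : ‖z - (b : ℂ) * Complex.I‖ < R₁ + W + 2 := by
      have h6 : z - (b : ℂ) * Complex.I = (z - (a : ℂ) * Complex.I) + ((a - b : ℝ) : ℂ) * Complex.I := by
        push_cast
        ring
      rw [h6]
      refine (norm_add_le _ _).trans_lt ?_
      rw [norm_mul, Complex.norm_I, mul_one, Complex.norm_real, Real.norm_eq_abs]
      linarith
    have h7 := he b hb z (by rw [mem_ball, dist_eq_norm]; exact h5) hzG hzW
    have h8 := dist_triangle_left (e a z) (e b z) (f z)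
    linarith
  set ρ₂ : ℝ := max ρ t with hρ₂
  set y₀ : ℝ := σ * ρ₂ with hy₀
  have hy₀' : t ≤ σ * y₀ := by
    rw [hy₀, ← mul_assoc, hσσ, one_mul]
    exact le_max_right _ _
  have hfS : f ∈ S (HP σ ρ₂) := h.res_HP (le_max_left _ _) hf
  have hGS : e y₀ ∈ S Set.univ := heS y₀ hy₀'
  have h4 : AgO B (HP σ ρ₂) f (e y₀) := by
    refine hhalf σ ρ₂ hσ f hfS _ (h.res_univ (isOpen_HP _ _) (convex_HP _ _) hGS) fun z hz hzG hzW => ?_
    have hz' : ρ₂ < σ * z.im := hz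
    have hzt : t ≤ σ * z.im := (le_max_right _ _).trans hz'.le
    have hzb : z ∈ ball ((z.im : ℂ) * Complex.I) (R₁ + W + 2) := by
      rw [mem_ball, dist_eq_norm]
      have h6 : z - (z.im : ℂ) * Complex.I = ((z.re : ℝ) : ℂ) := by
        apply Complex.ext <;> simp
      rw [h6, Complex.norm_real, Real.norm_eq_abs]
      linarith
    rw [← h3 z.im y₀ hzt hy₀' z (Set.mem_univ z) (gd_notMem h.δ_pos hzG)]
    exact (he z.im hzt z hzb hzG hzW).trans hεε₂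
  exact ⟨e y₀, hGS, h.ag_of_HP (isOpen_HP _ _) (convex_HP _ _) hf (h.res_univ (isOpen_HP _ _) (convex_HP _ _) hGS) hσ (HP_anti (le_max_left _ _)) h4⟩

/-- **The members of `S ℂ` are periodic.** -/
theorem HDyn.period (h : HDyn K p B δ W S) {f : ℂ → Y} (hf : f ∈ S Set.univ) : ∃ q : ℕ, 1 ≤ q ∧ ∀ z, z ∉ B → f (z + p * q * Complex.I) = f z := by
  obtain ⟨𝓕, hfin, hsub, h𝓕⟩ := h.finite
  choose A hA hfA using fun n : ℕ => h𝓕 _ (h.tr_univ hf (n : ℤ))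
  obtain ⟨n, m, hnm, hnm'⟩ : ∃ n m : ℕ, n < m ∧ A n = A m := by
    have : Finite 𝓕 := hfin
    obtain ⟨n, m, hne, heq⟩ := Finite.exists_ne_map_eq_of_infinite (fun n : ℕ => (⟨A n, hA n⟩ : 𝓕))
    have heq' : A n = A m := congrArg Subtype.val heq
    rcases lt_or_gt_of_ne hne with h1 | h1
    · exact ⟨n, m, h1, heq'⟩
    · exact ⟨m, n, h1, heq'.symm⟩
  refine ⟨m - n, by omega, fun z hz => ?_⟩
  have h1 : AgO B Set.univ (tr p (n : ℤ) f) (tr p (m : ℤ) f) := by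
    have h2 := hfA n
    have h3 := hfA m
    rw [← hnm'] at h3
    exact h2.trans h3.symm
  have h4 : z + p * ((-(n : ℤ) : ℤ) : ℂ) * Complex.I ∉ B := fun h5 => hz ((h.mem_add (-(n : ℤ))).1 h5)
  have h5 := h1 _ (Set.mem_univ _) h4
  unfold tr at h5
  have h6 : z + p * ((-(n : ℤ) : ℤ) : ℂ) * Complex.I + p * ((n : ℤ) : ℂ) * Complex.I = z := by
    push_cast
    ring
  have h7 : z + p * ((-(n : ℤ) : ℤ) : ℂ) * Complex.I + p * ((m : ℤ) : ℂ) * Complex.I = z + p * ((m - n : ℕ) : ℂ) * Complex.I := by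
    rw [Nat.cast_sub hnm.le]
    push_cast
    ring
  rw [h6, h7] at h5
  exact h5.symm

end Pool.Agent.H87.LU
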