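import Pool.Agent.H87.LU.Half

/-!
# LU HDefs: the abstract situation with the statement on half planes as a field

`HDyn`: the elementary fields of `UDyn` and `half`: two members of `S (HP σ ρ)` which are close in the strip are equal.
-/

set_option autoImplicit false

open Topology Filter Metric

namespace Pool.Agent.H87.LU

/-- The abstract situation, with the statement on half planes. -/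
structure HDyn {Y : Type} [MetricSpace Y] (K : Set Y) (p : ℝ) (B : Set ℂ) (δ W : ℝ) (S : Set ℂ → Set (ℂ → Y)) : Prop where
  compact : IsCompact K
  p_pos : 0 < p
  δ_pos : 0 < δ
  W_pos : 0 < W
  B_inv : ∀ b ∈ B, ∀ l : ℤ, b + p * l * Complex.I ∈ B
  B_sep : ∀ b ∈ B, ∀ b' ∈ B, b ≠ b' → 8 * δ ≤ ‖b - b'‖
  B_re : ∀ b ∈ B, |b.re| + 4 * δ ≤ W
  anti : ∀ Ω Ω' : Set ℂ, IsOpen Ω → Convex ℝ Ω → IsOpen Ω' → Convex ℝ Ω' → Ω' ⊆ Ω → S Ω ⊆ S Ω'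
  mem : ∀ Ω : Set ℂ, IsOpen Ω → Convex ℝ Ω → ∀ f ∈ S Ω, ∀ z ∈ Ω, z ∉ B → f z ∈ K
  lip : ∀ δ' R : ℝ, 0 < δ' → ∃ L : ℝ, 0 < L ∧ ∀ Ω : Set ℂ, IsOpen Ω → Convex ℝ Ω → ∀ f ∈ S Ω, ∀ z ∈ Gd B δ', |z.re| ≤ R → closedBall z δ' ⊆ Ω →
    ∀ w ∈ closedBall z (δ' / 2), dist (f z) (f w) ≤ L * ‖z - w‖
  trans : ∀ Ω : Set ℂ, IsOpen Ω → Convex ℝ Ω → ∀ f ∈ S Ω, ∀ l : ℤ, (fun z => f (z + p * l * Complex.I)) ∈ S (Sh p l Ω)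
  lim : ∀ (𝒰 : Ultrafilter ℕ) (Ω : ℕ → Set ℂ) (F : ℕ → ℂ → Y) (f : ℂ → Y), (∀ n, IsOpen (Ω n) ∧ Convex ℝ (Ω n)) →
    (∀ R : ℝ, ∀ᶠ n in (𝒰 : Filter ℕ), ball 0 R ⊆ Ω n) → (∀ᶠ n in (𝒰 : Filter ℕ), F n ∈ S (Ω n)) →
    (∀ z, z ∉ B → Tendsto (fun n => F n z) 𝒰 (𝓝 (f z))) → f ∈ S Set.univ
  uniq : ∀ Ω : Set ℂ, IsOpen Ω → Convex ℝ Ω → ∀ f ∈ S Ω, ∀ g ∈ S Ω, ∀ z₀ ∈ Ω, z₀ ∉ B → (∃ᶠ z in 𝓝[≠] z₀, f z = g z) → ∀ z ∈ Ω, z ∉ B → f z = g z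
  half : ∃ ε : ℝ, 0 < ε ∧ ∀ σ ρ : ℝ, (σ = 1 ∨ σ = -1) → ∀ f ∈ S (HP σ ρ), ∀ g ∈ S (HP σ ρ),
    (∀ z ∈ HP σ ρ, z ∈ Gd B δ → |z.re| ≤ W → dist (f z) (g z) ≤ ε) → AgO B (HP σ ρ) f g

variable {Y : Type} [MetricSpace Y] {K : Set Y} {p : ℝ} {B : Set ℂ} {δ W : ℝ} {S : Set ℂ → Set (ℂ → Y)}
    {Zr : ℂ → Y → Prop} {II : ℂ → Y → Y → ℂ}

theorem UDyn.hDyn (h : UDyn K p B δ W S Zr II) : HDyn K p B δ W S where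
  compact := h.compact
  p_pos := h.p_pos
  δ_pos := h.δ_pos
  W_pos := h.W_pos
  B_inv := h.B_inv
  B_sep := h.B_sep
  B_re := h.B_re
  anti := h.anti
  mem := h.mem
  lip := h.lip
  trans := h.trans
  lim := h.lim
  uniq := h.uniq
  half := h.half_plane

end Pool.Agent.H87.LU
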