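import Pool.Agent.H87.LU.Lim
import Pool.Agent.H87.LU.ZeroUp

/-!
# LU Ker: the integral is zero on a half plane

The balls `ball (σ i (ρ + s)) s`, `s → ∞`, exhaust the half plane `{ρ < σ Im z}`; the functions `J` on them (field `J`) agree, they give a function of polynomial growth on the half plane with
zeros at `a + i p l`: it is zero (`zero_up`).
-/

set_option autoImplicit false

open Topology Filter Metric

namespace Pool.Agent.H87.LU

variable {Y : Type} [MetricSpace Y] {K : Set Y} {p : ℝ} {B : Set ℂ} {δ W : ℝ} {S : Set ℂ → Set (ℂ → Y)}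
    {Zr : ℂ → Y → Prop} {II : ℂ → Y → Y → ℂ}

/-- the center of the ball of radius `s` -/
noncomputable def ctr (σ ρ s : ℝ) : ℂ := ((σ * (ρ + s) : ℝ) : ℂ) * Complex.I

theorem ctr_re (σ ρ s : ℝ) : (ctr σ ρ s).re = 0 := by
  unfold ctr
  simp

theorem ctr_im (σ ρ s : ℝ) : (ctr σ ρ s).im = σ * (ρ + s) := by
  unfold ctr
  rw [Complex.mul_im, Complex.ofReal_re, Complex.ofReal_im, Complex.I_re, Complex.I_im]
  ring

theorem sq_one {σ : ℝ} (hσ : σ = 1 ∨ σ = -1) : σ * σ = 1 := by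
  rcases hσ with rfl | rfl <;> norm_num

theorem ball_ctr {σ ρ s : ℝ} (hσ : σ = 1 ∨ σ = -1) : ball (ctr σ ρ s) s ⊆ HP σ ρ := by
  intro z hz
  rw [mem_ball, dist_eq_norm] at hz
  have h1 := (Complex.abs_im_le_norm (z - ctr σ ρ s)).trans_lt hz
  rw [Complex.sub_im, ctr_im] at h1
  have h2 : |σ * z.im - (ρ + s)| < s := by
    have h3 : σ * z.im - (ρ + s) = σ * (z.im - σ * (ρ + s)) := by
      have := sq_one hσ
      calc σ * z.im - (ρ + s) = σ * z.im - (σ * σ) * (ρ + s) := by rw [this, one_mul]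
        _ = _ := by ring
    have h4 : |σ| = 1 := by rcases hσ with rfl | rfl <;> norm_num
    rw [h3, abs_mul, h4, one_mul]
    exact h1
  have h3 := (abs_lt.1 h2).1
  show ρ < σ * z.im
  linarith

theorem mem_ball_ctr {σ ρ s r : ℝ} (hσ : σ = 1 ∨ σ = -1) {z : ℂ} (hr : 0 < r) :
    z ∈ ball (ctr σ ρ s) r ↔ z.re ^ 2 + (σ * z.im - (ρ + s)) ^ 2 < r ^ 2 := by
  rw [mem_ball, dist_eq_norm]
  have h1 : ‖z - ctr σ ρ s‖ ^ 2 = z.re ^ 2 + (σ * z.im - (ρ + s)) ^ 2 := by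
    rw [Complex.sq_norm, Complex.normSq_apply, Complex.sub_re, Complex.sub_im, ctr_re, ctr_im, sub_zero]
    have h2 := sq_one hσ
    have h3 : (z.im - σ * (ρ + s)) * (z.im - σ * (ρ + s)) = (σ * z.im - (ρ + s)) ^ 2 := by
      have h4 : σ ^ 2 = 1 := by rw [pow_two]; exact h2
      calc (z.im - σ * (ρ + s)) * (z.im - σ * (ρ + s)) = z.im ^ 2 - 2 * σ * z.im * (ρ + s) + σ ^ 2 * (ρ + s) ^ 2 := by ring
        _ = σ ^ 2 * z.im ^ 2 - 2 * σ * z.im * (ρ + s) + (ρ + s) ^ 2 := by rw [h4]; ring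
        _ = _ := by ring
    rw [h3]
    ring
  rw [← h1]
  exact (pow_lt_pow_iff_left₀ (norm_nonneg _) hr.le two_ne_zero).symm

theorem UDyn.half_zero (h : UDyn K p B δ W S Zr II) : ∃ r ε₀ : ℝ, 0 < r ∧ 0 < ε₀ ∧ ∀ σ ρ : ℝ, (σ = 1 ∨ σ = -1) →
    ∀ f ∈ S (HP σ ρ), ∀ g ∈ S (HP σ ρ), (∀ z ∈ HP σ ρ, z ∈ Gd B δ → |z.re| ≤ W → dist (f z) (g z) ≤ ε₀) →
    ∀ z ∈ HP σ (ρ + r), z ∈ Gd B (2 * δ) → |z.re| < W → II z (f z) (g z) = 0 := by
  obtain ⟨ε₀, r₁, C, k, a, hε₀, hr₁, hC, hJ⟩ := h.J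
  refine ⟨r₁ + 1, ε₀, by linarith, hε₀, fun σ ρ hσ f hf g hg hclose => ?_⟩
  have hW := h.W_pos
  have hδ := h.δ_pos
  have hp := h.p_pos
  set s : ℕ → ℝ := fun n => r₁ + W + 1 + n with hs
  have hsr : ∀ n, r₁ < s n := fun n => by
    rw [hs]
    have : (0 : ℝ) ≤ n := Nat.cast_nonneg n
    simp only
    linarith
  have hres : ∀ n, ∀ F ∈ S (HP σ ρ), F ∈ S (ball (ctr σ ρ (s n)) (s n)) := fun n F hF =>
    h.anti _ _ (isOpen_HP σ ρ) (convex_HP σ ρ) isOpen_ball (convex_ball _ _) (ball_ctr hσ) hF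
  have hex : ∀ n, ∃ J : ℂ → ℂ, DifferentiableOn ℂ J (ball (ctr σ ρ (s n)) (s n - r₁)) ∧ (∀ z ∈ ball (ctr σ ρ (s n)) (s n - r₁), ‖J z‖ ≤ C * (1 + s n) ^ k) ∧
      (∀ z ∈ ball (ctr σ ρ (s n)) (s n - r₁), z ∈ Gd B (2 * δ) → |z.re| < W → J z = II z (f z) (g z)) ∧
      ∀ l : ℤ, a + p * l * Complex.I ∈ ball (ctr σ ρ (s n)) (s n - r₁) → J (a + p * l * Complex.I) = 0 := fun n =>
    hJ (ctr σ ρ (s n)) (s n) (ctr_re _ _ _) (hsr n) f (hres n f hf) g (hres n g hg) fun z hz hzG hzW => hclose z (ball_ctr hσ hz) hzG hzW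
  choose Jn hJd hJb hJI hJ0 using hex
  -- the balls are increasing
  have hrad : ∀ n, s n - r₁ = W + 1 + n := fun n => by
    rw [hs]
    ring
  have hmem : ∀ (n : ℕ) (z : ℂ), z ∈ ball (ctr σ ρ (s n)) (s n - r₁) ↔ z.re ^ 2 + (σ * z.im - (ρ + s n)) ^ 2 < (s n - r₁) ^ 2 := fun n z =>
    mem_ball_ctr hσ (by linarith [hsr n])
  -- in terms of t
  have hmem' : ∀ (n : ℕ) (z : ℂ), z ∈ ball (ctr σ ρ (s n)) (s n - r₁) ↔
      z.re ^ 2 + (σ * z.im - (ρ + r₁)) ^ 2 < 2 * (σ * z.im - (ρ + r₁)) * (W + 1 + n) := by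
    intro n z
    rw [hmem, hrad]
    have h1 : ρ + s n = (ρ + r₁) + (W + 1 + n) := by
      rw [hs]
      ring
    rw [h1]
    constructor <;> intro h2 <;> nlinarith
  have hmono : ∀ n m : ℕ, n ≤ m → ball (ctr σ ρ (s n)) (s n - r₁) ⊆ ball (ctr σ ρ (s m)) (s m - r₁) := by
    intro n m hnm z hz
    rw [hmem'] at hz ⊢
    have h1 : (n : ℝ) ≤ m := by exact_mod_cast hnm
    have h2 : 0 < 2 * (σ * z.im - (ρ + r₁)) * (W + 1 + n) := lt_of_le_of_lt (by positivity) hz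
    have h3 : 0 < W + 1 + (n : ℝ) := by positivity
    have h4 : 0 < 2 * (σ * z.im - (ρ + r₁)) := (pos_iff_pos_of_mul_pos h2).2 h3
    nlinarith
  have hagree : ∀ n m : ℕ, n ≤ m → ∀ z ∈ ball (ctr σ ρ (s n)) (s n - r₁), Jn n z = Jn m z := by
    intro n m hnm
    set η : ℝ := min δ W with hη
    have hη0 : 0 < η := lt_min hδ hW
    have hηδ : η ≤ δ := min_le_left _ _
    have hηW : η ≤ W := min_le_right _ _
    set z₁ : ℂ := ((W - η : ℝ) : ℂ) + ctr σ ρ (s n) with hz₁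
    have hz₁re : z₁.re = W - η := by
      rw [hz₁, Complex.add_re, ctr_re, Complex.ofReal_re, add_zero]
    have hsub : ∀ z ∈ ball z₁ η, z ∈ ball (ctr σ ρ (s n)) (s n - r₁) ∧ z ∈ Gd B (2 * δ) ∧ |z.re| < W := by
      intro z hz
      rw [mem_ball, dist_eq_norm] at hz
      have h1 := (Complex.abs_re_le_norm (z - z₁)).trans_lt hz
      rw [Complex.sub_re, hz₁re, abs_lt] at h1
      refine ⟨?_, h.right_mem (by linarith [h1.1]), abs_lt.2 ⟨by linarith [h1.1], by linarith [h1.2]⟩⟩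
      rw [mem_ball, dist_eq_norm]
      have h2 : z - ctr σ ρ (s n) = (z - z₁) + ((W - η : ℝ) : ℂ) := by
        rw [hz₁]
        ring
      rw [h2]
      refine (norm_add_le _ _).trans_lt ?_
      rw [Complex.norm_real, Real.norm_of_nonneg (by linarith), hrad]
      have : (0 : ℝ) ≤ n := Nat.cast_nonneg n
      linarith
    have hz₁m : z₁ ∈ ball (ctr σ ρ (s n)) (s n - r₁) := (hsub z₁ (mem_ball_self hη0)).1
    have hev : Jn n =ᶠ[𝓝 z₁] Jn m := by
      filter_upwards [ball_mem_nhds z₁ hη0] with z hz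
      obtain ⟨h1, h2, h3⟩ := hsub z hz
      rw [hJI n z h1 h2 h3, hJI m z (hmono n m hnm h1) h2 h3]
    exact fun z hz => ((hJd n).analyticOnNhd isOpen_ball).eqOn_of_preconnected_of_eventuallyEq
      (((hJd m).mono (hmono n m hnm)).analyticOnNhd isOpen_ball) (convex_ball _ _).isPreconnected hz₁m hev hz
  have hagree' : ∀ n m : ℕ, ∀ z, z ∈ ball (ctr σ ρ (s n)) (s n - r₁) → z ∈ ball (ctr σ ρ (s m)) (s m - r₁) → Jn n z = Jn m z := by
    intro n m z hn hm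
    rcases le_total n m with h1 | h1
    · exact hagree n m h1 z hn
    · exact (hagree m n h1 z hm).symm
  -- a ball which contains the point
  have hcov : ∀ z : ℂ, ρ + r₁ + 1 < σ * z.im → ∃ n : ℕ, z ∈ ball (ctr σ ρ (s n)) (s n - r₁) ∧ (n : ℝ) ≤ z.re ^ 2 + (σ * z.im - (ρ + r₁)) ^ 2 + 1 := by
    intro z hz
    refine ⟨⌈z.re ^ 2 + (σ * z.im - (ρ + r₁)) ^ 2⌉₊, ?_, ?_⟩
    · rw [hmem']
      have h1 := Nat.le_ceil (z.re ^ 2 + (σ * z.im - (ρ + r₁)) ^ 2)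
      set q := (⌈z.re ^ 2 + (σ * z.im - (ρ + r₁)) ^ 2⌉₊ : ℝ) with hq
      have h2 : 1 < σ * z.im - (ρ + r₁) := by linarith
      have h3 : 0 ≤ z.re ^ 2 + (σ * z.im - (ρ + r₁)) ^ 2 := by positivity
      nlinarith
    · exact (Nat.ceil_lt_add_one (by positivity)).le
  choose! N hN hNb using hcov
  set V : Set ℂ := {z : ℂ | ρ + r₁ + 1 < σ * z.im} with hV
  have hVo : IsOpen V := isOpen_lt continuous_const (by fun_prop)
  set J : ℂ → ℂ := fun z => Jn (N z) z with hJdef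
  have hJn : ∀ n : ℕ, ∀ z ∈ V, z ∈ ball (ctr σ ρ (s n)) (s n - r₁) → J z = Jn n z := fun n z hz hzn => hagree' (N z) n z (hN z hz) hzn
  have hJdiff : DifferentiableOn ℂ J V := by
    intro z hz
    have h1 : J =ᶠ[𝓝 z] Jn (N z) := by
      filter_upwards [hVo.mem_nhds hz, isOpen_ball.mem_nhds (hN z hz)] with w hw hw2
      exact hJn (N z) w hw hw2
    exact (h1.differentiableAt_iff.2 ((hJd (N z)).differentiableAt (isOpen_ball.mem_nhds (hN z hz)))).differentiableWithinAt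
  set C₂ : ℝ := r₁ + W + 4 + 2 * (ρ + r₁) ^ 2 with hC₂
  have hC₂0 : 2 ≤ C₂ := by
    rw [hC₂]
    nlinarith [sq_nonneg (ρ + r₁)]
  have hJbound : ∀ z ∈ V, ‖J z‖ ≤ C * C₂ ^ k * (1 + ‖z‖) ^ (2 * k) := by
    intro z hz
    refine (hJb (N z) z (hN z hz)).trans ?_
    have h1 : 1 + s (N z) ≤ C₂ * (1 + ‖z‖) ^ 2 := by
      have h2 := hNb z hz
      have h3 : z.re ^ 2 + z.im ^ 2 = ‖z‖ ^ 2 := by
        rw [Complex.sq_norm, Complex.normSq_apply]
        ring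
      have h4 : (σ * z.im) ^ 2 = z.im ^ 2 := by
        rw [mul_pow, pow_two σ, sq_one hσ, one_mul]
      have h5 : (σ * z.im - (ρ + r₁)) ^ 2 ≤ 2 * z.im ^ 2 + 2 * (ρ + r₁) ^ 2 := by
        nlinarith [sq_nonneg (σ * z.im + (ρ + r₁))]
      have h6 : s (N z) = r₁ + W + 1 + N z := rfl
      have h7 : 0 ≤ ‖z‖ := norm_nonneg z
      rw [h6]
      have h8 : 1 + (r₁ + W + 1 + (N z : ℝ)) ≤ C₂ + 2 * ‖z‖ ^ 2 := by
        rw [hC₂]
        nlinarith [sq_nonneg z.re]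
      nlinarith [mul_nonneg (show 0 ≤ C₂ - 2 by linarith) (sq_nonneg ‖z‖)]
    have h9 : 0 ≤ 1 + s (N z) := by linarith [hsr (N z)]
    calc C * (1 + s (N z)) ^ k ≤ C * (C₂ * (1 + ‖z‖) ^ 2) ^ k := mul_le_mul_of_nonneg_left (pow_le_pow_left₀ h9 h1 k) hC
      _ = C * C₂ ^ k * (1 + ‖z‖) ^ (2 * k) := by rw [mul_pow, ← pow_mul]; ring
  have hJzero : ∀ l : ℤ, a + p * l * Complex.I ∈ V → J (a + p * l * Complex.I) = 0 := fun l hl => hJ0 (N _) l (hN _ hl)
  have hCC : 0 ≤ C * C₂ ^ k := mul_nonneg hC (pow_nonneg (by linarith) k)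
  have hfin : ∀ z ∈ V, J z = 0 := by
    rcases hσ with h1 | h1
    · subst h1
      have hVeq : V = {z : ℂ | ρ + r₁ + 1 < z.im} := by
        rw [hV]
        simp only [one_mul]
      intro z hz
      refine zero_up (a := a) (m := 2 * k) hp (hVeq ▸ hJdiff) hCC (fun w hw => hJbound w (by rw [hVeq]; exact hw))
        (fun l hl => hJzero l (by rw [hVeq]; exact hl)) z (by rw [hVeq] at hz; exact hz)
    · subst h1
      have hVeq : ∀ z : ℂ, ρ + r₁ + 1 < z.im → -z ∈ V := by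
        intro z hz
        show ρ + r₁ + 1 < -1 * (-z).im
        rw [Complex.neg_im]
        linarith
      intro z hz
      have hz' : ρ + r₁ + 1 < (-z).im := by
        have h2 : ρ + r₁ + 1 < -1 * z.im := hz
        rw [Complex.neg_im]
        linarith
      have h2 := zero_up (J := fun w => J (-w)) (a := -a) (m := 2 * k) (ρ := ρ + r₁ + 1) hp
        (fun w hw => ((hJdiff.differentiableAt (hVo.mem_nhds (hVeq w hw))).comp w differentiableAt_id.neg).differentiableWithinAt) hCC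
        (fun w hw => by
          have h3 := hJbound (-w) (hVeq w hw)
          rwa [norm_neg] at h3) (fun l hl => by
          have h3 : -(-a + p * l * Complex.I) = a + p * ((-l : ℤ) : ℂ) * Complex.I := by
            push_cast
            ring
          have h4 := hVeq _ hl
          rw [h3] at h4
          show J (-(-a + p * l * Complex.I)) = 0
          rw [h3]
          exact hJzero (-l) h4) (-z) hz'
      simpa using h2
  intro z hz hzG hzW
  have hzV : z ∈ V := by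
    have h1 : ρ + (r₁ + 1) < σ * z.im := hz
    show ρ + r₁ + 1 < σ * z.im
    linarith
  rw [← hJI (N z) z (hN z hzV) hzG hzW]
  exact hfin z hzV

end Pool.Agent.H87.LU
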