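import Pool.Agent.H87.LU.Near
import Pool.Agent.H87.LU.Ker

/-!
# LU Half: two members of `S` which are close on a half strip agree (port of EL DyE)
-/

set_option autoImplicit false

open Topology Filter Metric

namespace Pool.Agent.H87.LU

variable {Y : Type} [MetricSpace Y] {K : Set Y} {p : ℝ} {B : Set ℂ} {δ W : ℝ} {S : Set ℂ → Set (ℂ → Y)}
    {Zr : ℂ → Y → Prop} {II : ℂ → Y → Y → ℂ}

theorem chain_real {t : ℝ} {σ : ℝ} {r : ℝ → ℝ → Prop} (htr : ∀ a b c, r a b → r b c → r a c)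
    (h1 : ∀ a b : ℝ, t ≤ σ * a → t ≤ σ * b → |a - b| ≤ 1 → r a b) {a b : ℝ} (ha : t ≤ σ * a) (hb : t ≤ σ * b) : r a b := by
  obtain ⟨n, hn⟩ := exists_nat_ge |b - a|
  have hn0 : (0 : ℝ) < (n : ℝ) + 1 := by positivity
  have hp : ∀ i : ℕ, i ≤ n + 1 → t ≤ σ * (a + (i : ℝ) / ((n : ℝ) + 1) * (b - a)) := by
    intro i hi
    have h2 : (i : ℝ) / ((n : ℝ) + 1) ≤ 1 := by
      rw [div_le_one hn0]
      exact_mod_cast hi
    have h3 : 0 ≤ (i : ℝ) / ((n : ℝ) + 1) := by positivity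
    set q := (i : ℝ) / ((n : ℝ) + 1)
    nlinarith [mul_nonneg h3 (sub_nonneg.2 hb), mul_nonneg (sub_nonneg.2 h2) (sub_nonneg.2 ha)]
  have key : ∀ i : ℕ, i ≤ n + 1 → r a (a + (i : ℝ) / ((n : ℝ) + 1) * (b - a)) := by
    intro i
    induction i with
    | zero =>
      intro _
      have h2 : a + ((0 : ℕ) : ℝ) / ((n : ℝ) + 1) * (b - a) = a := by simp
      rw [h2]
      exact h1 a a ha ha (by simp)
    | succ i ih =>
      intro hi
      refine htr _ _ _ (ih (by omega)) (h1 _ _ (hp i (by omega)) (hp (i + 1) hi) ?_)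
      have h2 : a + (i : ℝ) / ((n : ℝ) + 1) * (b - a) - (a + ((i + 1 : ℕ) : ℝ) / ((n : ℝ) + 1) * (b - a)) = -((b - a) / ((n : ℝ) + 1)) := by
        push_cast
        ring
      rw [h2, abs_neg, abs_div, abs_of_pos hn0, div_le_one hn0]
      linarith
  have h2 := key (n + 1) le_rfl
  have h3 : a + ((n + 1 : ℕ) : ℝ) / ((n : ℝ) + 1) * (b - a) = b := by
    have h4 : ((n + 1 : ℕ) : ℝ) / ((n : ℝ) + 1) = 1 := by
      push_cast
      exact div_self hn0.ne'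
    rw [h4]
    ring
  rwa [h3] at h2

theorem ball_sub_HP {σ ρ y R : ℝ} (hσ : σ = 1 ∨ σ = -1) (h : ρ + R ≤ σ * y) : ball ((y : ℂ) * Complex.I) R ⊆ HP σ ρ := by
  intro z hz
  rw [mem_ball, dist_eq_norm] at hz
  have h1 := (Complex.abs_im_le_norm (z - (y : ℂ) * Complex.I)).trans_lt hz
  have h2 : (z - (y : ℂ) * Complex.I).im = z.im - y := by simp
  rw [h2] at h1
  have h3 : |σ * (z.im - y)| < R := by
    have h4 : |σ| = 1 := by rcases hσ with rfl | rfl <;> norm_num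
    rw [abs_mul, h4, one_mul]
    exact h1
  have h4 := (abs_lt.1 h3).1
  show ρ < σ * z.im
  nlinarith

theorem HP_anti {σ ρ ρ' : ℝ} (h : ρ ≤ ρ') : HP σ ρ' ⊆ HP σ ρ := fun _ hz => lt_of_le_of_lt h hz

theorem UDyn.res_HP (h : UDyn K p B δ W S Zr II) {σ ρ ρ' : ℝ} (hρ : ρ ≤ ρ') {f : ℂ → Y} (hf : f ∈ S (HP σ ρ)) : f ∈ S (HP σ ρ') :=
  h.anti _ _ (isOpen_HP σ ρ) (convex_HP σ ρ) (isOpen_HP σ ρ') (convex_HP σ ρ') (HP_anti hρ) hf

theorem UDyn.res_univ (h : UDyn K p B δ W S Zr II) {Ω : Set ℂ} (hΩ : IsOpen Ω) (hΩc : Convex ℝ Ω) {f : ℂ → Y} (hf : f ∈ S Set.univ) : f ∈ S Ω :=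
  h.anti _ _ isOpen_univ convex_univ hΩ hΩc (Set.subset_univ _) hf

theorem UDyn.half_plane (h : UDyn K p B δ W S Zr II) : ∃ ε : ℝ, 0 < ε ∧ ∀ σ ρ : ℝ, (σ = 1 ∨ σ = -1) → ∀ f ∈ S (HP σ ρ), ∀ g ∈ S (HP σ ρ),
    (∀ z ∈ HP σ ρ, z ∈ Gd B δ → |z.re| ≤ W → dist (f z) (g z) ≤ ε) → AgO B (HP σ ρ) f g := by
  obtain ⟨ε₁, n₁, hε₁, hn₁, hsep⟩ := h.sep
  obtain ⟨ε₂, R₂, hε₂, hR₂, hrig⟩ := h.rigid
  obtain ⟨r', ε₀, hr', hε₀, hzero⟩ := h.half_zero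
  have hW := h.W_pos
  obtain ⟨ε', hε'def⟩ : ∃ ε' : ℝ, ε' = min (min (ε₁ / 2) ε₂) ε₀ := ⟨_, rfl⟩
  have hε' : 0 < ε' := by
    rw [hε'def]
    exact lt_min (lt_min (by positivity) hε₂) hε₀
  have hε'1 : ε' ≤ ε₁ / 2 := by
    rw [hε'def]
    exact (min_le_left _ _).trans (min_le_left _ _)
  have hε'2 : ε' ≤ ε₂ := by
    rw [hε'def]
    exact (min_le_left _ _).trans (min_le_right _ _)
  have hε'0 : ε' ≤ ε₀ := by
    rw [hε'def]
    exact min_le_right _ _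
  obtain ⟨ε₃, R₃, hε₃, hR₃, hnear⟩ := h.near_zs hε' (n₁ + W + 2)
  refine ⟨min ε₃ ε₀, lt_min hε₃ hε₀, ?_⟩
  intro σ ρ hσ f hf g hg hclose
  by_contra hag
  have hσa : |σ| = 1 := by rcases hσ with rfl | rfl <;> norm_num
  have hσσ := sq_one hσ
  -- (1)
  have h1 : ∀ z ∈ HP σ (ρ + r'), z ∈ Gd B (2 * δ) → |z.re| < W → II z (f z) (g z) = 0 :=
    hzero σ ρ hσ f hf g hg fun z hz hzG hzW => (hclose z hz hzG hzW).trans (min_le_right _ _)
  -- (2)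
  have h2 : ∀ y : ℝ, ρ + r' + R₃ ≤ σ * y → ∃ e ∈ ZS B δ W S Zr, Cl B δ W f e y (n₁ + W + 2) ε' ∧ Cl B δ W g e y (n₁ + W + 2) ε' := by
    intro y hy
    refine hnear (HP σ ρ) (isOpen_HP σ ρ) (convex_HP σ ρ) f hf g hg hag y (ball_sub_HP hσ (by linarith)) ?_ ?_
    · intro z hz hzG hzW
      exact (hclose z (ball_sub_HP hσ (by linarith) hz) hzG hzW).trans (min_le_left _ _)
    · intro z hz hzG hzW
      exact h1 z (ball_sub_HP hσ (by linarith) hz) hzG hzW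
  have : Nonempty (ℂ → Y) := ⟨f⟩
  choose! e heZ hef heg using h2
  -- (3)
  have h3 : ∀ a b : ℝ, ρ + r' + R₃ ≤ σ * a → ρ + r' + R₃ ≤ σ * b → AgO B Set.univ (e a) (e b) := by
    intro a b ha hb
    refine chain_real (r := fun a b => AgO B Set.univ (e a) (e b)) (t := ρ + r' + R₃) (σ := σ) ?_ ?_ ha hb
    · intro a b c hab hbc z hz hzB
      exact (hab z hz hzB).trans (hbc z hz hzB)
    · intro a b ha hb hab
      refine hsep _ (heZ a ha) _ (heZ b hb) a ?_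
      intro z hz hzG hzW
      rw [mem_ball, dist_eq_norm] at hz
      have h4 := hef a ha z (by rw [mem_ball, dist_eq_norm]; linarith) hzG hzW
      have h5 : ‖z - (b : ℂ) * Complex.I‖ < n₁ + W + 2 := by
        have h6 : z - (b : ℂ) * Complex.I = (z - (a : ℂ) * Complex.I) + ((a - b : ℝ) : ℂ) * Complex.I := by
          push_cast
          ring
        rw [h6]
        refine (norm_add_le _ _).trans_lt ?_
        rw [norm_mul, Complex.norm_I, mul_one, Complex.norm_real, Real.norm_eq_abs]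
        linarith
      have h7 := hef b hb z (by rw [mem_ball, dist_eq_norm]; exact h5) hzG hzW
      have h8 := dist_triangle_left (e a z) (e b z) (f z)
      linarith
  set y₀ : ℝ := σ * (ρ + r' + R₃) with hy₀
  have hy₀' : σ * y₀ = ρ + r' + R₃ := by rw [hy₀, ← mul_assoc, hσσ, one_mul]
  set E := e y₀ with hE
  have hEZ : E ∈ ZS B δ W S Zr := heZ y₀ hy₀'.ge
  set ρ₂ : ℝ := ρ + r' + R₃ with hρ₂
  have h4 : ∀ z ∈ HP σ ρ₂, z ∈ Gd B δ → |z.re| ≤ W → dist (f z) (E z) ≤ ε' ∧ dist (g z) (E z) ≤ ε' := by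
    intro z hz hzG hzW
    have hz' : ρ₂ < σ * z.im := hz
    have hzb : z ∈ ball ((z.im : ℂ) * Complex.I) (n₁ + W + 2) := by
      rw [mem_ball, dist_eq_norm]
      have h6 : z - (z.im : ℂ) * Complex.I = ((z.re : ℝ) : ℂ) := by
        apply Complex.ext <;> simp
      rw [h6, Complex.norm_real, Real.norm_eq_abs]
      linarith
    have h5 := h3 z.im y₀ hz'.le hy₀'.ge z (Set.mem_univ z) (gd_notMem h.δ_pos hzG)
    rw [hE, ← h5]
    exact ⟨hef z.im hz'.le z hzb hzG hzW, heg z.im hz'.le z hzb hzG hzW⟩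
  -- (4)
  have hES : E ∈ S (HP σ ρ₂) := h.res_univ (isOpen_HP _ _) (convex_HP _ _) hEZ.1
  have hfS : f ∈ S (HP σ ρ₂) := h.res_HP (by rw [hρ₂]; linarith) hf
  have hgS : g ∈ S (HP σ ρ₂) := h.res_HP (by rw [hρ₂]; linarith) hg
  have h5 : ∀ z ∈ HP σ (ρ₂ + r'), z ∈ Gd B (2 * δ) → |z.re| < W → II z (E z) (f z) = 0 :=
    hzero σ ρ₂ hσ E hES f hfS fun z hz hzG hzW => by
      rw [dist_comm]
      exact (h4 z hz hzG hzW).1.trans hε'0
  have h6 : ∀ z ∈ HP σ (ρ₂ + r'), z ∈ Gd B (2 * δ) → |z.re| < W → II z (E z) (g z) = 0 :=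
    hzero σ ρ₂ hσ E hES g hgS fun z hz hzG hzW => by
      rw [dist_comm]
      exact (h4 z hz hzG hzW).2.trans hε'0
  -- (5)
  set y₃ : ℝ := σ * (ρ₂ + r' + R₂) with hy₃
  have hy₃' : σ * y₃ = ρ₂ + r' + R₂ := by rw [hy₃, ← mul_assoc, hσσ, one_mul]
  have hb3 : ball ((y₃ : ℂ) * Complex.I) R₂ ⊆ HP σ (ρ₂ + r') := ball_sub_HP hσ hy₃'.ge
  have hρρ : ρ ≤ ρ₂ + r' := by rw [hρ₂]; linarith
  have hρρ' : ρ₂ ≤ ρ₂ + r' := by linarith
  have h7 : AgO B (HP σ ρ) E f := hrig E hEZ (HP σ ρ) (isOpen_HP _ _) (convex_HP _ _) f hf y₃ (hb3.trans (HP_anti hρρ))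
    (fun z hz hzG hzW => (h4 z (HP_anti hρρ' (hb3 hz)) hzG hzW).1.trans hε'2) fun z hz hzG hzW => h5 z (hb3 hz) hzG hzW
  have h8 : AgO B (HP σ ρ) E g := hrig E hEZ (HP σ ρ) (isOpen_HP _ _) (convex_HP _ _) g hg y₃ (hb3.trans (HP_anti hρρ))
    (fun z hz hzG hzW => (h4 z (HP_anti hρρ' (hb3 hz)) hzG hzW).2.trans hε'2) fun z hz hzG hzW => h6 z (hb3 hz) hzG hzW
  exact hag fun z hz hzB => (h7 z hz hzB).symm.trans (h8 z hz hzB)

end Pool.Agent.H87.LU
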