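import Pool.Agent.H87.LU.LeftB
import Pool.Agent.H87.JZ.GlueFull

/-!
# LU JTrue: the function `J` on a ball, for two true sections
-/

set_option autoImplicit false

open Topology Filter Metric

namespace Pool.Agent.H87.LU

open Pool.Agent.H87.JZ (three_pieces)

variable {Y : Type} [MetricSpace Y] {T : Set ℂ → Set (ℂ → Y)} {II : ℂ → Y → Y → ℂ} {T₁ : ℝ}

theorem neg_ball (c : ℂ) (R : ℝ) : {z : ℂ | -z ∈ ball c R} = ball (-c) R := by
  ext z
  simp only [Set.mem_setOf_eq, mem_ball, dist_eq_norm]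
  rw [show -z - c = -(z - -c) by ring, norm_neg]

theorem rfT_mem {c : ℂ} {R : ℝ} {f : ℂ → Y} (hf : f ∈ T (ball c R)) : (fun z => f (-z)) ∈ rfT T (ball (-c) R) := by
  show (fun z => f (- -z)) ∈ T {z | -z ∈ ball (-c) R}
  rw [neg_ball, neg_neg]
  simpa only [neg_neg] using hf

theorem rfT_anti (hT : ∀ (c c' : ℂ) (R R' : ℝ), ball c' R' ⊆ ball c R → T (ball c R) ⊆ T (ball c' R')) :
    ∀ (c c' : ℂ) (R R' : ℝ), ball c' R' ⊆ ball c R → rfT T (ball c R) ⊆ rfT T (ball c' R') := by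
  intro c c' R R' h f hf
  have h1 : (fun z => f (-z)) ∈ T {z | -z ∈ ball c R} := hf
  show (fun z => f (-z)) ∈ T {z | -z ∈ ball c' R'}
  rw [neg_ball] at h1 ⊢
  refine hT (-c) (-c') R R' ?_ h1
  intro z hz
  have h2 : -z ∈ ball c' R' := by
    have : z ∈ {z : ℂ | -z ∈ ball c' R'} := by rw [neg_ball]; exact hz
    exact this
  have h3 : z ∈ {z : ℂ | -z ∈ ball c R} := h h2
  rwa [neg_ball] at h3

theorem exists_J_true {B : Set ℂ} {δ ε₀ r₁ C : ℝ} (E : LEnd T II T₁) (E' : LEnd (rfT T) (rfI II) T₁) (hM : Mid T II B δ (T₁ + 10) ε₀ r₁ C)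
    (hε₀ : 0 < ε₀) (hC : 0 ≤ C) (hT₁ : 0 < T₁) (hδ : 0 < δ) (hδ1 : δ ≤ 1) (hB : ∀ b ∈ B, |b.re| ≤ T₁)
    (hT : ∀ (c c' : ℂ) (R R' : ℝ), ball c' R' ⊆ ball c R → T (ball c R) ⊆ T (ball c' R')) :
    ∃ (ε' r A : ℝ) (m : ℕ), 0 < ε' ∧ ε' ≤ ε₀ ∧ 0 < r ∧ r₁ ≤ r ∧ 0 ≤ A ∧ ∀ (c : ℂ) (R : ℝ), c.re = 0 → r < R → ∀ f ∈ T (ball c R), ∀ g ∈ T (ball c R),
      (∀ z ∈ ball c R, z ∈ Gd B δ → |z.re| ≤ T₁ + 10 → dist (f z) (g z) ≤ ε') →
      ∃ J : ℂ → ℂ, DifferentiableOn ℂ J (ball c (R - r)) ∧ (∀ z ∈ ball c (R - r), ‖J z‖ ≤ A * (1 + R) ^ m) ∧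
        ∀ z ∈ ball c (R - r), z ∈ Gd B (2 * δ) → |z.re| < T₁ + 10 → J z = II z (f z) (g z) := by
  obtain ⟨ε₁, A₁, m₁, hε₁, hA₁, hL⟩ := E.left hT₁ hT
  obtain ⟨ε₂, A₂, m₂, hε₂, hA₂, hR'⟩ := E'.left hT₁ (rfT_anti hT)
  have hrE := E.r₁_ge
  have hrE' := E'.r₁_ge
  set r : ℝ := max r₁ (max (E.r₁ + 3) (E'.r₁ + 3)) with hr
  have hr1 : r₁ ≤ r := le_max_left _ _
  have hr2 : E.r₁ + 3 ≤ r := (le_max_left _ _).trans (le_max_right _ _)
  have hr3 : E'.r₁ + 3 ≤ r := (le_max_right _ _).trans (le_max_right _ _)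
  refine ⟨min ε₀ (min ε₁ ε₂), r, C + A₁ + A₂, m₁ + m₂, lt_min hε₀ (lt_min hε₁ hε₂), min_le_left _ _, by linarith, hr1, by positivity,
    fun c R hc hR f hf g hg hclose => ?_⟩
  have hgd : ∀ z : ℂ, T₁ + 2 * δ ≤ |z.re| → z ∈ Gd B (2 * δ) := by
    intro z hz b hb
    have h1 := hB b hb
    have h2 : |z.re - b.re| ≤ ‖z - b‖ := by
      rw [← Complex.sub_re]
      exact Complex.abs_re_le_norm _
    have h3 : |z.re| - |b.re| ≤ |z.re - b.re| := abs_sub_abs_le_abs_sub _ _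
    linarith
  have hgd1 : ∀ z : ℂ, T₁ + 1 ≤ |z.re| → z ∈ Gd B δ := by
    intro z hz b hb
    have h1 := hB b hb
    have h2 : |z.re - b.re| ≤ ‖z - b‖ := by
      rw [← Complex.sub_re]
      exact Complex.abs_re_le_norm _
    have h3 : |z.re| - |b.re| ≤ |z.re - b.re| := abs_sub_abs_le_abs_sub _ _
    linarith
  have hR1 : 1 ≤ 1 + R := by linarith
  -- the middle
  obtain ⟨J₀, hJ₀1, hJ₀2, hJ₀3⟩ := hM c R hc f hf g hg fun z hz h1 h2 => (hclose z hz h1 h2).trans (min_le_left _ _)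
  -- the left part
  obtain ⟨JL, hJL1, hJL2, hJL3⟩ := hL c R hc (by linarith) f hf g hg fun t ht h1 h2 => by
    have h3 : |t.re| = -t.re := abs_of_neg (by linarith)
    exact (hclose t ht (hgd1 t (by rw [h3]; linarith)) (by rw [h3]; linarith)).trans ((min_le_right _ _).trans (min_le_left _ _))
  -- the right part
  have hmemneg : ∀ (ρ : ℝ) (t : ℂ), t ∈ ball c ρ → -t ∈ ball (-c) ρ := by
    intro ρ t ht
    rw [mem_ball, dist_eq_norm] at ht ⊢
    rw [show -t - -c = -(t - c) by ring, norm_neg]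
    exact ht
  have hmemneg' : ∀ (ρ : ℝ) (t : ℂ), t ∈ ball (-c) ρ → -t ∈ ball c ρ := by
    intro ρ t ht
    rw [mem_ball, dist_eq_norm] at ht ⊢
    rw [show -t - c = -(t - -c) by ring, norm_neg]
    exact ht
  obtain ⟨JR, hJR1, hJR2, hJR3⟩ := hR' (-c) R (by rw [Complex.neg_re, hc, neg_zero]) (by linarith) _ (rfT_mem hf) _ (rfT_mem hg) fun t ht h1 h2 => by
    have h3 : |(-t).re| = -t.re := by rw [Complex.neg_re]; exact abs_of_pos (by linarith)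
    exact (hclose (-t) (hmemneg' R t ht) (hgd1 (-t) (by rw [h3]; linarith)) (by rw [h3]; linarith)).trans ((min_le_right _ _).trans (min_le_right _ _))
  set V : Set ℂ := ball c (R - r) with hV
  have hV1 : ∀ t ∈ V, t ∈ ball c (R - r₁) := fun t ht => ball_subset_ball (by linarith) ht
  have hV2 : ∀ t ∈ V, t ∈ ball c (R - (E.r₁ + 3)) := fun t ht => ball_subset_ball (by linarith) ht
  have hV3 : ∀ t ∈ V, -t ∈ ball (-c) (R - (E'.r₁ + 3)) := fun t ht => hmemneg _ t (ball_subset_ball (by linarith) ht)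
  obtain ⟨J, hJd, hJL, hJ0, hJR⟩ := three_pieces (S := V) isOpen_ball (a := -T₁ - 11 / 2) (b := T₁ + 11 / 2) (d := 1 / 2) (by norm_num) (by linarith)
    (JL := JL) (J₀ := J₀) (JR := fun t => JR (-t))
    (hJL1.mono fun t ht => ⟨hV2 t ht.1, by linarith [ht.2]⟩)
    (hJ₀1.mono fun t ht => ⟨hV1 t ht.1, abs_lt.2 ⟨by linarith [ht.2.1], by linarith [ht.2.2]⟩⟩)
    (hJR1.comp differentiable_neg.differentiableOn fun t ht => ⟨hV3 t ht.1, by
      show (-t).re < _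
      rw [Complex.neg_re]
      linarith [ht.2]⟩)
    (fun t ht h1 h2 => by
      have h3 : |t.re| = -t.re := abs_of_neg (by linarith)
      rw [hJL2 t (hV2 t ht) (by linarith) (by linarith), hJ₀3 t (hV1 t ht) (hgd t (by rw [h3]; linarith)) (by rw [h3]; linarith)])
    (fun t ht h1 h2 => by
      have h3 : |t.re| = t.re := abs_of_pos (by linarith)
      have h4 := hJR2 (-t) (hV3 t ht) (by rw [Complex.neg_re]; linarith) (by rw [Complex.neg_re]; linarith)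
      simp only [rfI, neg_neg] at h4
      rw [h4, hJ₀3 t (hV1 t ht) (hgd t (by rw [h3]; linarith)) (by rw [h3]; linarith)])
  refine ⟨J, hJd, ?_, ?_⟩
  · intro z hz
    have p1 : (1 + R) ^ m₁ ≤ (1 + R) ^ (m₁ + m₂) := pow_le_pow_right₀ hR1 (by omega)
    have p2 : (1 + R) ^ m₂ ≤ (1 + R) ^ (m₁ + m₂) := pow_le_pow_right₀ hR1 (by omega)
    have p3 : 1 ≤ (1 + R) ^ (m₁ + m₂) := one_le_pow₀ hR1
    have q1 : A₁ * (1 + R) ^ m₁ ≤ A₁ * (1 + R) ^ (m₁ + m₂) := mul_le_mul_of_nonneg_left p1 hA₁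
    have q2 : A₂ * (1 + R) ^ m₂ ≤ A₂ * (1 + R) ^ (m₁ + m₂) := mul_le_mul_of_nonneg_left p2 hA₂
    have q3 : C * 1 ≤ C * (1 + R) ^ (m₁ + m₂) := mul_le_mul_of_nonneg_left p3 hC
    have q4 : 0 ≤ A₁ * (1 + R) ^ (m₁ + m₂) := by positivity
    have q5 : 0 ≤ A₂ * (1 + R) ^ (m₁ + m₂) := by positivity
    have q6 : 0 ≤ C * (1 + R) ^ (m₁ + m₂) := by positivity
    have q7 : (C + A₁ + A₂) * (1 + R) ^ (m₁ + m₂) = C * (1 + R) ^ (m₁ + m₂) + A₁ * (1 + R) ^ (m₁ + m₂) + A₂ * (1 + R) ^ (m₁ + m₂) := by ring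
    rw [q7]
    rcases lt_or_ge z.re (-T₁ - 5) with h1 | h1
    · rw [hJL z hz (by linarith)]
      linarith [hJL3 z (hV2 z hz) h1]
    · rcases lt_or_ge (T₁ + 5) z.re with h2 | h2
      · rw [hJR z hz (by linarith)]
        linarith [hJR3 (-z) (hV3 z hz) (by rw [Complex.neg_re]; linarith)]
      · rw [hJ0 z hz (by linarith) (by linarith)]
        linarith [hJ₀2 z (hV1 z hz) (abs_lt.2 ⟨by linarith, by linarith⟩)]
  · intro z hz hzG hzW
    -- `J = J₀` on the whole strip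
    set Q : Set ℂ := V ∩ ({t : ℂ | t.re < T₁ + 10} ∩ {t : ℂ | -(T₁ + 10) < t.re}) with hQ
    have hQo : IsOpen Q := isOpen_ball.inter ((isOpen_lt Complex.continuous_re continuous_const).inter (isOpen_lt continuous_const Complex.continuous_re))
    have hQc : Convex ℝ Q := (convex_ball _ _).inter ((convex_halfSpace_re_lt _).inter (convex_halfSpace_re_gt _))
    have hcV : c ∈ V := mem_ball_self (by linarith)
    have hcQ : c ∈ Q := ⟨hcV, by show c.re < _; rw [hc]; linarith, by show _ < c.re; rw [hc]; linarith⟩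
    have hev : J =ᶠ[𝓝 c] J₀ := by
      have h5 : V ∩ ({t : ℂ | t.re < 1} ∩ {t : ℂ | -1 < t.re}) ∈ 𝓝 c :=
        (isOpen_ball.inter ((isOpen_lt Complex.continuous_re continuous_const).inter (isOpen_lt continuous_const Complex.continuous_re))).mem_nhds
          ⟨hcV, by show c.re < _; rw [hc]; norm_num, by show _ < c.re; rw [hc]; norm_num⟩
      filter_upwards [h5] with w hw
      obtain ⟨w1, w2, w3⟩ := hw
      have w2 : w.re < 1 := w2
      have w3 : -1 < w.re := w3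
      exact hJ0 w w1 (by linarith) (by linarith)
    have hzQ : z ∈ Q := by
      obtain ⟨h1, h2⟩ := abs_lt.1 hzW
      exact ⟨hz, h2, h1⟩
    have h6 : J z = J₀ z := ((hJd.mono fun t ht => ht.1).analyticOnNhd hQo).eqOn_of_preconnected_of_eventuallyEq
      ((hJ₀1.mono fun t ht => ⟨hV1 t ht.1, abs_lt.2 ⟨ht.2.2, ht.2.1⟩⟩ : DifferentiableOn ℂ J₀ Q).analyticOnNhd hQo) hQc.isPreconnected hcQ hev hzQ
    rw [h6, hJ₀3 z (hV1 z hz) hzG hzW]

end Pool.Agent.H87.LU
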