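import Pool.Agent.H87.LU.ChainL
import Pool.Agent.H87.LU.GlueB

/-!
# LU LeftB: the function `J` in the left part of a ball
-/

set_option autoImplicit false

open Topology Filter Metric

namespace Pool.Agent.H87.LU

variable {Y : Type} [MetricSpace Y] {T : Set ℂ → Set (ℂ → Y)} {II : ℂ → Y → Y → ℂ} {T₁ : ℝ}

theorem LEnd.left (E : LEnd T II T₁) (hT₁ : 0 < T₁) (hT : ∀ (c c' : ℂ) (R R' : ℝ), ball c' R' ⊆ ball c R → T (ball c R) ⊆ T (ball c' R')) :
    ∃ (ε' A : ℝ) (m : ℕ), 0 < ε' ∧ 0 ≤ A ∧ ∀ (c : ℂ) (R : ℝ), c.re = 0 → E.r₁ + 3 < R → ∀ f ∈ T (ball c R), ∀ g ∈ T (ball c R),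
      (∀ t ∈ ball c R, -T₁ - 10 ≤ t.re → t.re ≤ -T₁ - 1 → dist (f t) (g t) ≤ ε') →
      ∃ J : ℂ → ℂ, DifferentiableOn ℂ J {t | t ∈ ball c (R - (E.r₁ + 3)) ∧ t.re < -T₁ - 5} ∧
        (∀ t ∈ ball c (R - (E.r₁ + 3)), -T₁ - 6 < t.re → t.re < -T₁ - 5 → J t = II t (f t) (g t)) ∧
        ∀ t ∈ ball c (R - (E.r₁ + 3)), t.re < -T₁ - 5 → ‖J t‖ ≤ A * (1 + R) ^ m := by
  have hC := E.C_nonneg
  have hr := E.r₁_ge
  obtain ⟨δ, A, m, hδ, hδ1, hδε, hA, hch⟩ := E.chain hT₁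
  obtain ⟨ε', hε', hseam⟩ := E.seam
  refine ⟨ε', 2 * A + E.C * (3 + 2 * E.C + E.C), m + E.k + 1, hε', by positivity, fun c R hc hR f hf g hg hclose => ?_⟩
  have hR1 : 1 ≤ 1 + R := by linarith
  set V : Set ℂ := ball c (R - (E.r₁ + 3)) with hV
  have hre0 : ∀ y : ℝ, (ck T₁ y 0).re = -T₁ - 5 := fun y => by
    show -T₁ - 5 - ((0 : ℕ) : ℝ) = _
    rw [Nat.cast_zero, sub_zero]
  have him0 : ∀ y : ℝ, (ck T₁ y 0).im = y := fun y => rfl
  refine glue_bstrips (X₁ := -T₁ - 6) (X₂ := -T₁ - 5) isOpen_ball (convex_ball _ _) hδ (by linarith) ?_ ?_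
  · intro t ht h1
    rw [mem_ball, dist_eq_norm] at ht ⊢
    refine lt_of_le_of_lt ?_ ht
    have h2 := norm_le_of_re (c := c) (t := t) (w := ⟨max t.re ((-T₁ - 6 + (-T₁ - 5)) / 2), t.im⟩) hc (by
      show |max t.re ((-T₁ - 6 + (-T₁ - 5)) / 2)| ≤ |t.re|
      have h3 : max t.re ((-T₁ - 6 + (-T₁ - 5)) / 2) < 0 := max_lt (by linarith) (by linarith)
      rw [abs_of_neg h3, abs_of_neg (by linarith)]
      linarith [le_max_left t.re ((-T₁ - 6 + (-T₁ - 5)) / 2)])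
    simpa using h2
  · rintro y ⟨t₀, ht₀, ht₀re, ht₀im⟩
    -- the center
    have hc0 : ck T₁ y 0 ∈ ball c (R - (E.r₁ + 2)) := by
      rw [mem_ball, dist_eq_norm] at ht₀
      rw [mem_ball, dist_eq_norm]
      have h2 := norm_le_of_re (c := c) (t := t₀) (w := ck T₁ y 0) hc (by
        rw [hre0, abs_of_neg (by linarith), abs_of_neg (by linarith)]
        linarith)
      rw [him0, ht₀im, sub_self, abs_zero, add_zero] at h2
      linarith
    have hc0n : ‖ck T₁ y 0 - c‖ < R - (E.r₁ + 2) := by rwa [mem_ball, dist_eq_norm] at hc0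
    have hsub : ∀ ρ : ℝ, ρ ≤ E.r₁ → ball (ck T₁ y 0) ρ ⊆ ball c R := by
      intro ρ hρ w hw
      rw [mem_ball, dist_eq_norm] at hw ⊢
      have h1 : w - c = (w - ck T₁ y 0) + (ck T₁ y 0 - c) := by ring
      rw [h1]
      refine (norm_add_le _ _).trans_lt ?_
      linarith
    obtain ⟨i, h, Φf, ⟨hrd, hrep⟩, hΦd, hΦP, hΦb⟩ := hch c R hc hR f hf y hc0
    obtain ⟨j, h₂, Φg, ⟨hrd₂, hrep₂⟩, hΦd₂, hΦP₂, hΦb₂⟩ := hch c R hc hR g hg y hc0
    have hfT : f ∈ T (ball (ck T₁ y 0) E.r₁) := hT c _ R _ (hsub _ le_rfl) hf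
    have hgT : g ∈ T (ball (ck T₁ y 0) E.r₁) := hT c _ R _ (hsub _ le_rfl) hg
    obtain ⟨h', hh'd, hh'⟩ := hseam (ck T₁ y 0) i h f g (by rw [hre0]; linarith) (by rw [hre0]; linarith) hfT hgT hrd
      (fun t ht => ⟨(hrep t ht).1, (hrep t ht).2.1⟩) fun t ht => by
        have h1 : t ∈ ball c R := hsub 4 hr ht
        rw [mem_ball, dist_eq_norm] at ht
        have h2 := (Complex.abs_re_le_norm (t - ck T₁ y 0)).trans_lt ht
        rw [Complex.sub_re, hre0, abs_lt] at h2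
        exact hclose t h1 (by linarith [h2.1]) (by linarith [h2.2])
    have m3 : ck T₁ y 0 ∈ ball (ck T₁ y 0) 3 := mem_ball_self (by norm_num)
    have m4 : ck T₁ y 0 ∈ ball (ck T₁ y 0) 4 := mem_ball_self (by norm_num)
    obtain ⟨a1, a2, a3, a4⟩ := hh' _ m3
    obtain ⟨b1, b2, b3⟩ := hrep₂ _ m4
    obtain ⟨d1, d2, d3⟩ := hrep _ m4
    obtain ⟨D, hD1, hD2, hD3⟩ := E.link i j (ck T₁ y 0) (h' (ck T₁ y 0)) (h₂ (ck T₁ y 0)) (by rw [hre0]; linarith) a1 (E.sub _ b1) (by rw [← a2, ← b2])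
    have hDloc := hD3 h' h₂ (hh'd.analyticAt (isOpen_ball.mem_nhds m3)) (hrd₂.analyticAt (isOpen_ball.mem_nhds m4)) rfl rfl (by
      filter_upwards [isOpen_ball.mem_nhds m3, isOpen_ball.mem_nhds m4] with t ha hb
      exact ⟨(hh' t ha).1, E.sub _ (hrep₂ t hb).1, by rw [← (hh' t ha).2.1, ← (hrep₂ t hb).2.1]⟩)
    -- the rectangle
    set Q : Set ℂ := {t : ℂ | t.re < -T₁ - 5 + δ} ∩ ({t : ℂ | -T₁ - 6 < t.re} ∩ ({t : ℂ | t.im < y + δ} ∩ {t : ℂ | y - δ < t.im})) with hQ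
    have hQo : IsOpen Q := (isOpen_lt Complex.continuous_re continuous_const).inter ((isOpen_lt continuous_const Complex.continuous_re).inter
      ((isOpen_lt Complex.continuous_im continuous_const).inter (isOpen_lt continuous_const Complex.continuous_im)))
    have hQc : Convex ℝ Q := (convex_halfSpace_re_lt _).inter ((convex_halfSpace_re_gt _).inter ((convex_halfSpace_im_lt _).inter (convex_halfSpace_im_gt _)))
    have hQ3 : Q ⊆ ball (ck T₁ y 0) 3 := by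
      rintro t ⟨q1, q2, q3, q4⟩
      have q1 : t.re < -T₁ - 5 + δ := q1
      have q2 : -T₁ - 6 < t.re := q2
      have q3 : t.im < y + δ := q3
      have q4 : y - δ < t.im := q4
      rw [mem_ball, dist_eq_norm]
      refine lt_of_le_of_lt (Complex.norm_le_abs_re_add_abs_im _) ?_
      rw [Complex.sub_re, Complex.sub_im, hre0, him0]
      have h4 : |t.re - (-T₁ - 5)| ≤ 1 := by
        rw [abs_le]
        constructor <;> linarith
      have h5 : |t.im - y| ≤ 1 := by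
        rw [abs_le]
        constructor <;> linarith
      linarith
    have hQ4 : Q ⊆ ball (ck T₁ y 0) 4 := hQ3.trans (ball_subset_ball (by norm_num))
    have hQS : Q ⊆ Stp (ck T₁ y 0) E.ε := by
      rintro t ⟨q1, q2, q3, q4⟩
      have q1 : t.re < -T₁ - 5 + δ := q1
      have q3 : t.im < y + δ := q3
      have q4 : y - δ < t.im := q4
      refine ⟨?_, ?_⟩
      · rw [hre0]
        linarith
      · rw [him0, abs_lt]
        constructor <;> linarith
    have hcQ : ck T₁ y 0 ∈ Q := ⟨by show (ck T₁ y 0).re < _; rw [hre0]; linarith, by show _ < (ck T₁ y 0).re; rw [hre0]; linarith,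
      by show y < _; linarith, by show _ < y; linarith⟩
    have hDQ : ∀ t ∈ Q, E.P i t (h' t) - E.P j t (h₂ t) = D t := by
      have hd1 : DifferentiableOn ℂ (fun t => E.P i t (h' t) - E.P j t (h₂ t)) Q := by
        refine DifferentiableOn.sub ?_ ?_
        · exact (E.P_an i (ball (ck T₁ y 0) 3) h' isOpen_ball hh'd fun t ht => (hh' t ht).1).mono hQ3
        · exact (E.P_an j (ball (ck T₁ y 0) 4) h₂ isOpen_ball hrd₂ fun t ht => E.sub _ (hrep₂ t ht).1).mono hQ4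
      exact fun t ht => (hd1.analyticOnNhd hQo).eqOn_of_preconnected_of_eventuallyEq ((hD1.mono hQS).analyticOnNhd hQo) hQc.isPreconnected hcQ hDloc ht
    have hstp : ∀ t : ℂ, t.re < -T₁ - 5 → |t.im - y| < δ → t ∈ Stp (ck T₁ y 0) E.ε := by
      intro t h1 h2
      refine ⟨?_, ?_⟩
      · rw [hre0]
        linarith [E.ε_pos]
      · rw [him0]
        linarith
    have hStpo : IsOpen (Stp (ck T₁ y 0) E.ε) := by
      unfold Stp
      exact (isOpen_lt Complex.continuous_re continuous_const).inter (isOpen_lt (Complex.continuous_im.sub continuous_const).abs continuous_const)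
    refine ⟨fun t => Φg t + D t - Φf t, ?_, ?_, ?_⟩
    · have e1 : DifferentiableOn ℂ Φg {t | t ∈ V ∧ t.re < -T₁ - 5 ∧ |t.im - y| < δ} := hΦd₂.mono fun t ht => ⟨ht.1, by linarith [ht.2.1], ht.2.2⟩
      have e2 : DifferentiableOn ℂ Φf {t | t ∈ V ∧ t.re < -T₁ - 5 ∧ |t.im - y| < δ} := hΦd.mono fun t ht => ⟨ht.1, by linarith [ht.2.1], ht.2.2⟩
      have e3 : DifferentiableOn ℂ D {t | t ∈ V ∧ t.re < -T₁ - 5 ∧ |t.im - y| < δ} := hD1.mono fun t ht => hstp t ht.2.1 ht.2.2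
      exact (e1.add e3).sub e2
    · intro t ht h1 h2 h3
      have h4 := abs_lt.1 h3
      have htQ : t ∈ Q := ⟨by show t.re < _; linarith, h1, by show t.im < _; linarith [h4.2], by show _ < t.im; linarith [h4.1]⟩
      have e1 := hΦP t ht h1 (by linarith) h3
      have e2 := hΦP₂ t ht h1 (by linarith) h3
      have e3 := hDQ t htQ
      have e4 := (hh' t (hQ3 htQ)).2.2.2
      show Φg t + D t - Φf t = _
      rw [e1, e2, ← e3, e4]
      ring
    · intro t ht h1 h2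
      have e1 := hΦb t ht (by linarith) h2
      have e2 := hΦb₂ t ht (by linarith) h2
      have e3 := hD2 t (hstp t h1 h2)
      have h3 : ‖t - ck T₁ y 0‖ ≤ 2 * R := by
        have h4 : t - ck T₁ y 0 = (t - c) - (ck T₁ y 0 - c) := by ring
        rw [h4]
        refine (norm_sub_le _ _).trans ?_
        rw [mem_ball, dist_eq_norm] at ht
        linarith
      have h5 : ‖h' (ck T₁ y 0)‖ ≤ E.C * (1 + R) ^ E.k + E.C := a3.trans (by linarith)
      have h6 : ‖h₂ (ck T₁ y 0)‖ ≤ E.C * (1 + R) ^ E.k := b3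
      have p1 : (1 + R) ^ m ≤ (1 + R) ^ (m + E.k + 1) := pow_le_pow_right₀ hR1 (by omega)
      have p2 : (1 + R) ^ E.k ≤ (1 + R) ^ (m + E.k + 1) := pow_le_pow_right₀ hR1 (by omega)
      have p3 : 1 + R ≤ (1 + R) ^ (m + E.k + 1) := by
        calc 1 + R = (1 + R) ^ 1 := (pow_one _).symm
          _ ≤ (1 + R) ^ (m + E.k + 1) := pow_le_pow_right₀ hR1 (by omega)
      have p4 : 1 ≤ (1 + R) ^ (m + E.k + 1) := one_le_pow₀ hR1
      have e4 : ‖D t‖ ≤ E.C * (3 + 2 * E.C + E.C) * (1 + R) ^ (m + E.k + 1) := by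
        refine e3.trans ?_
        rw [mul_assoc]
        refine mul_le_mul_of_nonneg_left ?_ hC
        have q1 := mul_le_mul_of_nonneg_left p2 hC
        have q2 := mul_le_mul_of_nonneg_left p4 hC
        nlinarith
      have e5 : ‖Φf t‖ ≤ A * (1 + R) ^ (m + E.k + 1) := e1.trans (mul_le_mul_of_nonneg_left p1 hA)
      have e6 : ‖Φg t‖ ≤ A * (1 + R) ^ (m + E.k + 1) := e2.trans (mul_le_mul_of_nonneg_left p1 hA)
      calc ‖Φg t + D t - Φf t‖ ≤ ‖Φg t + D t‖ + ‖Φf t‖ := norm_sub_le _ _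
        _ ≤ ‖Φg t‖ + ‖D t‖ + ‖Φf t‖ := by linarith [norm_add_le (Φg t) (D t)]
        _ ≤ (2 * A + E.C * (3 + 2 * E.C + E.C)) * (1 + R) ^ (m + E.k + 1) := by linarith

end Pool.Agent.H87.LU
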