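import Pool.Agent.H87.LU.Sep

/-!
# LU Near: near pairs with `II = 0` are near a member of `ZS` (port of EL DyC); rigidity of the members of `ZS` (port of EL DyD)
-/

set_option autoImplicit false

open Topology Filter Metric

namespace Pool.Agent.H87.LU

variable {Y : Type} [MetricSpace Y] {K : Set Y} {p : ℝ} {B : Set ℂ} {δ W : ℝ} {S : Set ℂ → Set (ℂ → Y)}
    {Zr : ℂ → Y → Prop} {II : ℂ → Y → Y → ℂ}

/-- the integral is zero at the good points of the strip in the ball about `i y` of radius `R` -/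
def Ze {Y : Type} (B : Set ℂ) (δ W : ℝ) (II : ℂ → Y → Y → ℂ) (f g : ℂ → Y) (y R : ℝ) : Prop :=
  ∀ z ∈ ball ((y : ℂ) * Complex.I) R, z ∈ Gd B (2 * δ) → |z.re| < W → II z (f z) (g z) = 0

/-- in an open ball inside the closed strip the points are in the open strip -/
theorem re_lt_of_ball {z₀ z : ℂ} {r W : ℝ} (h : ∀ w ∈ ball z₀ r, |w.re| ≤ W) (hz : z ∈ ball z₀ r) : |z.re| < W := by
  obtain ⟨s, hs, hsub⟩ := Metric.isOpen_iff.1 isOpen_ball z hz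
  obtain ⟨e, he, he2⟩ : ∃ e : ℝ, |e| = 1 ∧ e * z.re = |z.re| := by
    rcases le_total 0 z.re with h1 | h1
    · exact ⟨1, abs_one, by rw [one_mul, abs_of_nonneg h1]⟩
    · exact ⟨-1, by rw [abs_neg, abs_one], by rw [abs_of_nonpos h1]; ring⟩
  have h1 : z + ((e * (s / 2) : ℝ) : ℂ) ∈ ball z s := by
    rw [mem_ball, dist_eq_norm, add_sub_cancel_left, Complex.norm_real, Real.norm_eq_abs, abs_mul, he, one_mul, abs_of_pos (by linarith)]
    linarith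
  have h2 := h _ (hsub h1)
  rw [Complex.add_re, Complex.ofReal_re] at h2
  have h3 : |z.re| + s / 2 ≤ |z.re + e * (s / 2)| := by
    have h4 : |e * (z.re + e * (s / 2))| = |z.re + e * (s / 2)| := by rw [abs_mul, he, one_mul]
    have h5 : e * (z.re + e * (s / 2)) = |z.re| + s / 2 := by
      have h6 : e * e = 1 := by
        have := abs_mul_abs_self e
        rw [he] at this
        linarith
      calc e * (z.re + e * (s / 2)) = e * z.re + (e * e) * (s / 2) := by ring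
        _ = _ := by rw [he2, h6]; ring
    rw [← h4, h5]
    exact le_abs_self _
  linarith

/-- the translated domain contains large balls -/
theorem ball_sub_sh {p y R : ℝ} {l : ℤ} {Ω : Set ℂ} (hΩ : ball ((y : ℂ) * Complex.I) R ⊆ Ω) (hl : |y - p * l| ≤ p) : ball 0 (R - p) ⊆ Sh p l Ω := by
  intro z hz
  rw [mem_ball_zero_iff] at hz
  exact hΩ (ball_tr (R' := R) (by linarith) le_rfl)

theorem UDyn.near_zs (h : UDyn K p B δ W S Zr II) {ε' : ℝ} (hε' : 0 < ε') (R₂ : ℝ) : ∃ ε₃ R₃ : ℝ, 0 < ε₃ ∧ 0 < R₃ ∧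
    ∀ Ω : Set ℂ, IsOpen Ω → Convex ℝ Ω → ∀ f ∈ S Ω, ∀ g ∈ S Ω, ¬ AgO B Ω f g → ∀ y : ℝ, ball ((y : ℂ) * Complex.I) R₃ ⊆ Ω → Cl B δ W f g y R₃ ε₃ →
      Ze B δ W II f g y R₃ → ∃ e ∈ ZS B δ W S Zr, Cl B δ W f e y R₂ ε' ∧ Cl B δ W g e y R₂ ε' := by
  by_contra hcon
  push Not at hcon
  choose Ω hΩo hΩc f hf g hg hne y hball hcl hN hbad using fun n : ℕ =>
    hcon (1 / ((n : ℝ) + 1)) ((n : ℝ) + 1) (by positivity) (by positivity)
  choose l hla using fun n => h.exists_int (y n)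
  have hδ : 0 < δ := h.δ_pos
  set 𝒰 : Ultrafilter ℕ := Filter.hyperfilter ℕ with h𝒰
  have hle : (𝒰 : Filter ℕ) ≤ atTop := by
    rw [h𝒰, ← Nat.cofinite_eq_atTop]
    exact Filter.hyperfilter_le_cofinite
  have hlarge : ∀ c : ℝ, ∀ᶠ n : ℕ in (𝒰 : Filter ℕ), c < (n : ℝ) + 1 := by
    intro c
    have h1 : ∀ᶠ n : ℕ in atTop, c ≤ (n : ℝ) := tendsto_natCast_atTop_atTop.eventually_ge_atTop c
    filter_upwards [hle h1] with n hn
    linarith
  have hzero : Tendsto (fun n : ℕ => 1 / ((n : ℝ) + 1)) 𝒰 (𝓝 0) :=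
    Tendsto.mono_left (tendsto_one_div_add_atTop_nhds_zero_nat (𝕜 := ℝ)) hle
  set F : ℕ → ℂ → Y := fun n => tr p (l n) (f n) with hFdef
  set G : ℕ → ℂ → Y := fun n => tr p (l n) (g n) with hGdef
  set Ω' : ℕ → Set ℂ := fun n => Sh p (l n) (Ω n) with hΩ'
  have hΩ'o : ∀ n, IsOpen (Ω' n) ∧ Convex ℝ (Ω' n) := fun n => ⟨isOpen_sh (hΩo n), convex_sh (hΩc n)⟩
  have hex : ∀ R : ℝ, ∀ᶠ n in (𝒰 : Filter ℕ), ball 0 R ⊆ Ω' n := by
    intro R
    filter_upwards [hlarge (R + p)] with n hn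
    exact (ball_subset_ball (by linarith)).trans (ball_sub_sh (hball n) (hla n))
  have hFS : ∀ n, F n ∈ S (Ω' n) := fun n => h.tr_mem (hΩo n) (hΩc n) (hf n) (l n)
  have hGS : ∀ n, G n ∈ S (Ω' n) := fun n => h.tr_mem (hΩo n) (hΩc n) (hg n) (l n)
  have hFGne : ∀ n, ¬ AgO B (Ω' n) (F n) (G n) := fun n hAg => hne n ((h.ag_tr (l n)).1 hAg)
  obtain ⟨f₀, hf₀, hflim⟩ := h.exists_lim 𝒰 F hΩ'o hex (Filter.Eventually.of_forall hFS)
  obtain ⟨g₀, hg₀, hglim⟩ := h.exists_lim 𝒰 G hΩ'o hex (Filter.Eventually.of_forall hGS)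
  -- the two limits agree
  have heq : ∀ z ∈ Gd B δ, |z.re| ≤ W → f₀ z = g₀ z := by
    intro z hz hzW
    have hzB : z ∉ B := gd_notMem hδ hz
    have h1 : Tendsto (fun n => dist (F n z) (G n z)) 𝒰 (𝓝 (dist (f₀ z) (g₀ z))) := (hflim z hzB).dist (hglim z hzB)
    have h2 : Tendsto (fun n => dist (F n z) (G n z)) 𝒰 (𝓝 0) := by
      refine squeeze_zero' (Filter.Eventually.of_forall fun n => dist_nonneg) ?_ hzero
      filter_upwards [hlarge (‖z‖ + p)] with n hn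
      exact hcl n (z + p * l n * Complex.I) (ball_tr (by linarith [hla n]) le_rfl) ((h.gd_add δ (l n)).mpr hz) (by rwa [add_re])
    exact dist_eq_zero.mp (tendsto_nhds_unique h1 h2)
  have hAg : AgO B Set.univ f₀ g₀ := by
    by_contra hcon2
    have hWc : |((W : ℝ) : ℂ).re| ≤ W := by
      rw [Complex.ofReal_re, abs_of_pos h.W_pos]
    obtain ⟨w, hw, hwW, -, hne2⟩ := h.exists_ne isOpen_univ convex_univ hf₀ hg₀ hcon2 (z := ((W : ℝ) : ℂ)) (Set.mem_univ _)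
      (h.right_mem (by rw [Complex.ofReal_re]; linarith)) hWc one_pos
    exact hne2 (heq w (gd_mono (by linarith) hw) hwW.le)
  have hGlim : ∀ z, z ∉ B → Tendsto (fun n => G n z) 𝒰 (𝓝 (f₀ z)) := by
    intro z hz
    rw [hAg z (Set.mem_univ z) hz]
    exact hglim z hz
  -- the limit is in `ZS`
  have hZS : f₀ ∈ ZS B δ W S Zr := by
    refine ⟨hf₀, fun z hz hzW => ?_⟩
    have hex1 : ∀ n : ℕ, ∃ w : ℂ, z ∈ Ω' n → w ∈ Gd B (2 * δ) ∧ |w.re| < W ∧ ‖w - z‖ < 1 / ((n : ℝ) + 1) ∧ F n w ≠ G n w := by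
      intro n
      by_cases hzn : z ∈ Ω' n
      · obtain ⟨w, h1, h2, h3, h4⟩ := h.exists_ne (hΩ'o n).1 (hΩ'o n).2 (hFS n) (hGS n) (hFGne n) hzn hz hzW (ε := 1 / ((n : ℝ) + 1)) (by positivity)
        exact ⟨w, fun _ => ⟨h1, h2, h3, h4⟩⟩
      · exact ⟨0, fun h1 => absurd h1 hzn⟩
    choose w hw using hex1
    have hzΩ : ∀ᶠ n in (𝒰 : Filter ℕ), z ∈ Ω' n := by
      filter_upwards [hex (‖z‖ + 1)] with n hn
      exact hn (by rw [mem_ball_zero_iff]; linarith)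
    have hwlim : Tendsto w 𝒰 (𝓝 z) := by
      rw [tendsto_iff_norm_sub_tendsto_zero]
      refine squeeze_zero' (Eventually.of_forall fun n => norm_nonneg _) ?_ hzero
      filter_upwards [hzΩ] with n hn using (hw n hn).2.2.1.le
    refine h.near 𝒰 Ω' F G w f₀ hf₀ hΩ'o hex (Filter.Eventually.of_forall fun n => ⟨hFS n, hGS n⟩) hflim hGlim z hz hzW hwlim ?_
    filter_upwards [hlarge (1 + ‖z‖ + p), hzΩ] with n hn hzn
    obtain ⟨hw1, hw2, hw3, hw4⟩ := hw n hzn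
    refine ⟨hw1, hw2.le, hw4, ?_⟩
    have h1 : ‖w n‖ ≤ 1 + ‖z‖ := by
      have h2 : ‖w n‖ ≤ ‖w n - z‖ + ‖z‖ := by
        have h3 : w n = (w n - z) + z := by ring
        calc ‖w n‖ = ‖(w n - z) + z‖ := by rw [← h3]
          _ ≤ ‖w n - z‖ + ‖z‖ := norm_add_le _ _
      have h4 : 1 / ((n : ℝ) + 1) ≤ 1 := by
        rw [div_le_one (by positivity)]
        have : (0 : ℝ) ≤ (n : ℝ) := Nat.cast_nonneg n
        linarith
      linarith [hw3]
    have h5 := hN n (w n + p * l n * Complex.I) (ball_tr (by linarith [hla n]) le_rfl) ((h.gd_add (2 * δ) (l n)).mpr hw1) (by rwa [add_re])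
    rw [h.II_add (l n)] at h5
    exact h5
  -- the contradiction
  have hu1 := h.unif 𝒰 F hΩ'o hex (Filter.Eventually.of_forall hFS) hf₀ hflim hδ (R₂ + p) ε' hε'
  have hu2 := h.unif 𝒰 G hΩ'o hex (Filter.Eventually.of_forall hGS) hf₀ hGlim hδ (R₂ + p) ε' hε'
  obtain ⟨n, hn1, hn2⟩ := (hu1.and hu2).exists
  refine hbad n (tr p (-l n) f₀) (h.zs_tr hZS (-l n)) ?_ ?_
  all_goals
    intro z hz hzG hzW
    have h1 : z + p * ((-l n : ℤ) : ℂ) * Complex.I ∈ Gd B δ := (h.gd_add δ (-l n)).mpr hzG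
    have h2 : ‖z + p * ((-l n : ℤ) : ℂ) * Complex.I‖ ≤ R₂ + p := by
      rw [mem_ball, dist_eq_norm] at hz
      have h3 : z + p * ((-l n : ℤ) : ℂ) * Complex.I = (z - (y n : ℂ) * Complex.I) + ((y n - p * l n : ℝ) : ℂ) * Complex.I := by
        push_cast
        ring
      rw [h3]
      refine (norm_add_le _ _).trans ?_
      rw [norm_mul, Complex.norm_I, mul_one, Complex.norm_real, Real.norm_eq_abs]
      linarith [hla n]
    have h4 : z + p * ((-l n : ℤ) : ℂ) * Complex.I + p * l n * Complex.I = z := by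
      push_cast
      ring
  · have h5 := (hn1 _ h1 h2).le
    simp only [hFdef, tr] at h5 ⊢
    rwa [h4] at h5
  · have h5 := (hn2 _ h1 h2).le
    simp only [hGdef, tr] at h5 ⊢
    rwa [h4] at h5

theorem UDyn.rigid (h : UDyn K p B δ W S Zr II) : ∃ ε₂ R₂ : ℝ, 0 < ε₂ ∧ 0 < R₂ ∧ ∀ e ∈ ZS B δ W S Zr, ∀ Ω : Set ℂ, IsOpen Ω → Convex ℝ Ω → ∀ g ∈ S Ω,
    ∀ y : ℝ, ball ((y : ℂ) * Complex.I) R₂ ⊆ Ω → Cl B δ W g e y R₂ ε₂ → Ze B δ W II e g y R₂ → AgO B Ω e g := by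
  by_contra hcon
  have hδ : 0 < δ := h.δ_pos
  push Not at hcon
  choose e he Ω hΩo hΩc g hg y hball h1 h2 h3 using fun n : ℕ =>
    hcon (1 / ((n : ℝ) + 1)) ((n : ℝ) + 1) (by positivity) (by positivity)
  choose l hal using fun n => h.exists_int (y n)
  obtain ⟨𝒰, h𝒰⟩ : ∃ 𝒰 : Ultrafilter ℕ, (𝒰 : Filter ℕ) ≤ atTop := ⟨Ultrafilter.of atTop, Ultrafilter.of_le atTop⟩
  have he' : ∀ n, tr p (l n) (e n) ∈ ZS B δ W S Zr := fun n => h.zs_tr (he n) (l n)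
  have hg' : ∀ n, tr p (l n) (g n) ∈ S (Sh p (l n) (Ω n)) := fun n => h.tr_mem (hΩo n) (hΩc n) (hg n) (l n)
  have hΩu : ∀ n : ℕ, IsOpen ((fun _ => Set.univ : ℕ → Set ℂ) n) ∧ Convex ℝ ((fun _ => Set.univ : ℕ → Set ℂ) n) := fun n => ⟨isOpen_univ, convex_univ⟩
  have hexu : ∀ R : ℝ, ∀ᶠ n in (𝒰 : Filter ℕ), ball 0 R ⊆ (fun _ => Set.univ : ℕ → Set ℂ) n := fun R => Eventually.of_forall fun n => Set.subset_univ _
  have heS : ∀ᶠ n in (𝒰 : Filter ℕ), tr p (l n) (e n) ∈ S ((fun _ => Set.univ : ℕ → Set ℂ) n) := Eventually.of_forall fun n => (he' n).1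
  obtain ⟨e₀, he₀S, he₀⟩ := h.exists_lim 𝒰 (Ω := fun _ => Set.univ) (fun n => tr p (l n) (e n)) hΩu hexu heS
  have he₀Z : e₀ ∈ ZS B δ W S Zr := h.zs_lim 𝒰 (fun n => tr p (l n) (e n)) (Eventually.of_forall he') he₀
  obtain ⟨ε₁, n₁, hε₁, hn₁, hsep⟩ := h.sep
  obtain ⟨z₀, r, ε, hr, hε, hball0, hiso⟩ := h.iso e₀ he₀S he₀Z.2
  have ev1 : ∀ᶠ n in (𝒰 : Filter ℕ), ∀ z ∈ Gd B δ, ‖z‖ ≤ n₁ → dist (tr p (l n) (e n) z) (e₀ z) < ε₁ :=
    h.unif 𝒰 (Ω := fun _ => Set.univ) (fun n => tr p (l n) (e n)) hΩu hexu heS he₀S he₀ hδ n₁ ε₁ hε₁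
  have hinv : Tendsto (fun n : ℕ => 1 / ((n : ℝ) + 1)) atTop (𝓝 0) := tendsto_one_div_add_atTop_nhds_zero_nat
  have ev2 : ∀ᶠ n : ℕ in (𝒰 : Filter ℕ), 1 / ((n : ℝ) + 1) < ε := (hinv.eventually_lt_const hε).filter_mono h𝒰
  have ev3 : ∀ᶠ n : ℕ in (𝒰 : Filter ℕ), ‖z₀‖ + r + p < (n : ℝ) + 1 := by
    have : Tendsto (fun n : ℕ => (n : ℝ) + 1) atTop atTop :=
      tendsto_atTop_add_const_right _ _ tendsto_natCast_atTop_atTop
    exact (this.eventually_gt_atTop _).filter_mono h𝒰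
  obtain ⟨n, hn1, hn2, hn3⟩ := (ev1.and (ev2.and ev3)).exists
  have hag : AgO B Set.univ (tr p (l n) (e n)) e₀ := by
    refine hsep _ (he' n) _ he₀Z 0 fun z hz hzG _ => (hn1 z hzG ?_).le
    rw [Complex.ofReal_zero, zero_mul, mem_ball_zero_iff] at hz
    exact hz.le
  have hsub : ball z₀ r ⊆ Sh p (l n) (Ω n) := by
    refine fun z hz => ball_sub_sh (hball n) (hal n) ?_
    rw [mem_ball, dist_eq_norm] at hz
    rw [mem_ball_zero_iff]
    have h4 : z = (z - z₀) + z₀ := by ring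
    calc ‖z‖ = ‖(z - z₀) + z₀‖ := by rw [← h4]
      _ ≤ ‖z - z₀‖ + ‖z₀‖ := norm_add_le _ _
      _ < (n : ℝ) + 1 - p := by linarith
  have key : ∀ z ∈ ball z₀ r, tr p (l n) (g n) z = tr p (l n) (e n) z := by
    intro z hz
    obtain ⟨hzG, hzW⟩ := hball0 hz
    have hzG1 : z ∈ Gd B δ := gd_mono (by linarith) hzG
    have hzB : z ∉ B := gd_notMem (by linarith) hzG
    have hez : tr p (l n) (e n) z = e₀ z := hag z (Set.mem_univ z) hzB
    have hz' : ‖z - z₀‖ < r := by rwa [mem_ball, dist_eq_norm] at hz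
    have hzn : ‖z‖ ≤ ‖z - z₀‖ + ‖z₀‖ := by
      have h4 : z = (z - z₀) + z₀ := by ring
      calc ‖z‖ = ‖(z - z₀) + z₀‖ := by rw [← h4]
        _ ≤ ‖z - z₀‖ + ‖z₀‖ := norm_add_le _ _
    have hzb : z + p * l n * Complex.I ∈ ball ((y n : ℂ) * Complex.I) ((n : ℝ) + 1) := ball_tr (R' := (n : ℝ) + 1) (by linarith [hal n]) le_rfl
    have hd := h1 n (z + p * l n * Complex.I) hzb ((h.gd_add δ (l n)).2 hzG1) (by rwa [add_re])
    have hN := h2 n (z + p * l n * Complex.I) hzb ((h.gd_add (2 * δ) (l n)).2 hzG) (by rw [add_re]; exact re_lt_of_ball (fun w hw => (hball0 hw).2) hz)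
    rw [h.II_add (l n)] at hN
    change dist (tr p (l n) (g n) z) (tr p (l n) (e n) z) ≤ _ at hd
    change II z (tr p (l n) (e n) z) (tr p (l n) (g n) z) = 0 at hN
    rw [hez] at hd hN ⊢
    exact hiso _ (isOpen_sh (hΩo n)) (convex_sh (hΩc n)) hsub _ (hg' n) z hz (lt_of_le_of_lt hd hn2) (Or.inl hN)
  have hz₀B : z₀ ∉ B := gd_notMem (by linarith) (hball0 (mem_ball_self hr)).1
  have hfreq : ∃ᶠ z in 𝓝[≠] z₀, tr p (l n) (e n) z = tr p (l n) (g n) z := by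
    have hev : ∀ᶠ z in 𝓝[≠] z₀, tr p (l n) (e n) z = tr p (l n) (g n) z :=
      nhdsWithin_le_nhds (mem_of_superset (ball_mem_nhds z₀ hr) fun z hz => (key z hz).symm)
    exact hev.frequently
  have heSn : tr p (l n) (e n) ∈ S (Sh p (l n) (Ω n)) :=
    h.anti Set.univ _ isOpen_univ convex_univ (isOpen_sh (hΩo n)) (convex_sh (hΩc n)) (Set.subset_univ _) (he' n).1
  have hAg := h.uniq _ (isOpen_sh (hΩo n)) (convex_sh (hΩc n)) _ heSn _ (hg' n) z₀ (hsub (mem_ball_self hr)) hz₀B hfreq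
  exact h3 n ((h.ag_tr (l n)).1 hAg)

end Pool.Agent.H87.LU
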