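import Pool.Agent.H87.LU.Lim

/-!
# LU Sep: the members of `ZS` are uniformly separated (port of EL DyB)
-/

set_option autoImplicit false

open Topology Filter Metric

namespace Pool.Agent.H87.LU

variable {Y : Type} [MetricSpace Y] {K : Set Y} {p : ℝ} {B : Set ℂ} {δ W : ℝ} {S : Set ℂ → Set (ℂ → Y)}
    {Zr : ℂ → Y → Prop} {II : ℂ → Y → Y → ℂ}

/-- `f` and `g` are `ε`-close at the good points of the strip in the ball about `i y` of radius `R` -/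
def Cl {Y : Type} [MetricSpace Y] (B : Set ℂ) (δ W : ℝ) (f g : ℂ → Y) (y R ε : ℝ) : Prop :=
  ∀ z ∈ ball ((y : ℂ) * Complex.I) R, z ∈ Gd B δ → |z.re| ≤ W → dist (f z) (g z) ≤ ε

/-- a map translated by `i p l` -/
def tr {Y : Type} (p : ℝ) (l : ℤ) (f : ℂ → Y) : ℂ → Y := fun z => f (z + p * l * Complex.I)

theorem tr_tr {Y : Type} (p : ℝ) (l m : ℤ) (f : ℂ → Y) : tr p l (tr p m f) = tr p (l + m) f := by
  funext z
  unfold tr
  congr 1
  push_cast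
  ring

theorem tr_zero {Y : Type} (p : ℝ) (f : ℂ → Y) : tr p 0 f = f := by
  funext z
  simp [tr]

theorem UDyn.zr_add (h : UDyn K p B δ W S Zr II) (l : ℤ) : ∀ z y, Zr (z + p * l * Complex.I) y ↔ Zr z y := by
  induction l with
  | zero => simp
  | succ i ih =>
    intro z y
    have h1 : z + (p : ℂ) * (((i : ℤ) + 1 : ℤ) : ℂ) * Complex.I = (z + p * ((i : ℤ) : ℂ) * Complex.I) + p * Complex.I := by
      push_cast
      ring
    rw [h1, h.Z_inv, ih]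
  | pred i ih =>
    intro z y
    have h1 : z + p * ((-(i : ℤ) : ℤ) : ℂ) * Complex.I = (z + (p : ℂ) * ((-(i : ℤ) - 1 : ℤ) : ℂ) * Complex.I) + p * Complex.I := by
      push_cast
      ring
    have h2 := ih z y
    rw [h1, h.Z_inv] at h2
    exact h2

theorem UDyn.II_add (h : UDyn K p B δ W S Zr II) (l : ℤ) : ∀ z y y', II (z + p * l * Complex.I) y y' = II z y y' := by
  induction l with
  | zero => simp
  | succ i ih =>
    intro z y y'
    have h1 : z + (p : ℂ) * (((i : ℤ) + 1 : ℤ) : ℂ) * Complex.I = (z + p * ((i : ℤ) : ℂ) * Complex.I) + p * Complex.I := by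
      push_cast
      ring
    rw [h1, h.II_inv, ih]
  | pred i ih =>
    intro z y y'
    have h1 : z + p * ((-(i : ℤ) : ℤ) : ℂ) * Complex.I = (z + (p : ℂ) * ((-(i : ℤ) - 1 : ℤ) : ℂ) * Complex.I) + p * Complex.I := by
      push_cast
      ring
    have h2 := ih z y y'
    rw [h1, h.II_inv] at h2
    exact h2

theorem UDyn.tr_mem (h : UDyn K p B δ W S Zr II) {Ω : Set ℂ} (hΩ : IsOpen Ω) (hΩc : Convex ℝ Ω) {f : ℂ → Y} (hf : f ∈ S Ω) (l : ℤ) :
    tr p l f ∈ S (Sh p l Ω) := h.trans Ω hΩ hΩc f hf l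

theorem UDyn.tr_univ (h : UDyn K p B δ W S Zr II) {f : ℂ → Y} (hf : f ∈ S Set.univ) (l : ℤ) : tr p l f ∈ S Set.univ :=
  h.trans Set.univ isOpen_univ convex_univ f hf l

theorem UDyn.zs_tr (h : UDyn K p B δ W S Zr II) {e : ℂ → Y} (he : e ∈ ZS B δ W S Zr) (l : ℤ) : tr p l e ∈ ZS B δ W S Zr := by
  refine ⟨h.tr_univ he.1 l, fun z hz hzW => ?_⟩
  exact (h.zr_add l z _).1 (he.2 (z + p * l * Complex.I) ((h.gd_add (2 * δ) l).2 hz) (by rwa [add_re]))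

theorem UDyn.zs_lim (h : UDyn K p B δ W S Zr II) (𝒰 : Ultrafilter ℕ) (F : ℕ → ℂ → Y) (hF : ∀ᶠ n in (𝒰 : Filter ℕ), F n ∈ ZS B δ W S Zr)
    {f : ℂ → Y} (hf : ∀ z, z ∉ B → Tendsto (fun n => F n z) 𝒰 (𝓝 (f z))) : f ∈ ZS B δ W S Zr := by
  have hΩ : ∀ n : ℕ, IsOpen ((fun _ => Set.univ : ℕ → Set ℂ) n) ∧ Convex ℝ ((fun _ => Set.univ : ℕ → Set ℂ) n) := fun n => ⟨isOpen_univ, convex_univ⟩
  have hex : ∀ R : ℝ, ∀ᶠ n in (𝒰 : Filter ℕ), ball 0 R ⊆ (fun _ => Set.univ : ℕ → Set ℂ) n := fun R => Eventually.of_forall fun n => Set.subset_univ _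
  have h1 : ∀ᶠ n in (𝒰 : Filter ℕ), F n ∈ S ((fun _ => Set.univ : ℕ → Set ℂ) n) := hF.mono fun n hn => hn.1
  have h2 : f ∈ S Set.univ := h.lim 𝒰 (fun _ => Set.univ) F f hΩ hex h1 hf
  refine ⟨h2, fun z hz hzW => ?_⟩
  exact h.Z_lim 𝒰 (fun _ => Set.univ) F f h2 hΩ hex h1 hf z hz hzW (hF.mono fun n hn => hn.2 z hz hzW)

theorem UDyn.ag_tr (h : UDyn K p B δ W S Zr II) {Ω : Set ℂ} {f g : ℂ → Y} (l : ℤ) : AgO B (Sh p l Ω) (tr p l f) (tr p l g) ↔ AgO B Ω f g := by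
  constructor
  · intro h1 z hz hzB
    have h2 : z - p * l * Complex.I + p * l * Complex.I = z := by ring
    have h3 : z - p * l * Complex.I ∈ Sh p l Ω := by
      show z - p * l * Complex.I + p * l * Complex.I ∈ Ω
      rwa [h2]
    have h4 : z - p * l * Complex.I ∉ B := by
      intro h5
      apply hzB
      have h6 := h.B_inv _ h5 l
      rwa [h2] at h6
    have h5 : f (z - p * l * Complex.I + p * l * Complex.I) = g (z - p * l * Complex.I + p * l * Complex.I) := h1 _ h3 h4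
    rwa [h2] at h5
  · intro h1 z hz hzB
    exact h1 (z + p * l * Complex.I) hz fun h2 => hzB ((h.mem_add l).1 h2)

/-- translated balls -/
theorem ball_tr {p y R R' : ℝ} {l : ℤ} {z : ℂ} (h : ‖z‖ + |y - p * l| < R') (hR : R' ≤ R) : z + p * l * Complex.I ∈ ball ((y : ℂ) * Complex.I) R := by
  rw [mem_ball, dist_eq_norm]
  have h1 : z + p * l * Complex.I - (y : ℂ) * Complex.I = z - ((y - p * l : ℝ) : ℂ) * Complex.I := by
    push_cast
    ring
  rw [h1]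
  refine (norm_sub_le _ _).trans_lt ?_
  rw [norm_mul, Complex.norm_I, mul_one, Complex.norm_real, Real.norm_eq_abs]
  linarith

theorem UDyn.sep (h : UDyn K p B δ W S Zr II) : ∃ ε₁ R₁ : ℝ, 0 < ε₁ ∧ 0 < R₁ ∧ ∀ e ∈ ZS B δ W S Zr, ∀ g ∈ ZS B δ W S Zr, ∀ y : ℝ,
    Cl B δ W e g y R₁ ε₁ → AgO B Set.univ e g := by
  by_contra hcon
  have hcon' : ∀ n : ℕ, ∃ e ∈ ZS B δ W S Zr, ∃ g ∈ ZS B δ W S Zr, ∃ y : ℝ,
      Cl B δ W e g y ((n : ℝ) + 1) (1 / ((n : ℝ) + 1)) ∧ ¬ AgO B Set.univ e g := by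
    intro n
    by_contra h1
    apply hcon
    refine ⟨1 / ((n : ℝ) + 1), (n : ℝ) + 1, by positivity, by positivity, ?_⟩
    intro e he g hg y h2
    by_contra h3
    exact h1 ⟨e, he, g, hg, y, h2, h3⟩
  choose e he g hg y hclose hne using hcon'
  choose l hl using fun n => h.exists_int (y n)
  have hpos := h.δ_pos
  obtain ⟨𝒰, h𝒰⟩ : ∃ 𝒰 : Ultrafilter ℕ, (𝒰 : Filter ℕ) ≤ atTop := ⟨Ultrafilter.of atTop, Ultrafilter.of_le _⟩
  have he' : ∀ n, tr p (l n) (e n) ∈ ZS B δ W S Zr := fun n => h.zs_tr (he n) (l n)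
  have hg' : ∀ n, tr p (l n) (g n) ∈ ZS B δ W S Zr := fun n => h.zs_tr (hg n) (l n)
  have hclose' : ∀ n : ℕ, ∀ z ∈ Gd B δ, |z.re| ≤ W → ‖z‖ + p < (n : ℝ) + 1 →
      dist (tr p (l n) (e n) z) (tr p (l n) (g n) z) ≤ 1 / ((n : ℝ) + 1) := by
    intro n z hz hzW hzn
    exact hclose n (z + p * l n * Complex.I) (ball_tr (by linarith [hl n]) le_rfl) ((h.gd_add δ (l n)).2 hz) (by rwa [add_re])
  have hΩ : ∀ n : ℕ, IsOpen ((fun _ => Set.univ : ℕ → Set ℂ) n) ∧ Convex ℝ ((fun _ => Set.univ : ℕ → Set ℂ) n) := fun n => ⟨isOpen_univ, convex_univ⟩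
  have hex : ∀ R : ℝ, ∀ᶠ n in (𝒰 : Filter ℕ), ball 0 R ⊆ (fun _ => Set.univ : ℕ → Set ℂ) n := fun R => Eventually.of_forall fun n => Set.subset_univ _
  have heS : ∀ᶠ n in (𝒰 : Filter ℕ), tr p (l n) (e n) ∈ S ((fun _ => Set.univ : ℕ → Set ℂ) n) := Eventually.of_forall fun n => (he' n).1
  have hgS : ∀ᶠ n in (𝒰 : Filter ℕ), tr p (l n) (g n) ∈ S ((fun _ => Set.univ : ℕ → Set ℂ) n) := Eventually.of_forall fun n => (hg' n).1
  obtain ⟨f, hfS, hf⟩ := h.exists_lim 𝒰 (Ω := fun _ => Set.univ) (fun n => tr p (l n) (e n)) hΩ hex heS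
  obtain ⟨f₂, hf₂S, hf₂⟩ := h.exists_lim 𝒰 (Ω := fun _ => Set.univ) (fun n => tr p (l n) (g n)) hΩ hex hgS
  have hfZ : f ∈ ZS B δ W S Zr := h.zs_lim 𝒰 (fun n => tr p (l n) (e n)) (Filter.Eventually.of_forall he') hf
  -- the two limits agree
  have heq : ∀ z ∈ Gd B δ, |z.re| ≤ W → f z = f₂ z := by
    intro z hz hzW
    have hzB : z ∉ B := gd_notMem hpos hz
    have h1 : Tendsto (fun n : ℕ => dist (tr p (l n) (e n) z) (tr p (l n) (g n) z)) 𝒰 (𝓝 0) := by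
      have h2 : Tendsto (fun n : ℕ => 1 / ((n : ℝ) + 1)) 𝒰 (𝓝 0) :=
        tendsto_one_div_add_atTop_nhds_zero_nat.mono_left h𝒰
      refine tendsto_of_tendsto_of_tendsto_of_le_of_le' tendsto_const_nhds h2
        (Filter.Eventually.of_forall fun n => dist_nonneg) ?_
      have h3 : ∀ᶠ n : ℕ in atTop, ‖z‖ + p < (n : ℝ) + 1 := by
        filter_upwards [tendsto_natCast_atTop_atTop.eventually_ge_atTop (‖z‖ + p)] with n hn
        linarith
      filter_upwards [h𝒰 h3] with n hn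
      exact hclose' n z hz hzW hn
    exact tendsto_nhds_unique ((tendsto_iff_of_dist h1).1 (hf z hzB)) (hf₂ z hzB)
  have hAg : AgO B Set.univ f f₂ := by
    by_contra hcon2
    have hWc : |((W : ℝ) : ℂ).re| ≤ W := by
      rw [Complex.ofReal_re, abs_of_pos h.W_pos]
    obtain ⟨w, hw, hwW, -, hne2⟩ := h.exists_ne isOpen_univ convex_univ hfS hf₂S hcon2 (z := ((W : ℝ) : ℂ)) (Set.mem_univ _)
      (h.right_mem (by rw [Complex.ofReal_re]; linarith)) hWc one_pos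
    exact hne2 (heq w (gd_mono (by linarith) hw) hwW.le)
  obtain ⟨z₀, r, ε, hr, hε, hball, hiso⟩ := h.iso f hfS hfZ.2
  have hz₀ : z₀ ∈ ball z₀ r := mem_ball_self hr
  have hz₀B : z₀ ∉ B := gd_notMem (by positivity) (hball hz₀).1
  have hf₂' : ∀ z, z ∉ B → Tendsto (fun n => tr p (l n) (g n) z) 𝒰 (𝓝 (f z)) := by
    intro z hz
    rw [hAg z (Set.mem_univ z) hz]
    exact hf₂ z hz
  have hu1 := h.unif 𝒰 (Ω := fun _ => Set.univ) (fun n => tr p (l n) (e n)) hΩ hex heS hfS hf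
    (δ' := 2 * δ) (by positivity) (‖z₀‖ + r) ε hε
  have hu2 := h.unif 𝒰 (Ω := fun _ => Set.univ) (fun n => tr p (l n) (g n)) hΩ hex hgS hfS hf₂'
    (δ' := 2 * δ) (by positivity) (‖z₀‖ + r) ε hε
  obtain ⟨n, h1, h2⟩ := (hu1.and hu2).exists
  refine hne n ((h.ag_tr (l n)).1 ?_)
  rw [sh_univ]
  refine h.uniq Set.univ isOpen_univ convex_univ _ (he' n).1 _ (hg' n).1 z₀ (Set.mem_univ _) hz₀B (Filter.Eventually.frequently ?_)
  have h3 : ∀ᶠ z in 𝓝 z₀, tr p (l n) (e n) z = tr p (l n) (g n) z := by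
    filter_upwards [isOpen_ball.mem_nhds hz₀] with z hz
    have hzn : ‖z‖ ≤ ‖z₀‖ + r := by
      rw [mem_ball, dist_eq_norm] at hz
      have h4 : z = z₀ + (z - z₀) := by ring
      calc ‖z‖ = ‖z₀ + (z - z₀)‖ := by rw [← h4]
        _ ≤ ‖z₀‖ + ‖z - z₀‖ := norm_add_le _ _
        _ ≤ ‖z₀‖ + r := by linarith
    have h5 : tr p (l n) (e n) z = f z :=
      hiso Set.univ isOpen_univ convex_univ (Set.subset_univ _) _ (he' n).1 z hz (h1 z (hball hz).1 hzn) (Or.inr ((he' n).2 z (hball hz).1 (hball hz).2))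
    have h6 : tr p (l n) (g n) z = f z :=
      hiso Set.univ isOpen_univ convex_univ (Set.subset_univ _) _ (hg' n).1 z hz (h2 z (hball hz).1 hzn) (Or.inr ((hg' n).2 z (hball hz).1 (hball hz).2))
    rw [h5, h6]
  exact h3.filter_mono nhdsWithin_le_nhds

end Pool.Agent.H87.LU
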